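import Pool.Agent.H.MP_8be301_an.DP.Ref1

/-!
# The refinement monoid of the diagonal classes  (module RefL)

`W A` = finite sums of classes `c1 p`. `W_one`: induction on `w` (sum of `K` classes): `K = 0`: `c1 q + Y = 0` gives `q = 0`,
`Y = 0` (`VA_conical`: `v* v = diag (q, Y)` with `v` of size `0 × n`). Step: `c1 q + Y = c1 p + w'` by `ref1`: `c1 q = c1 a + c1 b`,
`c1 p = c1 a + c1 c`, `w' = c1 b + D`, `Y = c1 c + D`; the induction hypothesis for `c1 b + D = w'`. It is best to prove at once the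
version with a finite family: if `c1 q + Y = ∑_{k < K} c1 (p k)` then there are projections `a k`, `c k` with `c1 q = ∑ c1 (a k)`,
`c1 (p k) = c1 (a k) + c1 (c k)`, `Y = ∑ c1 (c k)`. `W_sub`: induction on `x`. `refi_W`: for `a + b = c + d` in `W` write `a` as a sum of `J`
classes; induction on `J` with the statement: for all `b, c, d ∈ W`, `a + b = c + d` implies a refinement in `W` (the case
`J = 1` is the family version for `c + d` written as a family indexed by a sum type).
-/

set_option autoImplicit false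

namespace Pool.Agent.H.MP_8be301_an.DP

open Matrix Pool.Agent.H.MP_8be301_an.RD

variable {A : Type*} [CStarAlgebra A]

theorem VA_conical {x y : VA A} (h : x + y = 0) : x = 0 ∧ y = 0 := by
  obtain ⟨n, P, hP, rfl⟩ := cl_surj x
  obtain ⟨m, Q, hQ, rfl⟩ := cl_surj y
  rw [cl_add, ← cl_zero Empty, cl_eq] at h
  obtain ⟨v, hv, -⟩ := h
  have h1 : vᴴ * v = 0 := by
    ext i j
    simp [Matrix.mul_apply]
  rw [h1] at hv
  have hP0 : P = 0 := by
    ext i j
    have := congrFun (congrFun hv (Sum.inl i)) (Sum.inl j)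
    simpa using this.symm
  have hQ0 : Q = 0 := by
    ext i j
    have := congrFun (congrFun hv (Sum.inr i)) (Sum.inr j)
    simpa using this.symm
  subst hP0 hQ0
  exact ⟨cl_zero _, cl_zero _⟩

variable (A) in
/-- the sums of classes of projections of `A` -/
noncomputable def W : AddSubmonoid (VA A) := AddSubmonoid.closure {x | ∃ p : A, Pj p ∧ x = c1 p}

theorem c1_mem {p : A} (hp : Pj p) : c1 p ∈ W A := AddSubmonoid.subset_closure ⟨p, hp, rfl⟩

theorem W_fin {x : VA A} (hx : x ∈ W A) : ∃ (k : ℕ) (p : Fin k → A), (∀ i, Pj (p i)) ∧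
    x = ∑ i, c1 (p i) := by
  induction hx using AddSubmonoid.closure_induction with
  | mem x hx =>
    obtain ⟨p, hp, rfl⟩ := hx
    exact ⟨1, fun _ => p, fun _ => hp, by simp⟩
  | zero => exact ⟨0, Fin.elim0, fun i => i.elim0, by simp⟩
  | add x y _ _ ihx ihy =>
    obtain ⟨k, p, hp, rfl⟩ := ihx
    obtain ⟨l, q, hq, rfl⟩ := ihy
    refine ⟨k + l, Fin.append p q, fun i => ?_, ?_⟩
    · refine Fin.addCases (fun i => ?_) (fun i => ?_) i
      · rw [Fin.append_left]
        exact hp i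
      · rw [Fin.append_right]
        exact hq i
    · rw [Fin.sum_univ_add]
      simp only [Fin.append_left, Fin.append_right]

/-- finite families -/
theorem RefL_fam (h0 : RR0 A) : ∀ (K : ℕ) (q : A) (Y : VA A) (p : Fin K → A), Pj q →
    (∀ k, Pj (p k)) → c1 q + Y = ∑ k, c1 (p k) → ∃ a c : Fin K → A, (∀ k, Pj (a k)) ∧
    (∀ k, Pj (c k)) ∧ c1 q = ∑ k, c1 (a k) ∧ (∀ k, c1 (p k) = c1 (a k) + c1 (c k)) ∧
    Y = ∑ k, c1 (c k) := by
  intro K
  induction K with
  | zero =>
    intro q Y p _ _ h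
    rw [Fin.sum_univ_zero] at h
    obtain ⟨h1, h2⟩ := VA_conical h
    exact ⟨Fin.elim0, Fin.elim0, fun k => k.elim0, fun k => k.elim0, by simpa using h1,
      fun k => k.elim0, by simpa using h2⟩
  | succ K ih =>
    intro q Y p hq hp h
    rw [Fin.sum_univ_succ] at h
    obtain ⟨a, b, c, D, ha, hb, hc, h1, h2, h3, h4⟩ := ref1 h0 hq (hp 0) h
    obtain ⟨a', c', ha', hc', h5, h6, h7⟩ := ih b D (fun k => p k.succ) hb
      (fun k => hp k.succ) h3.symm
    refine ⟨Fin.cons a a', Fin.cons c c', fun k => ?_, fun k => ?_, ?_, fun k => ?_, ?_⟩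
    · refine Fin.cases ?_ (fun k => ?_) k
      · rw [Fin.cons_zero]
        exact ha
      · rw [Fin.cons_succ]
        exact ha' k
    · refine Fin.cases ?_ (fun k => ?_) k
      · rw [Fin.cons_zero]
        exact hc
      · rw [Fin.cons_succ]
        exact hc' k
    · rw [Fin.sum_univ_succ]
      simp only [Fin.cons_zero, Fin.cons_succ]
      rw [h1, h5]
    · refine Fin.cases ?_ (fun k => ?_) k
      · rw [Fin.cons_zero, Fin.cons_zero]
        exact h2
      · rw [Fin.cons_succ, Fin.cons_succ]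
        exact h6 k
    · rw [Fin.sum_univ_succ]
      simp only [Fin.cons_zero, Fin.cons_succ]
      rw [h4, h7]

theorem RefL_sum_mem {K : ℕ} {p : Fin K → A} (hp : ∀ k, Pj (p k)) : ∑ k, c1 (p k) ∈ W A :=
  sum_mem fun k _ => c1_mem (hp k)

theorem RefL_sub (h0 : RR0 A) {q : A} (hq : Pj q) {Y : VA A} (h : c1 q + Y ∈ W A) :
    Y ∈ W A := by
  obtain ⟨K, p, hp, hs⟩ := W_fin h
  obtain ⟨a, c, _, hc, _, _, h7⟩ := RefL_fam h0 K q Y p hq hp hs
  rw [h7]
  exact RefL_sum_mem hc

theorem W_sub (h0 : RR0 A) {x y : VA A} (hx : x ∈ W A) (hxy : x + y ∈ W A) : y ∈ W A := by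
  have key : ∀ x : VA A, x ∈ W A → ∀ y : VA A, x + y ∈ W A → y ∈ W A := by
    intro x hx
    induction hx using AddSubmonoid.closure_induction with
    | mem x hx =>
      obtain ⟨p, hp, rfl⟩ := hx
      exact fun y hy => RefL_sub h0 hp hy
    | zero =>
      intro y hy
      rwa [zero_add] at hy
    | add x x' _ _ ih ih' =>
      intro y hy
      rw [add_assoc] at hy
      exact ih' y (ih _ hy)
  exact key x hx y hxy

theorem RefL_refi (h0 : RR0 A) {a : VA A} (ha : a ∈ W A) : ∀ b c d : VA A, b ∈ W A → c ∈ W A →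
    d ∈ W A → a + b = c + d → ∃ p q r s : VA A, p ∈ W A ∧ q ∈ W A ∧ r ∈ W A ∧ s ∈ W A ∧
      a = p + q ∧ b = r + s ∧ c = p + r ∧ d = q + s := by
  induction ha using AddSubmonoid.closure_induction with
  | mem a ha =>
    obtain ⟨x, hx, rfl⟩ := ha
    intro b c d _ hc hd h
    obtain ⟨k, p, hp, rfl⟩ := W_fin hc
    obtain ⟨l, q, hq, rfl⟩ := W_fin hd
    have h1 : c1 x + b = ∑ i, c1 (Fin.append p q i) := by
      rw [h, Fin.sum_univ_add]
      simp only [Fin.append_left, Fin.append_right]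
    have h2 : ∀ i, Pj (Fin.append p q i) := by
      intro i
      refine Fin.addCases (fun i => ?_) (fun i => ?_) i
      · rw [Fin.append_left]
        exact hp i
      · rw [Fin.append_right]
        exact hq i
    obtain ⟨u, v, hu, hv, h3, h4, h5⟩ := RefL_fam h0 (k + l) x b _ hx h2 h1
    rw [Fin.sum_univ_add] at h3 h5
    refine ⟨_, _, _, _, RefL_sum_mem fun i => hu (Fin.castAdd l i),
      RefL_sum_mem fun i => hu (Fin.natAdd k i), RefL_sum_mem fun i => hv (Fin.castAdd l i),
      RefL_sum_mem fun i => hv (Fin.natAdd k i), h3, h5, ?_, ?_⟩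
    · rw [← Finset.sum_add_distrib]
      refine Finset.sum_congr rfl fun i _ => ?_
      have := h4 (Fin.castAdd l i)
      rwa [Fin.append_left] at this
    · rw [← Finset.sum_add_distrib]
      refine Finset.sum_congr rfl fun i _ => ?_
      have := h4 (Fin.natAdd k i)
      rwa [Fin.append_right] at this
  | zero =>
    intro b c d _ hc hd h
    rw [zero_add] at h
    exact ⟨0, 0, c, d, zero_mem _, zero_mem _, hc, hd, (add_zero 0).symm, h, (zero_add c).symm,
      (zero_add d).symm⟩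
  | add a a' _ ha' ih ih' =>
    intro b c d hb hc hd h
    rw [add_assoc] at h
    obtain ⟨p, q, r, s, hp, hq, hr, hs, h1, h2, h3, h4⟩ := ih (a' + b) c d (add_mem ha' hb) hc hd h
    obtain ⟨p', q', r', s', hp', hq', hr', hs', h1', h2', h3', h4'⟩ := ih' b r s hb hr hs h2
    refine ⟨p + p', q + q', r', s', add_mem hp hp', add_mem hq hq', hr', hs', ?_, h2', ?_, ?_⟩
    · rw [h1, h1']
      abel
    · rw [h3, h3']
      abel
    · rw [h4, h4']
      abel

theorem refi_W (h0 : RR0 A) : Refi (W A) := by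
  rintro ⟨a, ha⟩ ⟨b, hb⟩ ⟨c, hc⟩ ⟨d, hd⟩ h
  obtain ⟨p, q, r, s, hp, hq, hr, hs, h1, h2, h3, h4⟩ := RefL_refi h0 ha b c d hb hc hd
    (congrArg Subtype.val h)
  exact ⟨⟨p, hp⟩, ⟨q, hq⟩, ⟨r, hr⟩, ⟨s, hs⟩, Subtype.ext h1, Subtype.ext h2, Subtype.ext h3,
    Subtype.ext h4⟩

end Pool.Agent.H.MP_8be301_an.DP
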