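import Pool.Agent.H.MP_8be301_an.DP.VB

/-!
# Columns and the preorder of the monoid  (module Col)

`le_of_col`: `v : Matrix ι Unit A`, `v i () = z i`: `v* v = (p)`, `v v* ≤ diagonal y`, the complement `diagonal y - v v*` is a projection
(`diagonal y * v = v`); `cl_diag`, `cl_orth`. `col_of_le`: `v* v = diag (p, Z)`, `v v* = diagonal y`, `z i = v i (inl ())`.
`le_mul`: the same for the matrix `v i j = r i j` (`Fin m × Fin K`), `∑ = m • c1 p` (`cl_diag` for a constant family).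
`inf_of_le`: `2 • c1 p + z = c1 p`: a row `v` with `v j ∈ A` (`j ∈ Fin 2`), `star (v i) * v j = if i = j then p else 0`, `v j * star (v j) ≤ p`,
`p * v j = v j`; `v = v 0`; if `v 0 * star (v 0) = p` then `v 1 = p * v 1 = v 0 * (star (v 0) * v 1) = 0`, so `p = 0`.
-/

set_option autoImplicit false

namespace Pool.Agent.H.MP_8be301_an.DP

open Matrix Pool.Agent.H.MP_8be301_an.RD

variable {A : Type*} [CStarAlgebra A]

theorem Col_sum_zero {ι : Type*} [Fintype ι] {w : ι → A} (h : ∑ i, star (w i) * w i = 0) (i : ι) :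
    w i = 0 := by
  let _ := CStarAlgebra.spectralOrder A
  have := CStarAlgebra.spectralOrderedRing A
  have h1 := (Finset.sum_eq_zero_iff_of_nonneg
    (fun j _ => star_mul_self_nonneg (w j))).1 h i (Finset.mem_univ i)
  exact (CStarRing.star_mul_self_eq_zero_iff (w i)).1 h1

theorem Col_mat_zero {ι κ : Type*} [Fintype ι] [Fintype κ] {W : Matrix ι κ A}
    (h : Wᴴ * W = 0) : W = 0 := by
  ext i j
  have h1 : ∑ i, star (W i j) * W i j = 0 := by
    have := congrFun (congrFun h j) j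
    simpa [Matrix.mul_apply, Matrix.conjTranspose_apply] using this
  exact Col_sum_zero h1 i

theorem Col_mul {ι κ : Type*} [Fintype ι] [Fintype κ] {v : Matrix ι κ A} {P : Matrix κ κ A}
    (hP : IsP P) (h : vᴴ * v = P) : v * P = v := by
  have h1 : (v * P - v)ᴴ * (v * P - v) = 0 := by
    have e1 : (v * P - v)ᴴ = P * vᴴ - vᴴ := by
      rw [Matrix.conjTranspose_sub, Matrix.conjTranspose_mul, hP.2]
    have a1 : P * vᴴ * (v * P) = P := by
      rw [show P * vᴴ * (v * P) = P * (vᴴ * v) * P by simp only [Matrix.mul_assoc], h, hP.1, hP.1]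
    have a2 : P * vᴴ * v = P := by
      rw [Matrix.mul_assoc, h, hP.1]
    have a3 : vᴴ * (v * P) = P := by
      rw [← Matrix.mul_assoc, h, hP.1]
    rw [e1, Matrix.sub_mul, Matrix.mul_sub, Matrix.mul_sub, a1, a2, a3, h]
    simp
  exact sub_eq_zero.1 (Col_mat_zero h1)

theorem Col_isP {ι κ : Type*} [Fintype ι] [Fintype κ] {v : Matrix ι κ A} {P : Matrix κ κ A}
    (hP : IsP P) (h : vᴴ * v = P) : IsP (v * vᴴ) := by
  refine ⟨?_, ?_⟩
  · rw [show v * vᴴ * (v * vᴴ) = v * (vᴴ * v) * vᴴ by simp only [Matrix.mul_assoc], h,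
      Col_mul hP h]
  · rw [Matrix.conjTranspose_mul, Matrix.conjTranspose_conjTranspose]

/-- subprojections give the preorder -/
theorem Col_le {ι κ : Type*} [Fintype ι] [Fintype κ] {P : Matrix κ κ A} {R : Matrix ι ι A}
    (hP : IsP P) (hR : IsP R) (v : Matrix ι κ A) (h1 : R * v = v) (h2 : vᴴ * v = P) :
    Le (cl P hP) (cl R hR) := by
  have hQ := Col_isP hP h2
  have hRQ : R * (v * vᴴ) = v * vᴴ := by rw [← Matrix.mul_assoc, h1]
  have hQR : v * vᴴ * R = v * vᴴ := by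
    have := congrArg Matrix.conjTranspose hRQ
    rwa [Matrix.conjTranspose_mul, hQ.2, hR.2] at this
  have hS : IsP (R - v * vᴴ) := by
    refine ⟨?_, ?_⟩
    · rw [Matrix.sub_mul, Matrix.mul_sub, Matrix.mul_sub, hR.1, hRQ, hQR, hQ.1]
      simp
    · rw [Matrix.conjTranspose_sub, hR.2, hQ.2]
  have h0 : v * vᴴ * (R - v * vᴴ) = 0 := by
    rw [Matrix.mul_sub, hQR, hQ.1, sub_self]
  have hs : v * vᴴ + (R - v * vᴴ) = R := by abel
  have hs' : IsP (v * vᴴ + (R - v * vᴴ)) := by rw [hs]; exact hR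
  refine ⟨cl (R - v * vᴴ) hS, ?_⟩
  have e1 : cl P hP = cl (v * vᴴ) hQ := (cl_eq hP hQ).2 ⟨v, h2, rfl⟩
  rw [e1, ← cl_orth hQ hS h0 hs']
  exact (cl_eq hs' hR).2 (by rw [hs]; exact MEq.refl hR)

theorem le_of_col {ι : Type*} [Fintype ι] {p : A} (hp : Pj p) {y : ι → A}
    (hy : ∀ i, Pj (y i)) {z : ι → A} (h1 : ∀ i, y i * z i = z i)
    (h2 : ∑ i, star (z i) * z i = p) : Le (c1 p) (∑ i, c1 (y i)) := by
  classical
  rw [c1_eq hp, ← cl_diag hy]
  refine Col_le (IsP_one hp) (IsP_diag hy) (Matrix.of fun i _ => z i) ?_ ?_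
  · ext i j
    rw [Matrix.diagonal_mul]
    exact h1 i
  · ext i j
    simp only [Matrix.mul_apply, Matrix.conjTranspose_apply, Matrix.of_apply]
    exact h2

theorem col_of_le {ι : Type*} [Fintype ι] {p : A} (hp : Pj p) {y : ι → A}
    (hy : ∀ i, Pj (y i)) (h : Le (c1 p) (∑ i, c1 (y i))) : ∃ z : ι → A,
      (∀ i, y i * z i = z i ∧ z i * p = z i) ∧ ∑ i, star (z i) * z i = p := by
  classical
  obtain ⟨Y, hY⟩ := h
  obtain ⟨n, Z, hZ, rfl⟩ := cl_surj Y
  rw [c1_eq hp, ← cl_diag hy, cl_add] at hY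
  obtain ⟨v, hv1, hv2⟩ := (cl_eq _ _).1 hY
  have hvP := Col_mul ((IsP_one hp).blocks hZ) hv1
  have hRv : Matrix.diagonal y * v = v := by
    rw [← hv2, Matrix.mul_assoc, hv1, hvP]
  refine ⟨fun i => v i (Sum.inl ()), fun i => ⟨?_, ?_⟩, ?_⟩
  · have := congrFun (congrFun hRv i) (Sum.inl ())
    rwa [Matrix.diagonal_mul] at this
  · have := congrFun (congrFun hvP i) (Sum.inl ())
    rw [Matrix.mul_apply, Fintype.sum_sum_type] at this
    simpa using this
  · have := congrFun (congrFun hv1 (Sum.inl ())) (Sum.inl ())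
    simpa [Matrix.mul_apply, Matrix.conjTranspose_apply] using this

theorem le_mul {m K : ℕ} {p : A} (hp : Pj p) {r : Fin m → Fin K → A}
    (h1 : ∀ i j, p * r i j = r i j)
    (h2 : ∀ j j', ∑ i, star (r i j) * r i j' = if j = j' then p else 0) :
    Le (K • c1 p) (m • c1 p) := by
  have e : ∀ n : ℕ, n • c1 p = cl (Matrix.diagonal fun _ : Fin n => p) (IsP_diag fun _ => hp) := by
    intro n
    rw [cl_diag fun _ => hp]
    simp
  rw [e K, e m]
  refine Col_le _ _ (Matrix.of r) ?_ ?_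
  · ext i j
    rw [Matrix.diagonal_mul]
    exact h1 i j
  · ext j j'
    simp only [Matrix.mul_apply, Matrix.conjTranspose_apply, Matrix.of_apply, h2,
      Matrix.diagonal_apply]

theorem inf_of_le {p : A} (hp : Pj p) (h0 : p ≠ 0) (h : Le (2 • c1 p) (c1 p)) :
    ∃ v : A, star v * v = p ∧ p * v = v ∧ v * star v ≠ p := by
  have e : (2 : ℕ) • c1 p = cl (Matrix.diagonal fun _ : Fin 2 => p) (IsP_diag fun _ => hp) := by
    rw [cl_diag fun _ => hp]
    simp
  obtain ⟨Y, hY⟩ := h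
  obtain ⟨n, Z, hZ, rfl⟩ := cl_surj Y
  rw [e, c1_eq hp, cl_add] at hY
  obtain ⟨v, hv1, hv2⟩ := (cl_eq _ _).1 hY
  have hP : IsP (Matrix.diagonal fun _ : Fin 2 => p) := IsP_diag fun _ => hp
  have hvP := Col_mul (hP.blocks hZ) hv1
  have hRv : (Matrix.of fun _ _ : Unit => p) * v = v := by
    rw [← hv2, Matrix.mul_assoc, hv1, hvP]
  have hv : ∀ i j : Fin 2, star (v () (Sum.inl i)) * v () (Sum.inl j) = if i = j then p else 0 := by
    intro i j
    have := congrFun (congrFun hv1 (Sum.inl i)) (Sum.inl j)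
    simpa [Matrix.mul_apply, Matrix.conjTranspose_apply, Matrix.diagonal_apply] using this
  have hpv : ∀ j : Fin 2, p * v () (Sum.inl j) = v () (Sum.inl j) := by
    intro j
    have := congrFun (congrFun hRv ()) (Sum.inl j)
    simpa [Matrix.mul_apply] using this
  refine ⟨v () (Sum.inl 0), by simpa using hv 0 0, hpv 0, fun hc => h0 ?_⟩
  have h3 : v () (Sum.inl (1 : Fin 2)) = 0 := by
    rw [← hpv 1, ← hc, mul_assoc, hv 0 1]
    simp
  have h4 := hv 1 1
  rw [h3] at h4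
  simpa using h4.symm

end Pool.Agent.H.MP_8be301_an.DP
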