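import Mathlib

/-!
# One displaced piece  (module Dis)

`M = φ G * star w * star S * y`, `Z = G * r0 + M * r1`. `star M * M = y * (S w φ(G) φ(G) star w star S) * y`, and
`S w φ(G)^2 w* S* = S φ(G)^2 φ(y) S* = S φ(y G)^2 S* = (S φ(y G) S*)^2 = (y G)^2 = y G^2` (`S φ(y G) S* = y G`). `y * M = M` (`φ G` commutes
with `y`, `y * star w = star w` as `w * y = w`). `star (G r0) * (M r1) = star r0 * G * φ G * .. = 0`.
-/

set_option autoImplicit false

namespace Pool.Agent.H.MP_8be301_an.DP

theorem disp {R : Type*} [Ring R] [StarRing R] (φ : R →+* R) {G y w S r0 r1 : R}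
    (hφG : star (φ G) = φ G) (hG : star G = G) (hy : y * y = y) (hys : star y = y)
    (hyG : y * G = G * y) (hww : star w * w = y) (hww' : w * star w = φ y) (hwy : w * y = w)
    (hS : star S * S = 1) (hS' : S * star S = 1) (hSG : star S * (y * G) * S = φ (y * G))
    (hfw : φ G * w = w * φ G) (hfy : φ G * y = y * φ G) (hGf : G * φ G = 0)
    (hr0 : y * r0 = r0) (hr1 : y * r1 = r1) (hGr0 : G * r0 = r0 * G) (hGr1 : G * r1 = r1 * G)
    {p : R} (hp0 : r0 * p = r0) (hp1 : r1 * p = r1) :
    ∃ Z : R, y * Z = Z ∧ Z * p = Z ∧
      star Z * Z = (star r0 * r0 + star r1 * r1) * (G * G) := by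
  have hyw : y * star w = star w := by
    have h := congrArg star hwy
    rwa [star_mul, hys] at h
  obtain ⟨M, hM⟩ : ∃ M, M = φ G * (star w * (star S * y)) := ⟨_, rfl⟩
  have hyM : y * M = M := by
    rw [hM, ← mul_assoc y, ← hfy, mul_assoc (φ G) y, ← mul_assoc y (star w), hyw]
  have hGM : G * M = 0 := by
    rw [hM, ← mul_assoc, hGf, zero_mul]
  have hsM : star M = y * (S * (w * φ G)) := by
    rw [hM]
    simp only [star_mul, star_star, hφG, hys, mul_assoc]
  have hMG : star M * G = 0 := by
    have h := congrArg star hGM
    rwa [star_mul, hG, star_zero] at h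
  -- `S φ(yG) S* = yG`
  have hSφ : S * φ (y * G) * star S = y * G := by
    rw [← hSG]
    calc S * (star S * (y * G) * S) * star S
        = (S * star S) * (y * G) * (S * star S) := by simp only [mul_assoc]
      _ = y * G := by rw [hS', one_mul, mul_one]
  have hsq : φ G * (φ G * φ y) = φ (y * G) * φ (y * G) := by
    rw [← map_mul, ← map_mul, ← map_mul]
    congr 1
    calc G * (G * y) = G * (y * G) := by rw [hyG]
      _ = (G * y) * G := by rw [mul_assoc]
      _ = (y * G) * G := by rw [hyG]
      _ = (y * (y * G)) * G := by rw [← mul_assoc y y, hy]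
      _ = (y * (G * y)) * G := by rw [hyG]
      _ = (y * G) * (y * G) := by simp only [mul_assoc]
  have hMM : star M * M = y * (G * G) := by
    rw [hsM, hM]
    calc y * (S * (w * φ G)) * (φ G * (star w * (star S * y)))
        = y * (S * ((w * φ G) * φ G * star w) * star S) * y := by simp only [mul_assoc]
      _ = y * (S * (φ G * (φ G * φ y)) * star S) * y := by
          rw [← hfw, mul_assoc (φ G) w (φ G), ← hfw, mul_assoc (φ G) (φ G * w) (star w),
            mul_assoc (φ G) w (star w), hww']
      _ = y * (S * φ (y * G) * (star S * S) * φ (y * G) * star S) * y := by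
          rw [hsq, hS, mul_one]
          simp only [mul_assoc]
      _ = y * ((S * φ (y * G) * star S) * (S * φ (y * G) * star S)) * y := by
          simp only [mul_assoc]
      _ = y * ((y * G) * (y * G)) * y := by rw [hSφ]
      _ = y * (G * G) := by
          have h1 : y * G * (y * G) = y * (G * G) := by
            calc y * G * (y * G) = G * (y * y) * G := by
                  rw [hyG]
                  calc G * y * (G * y) = G * (y * G) * y := by simp only [mul_assoc]
                    _ = G * (G * y) * y := by rw [hyG]
                    _ = G * (G * (y * y)) := by simp only [mul_assoc]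
                    _ = G * (y * G) := by rw [hy, hyG]
                    _ = G * (y * y) * G := by rw [hy, mul_assoc]
              _ = (G * y) * G := by rw [hy]
              _ = y * (G * G) := by rw [← hyG, mul_assoc]
          have h2 : (G * G) * y = y * (G * G) := by
            rw [mul_assoc, ← hyG, ← mul_assoc, ← hyG, mul_assoc]
          calc y * (y * G * (y * G)) * y = (y * y) * ((G * G) * y) := by
                rw [h1]
                simp only [mul_assoc]
            _ = y * (y * (G * G)) := by rw [hy, h2]
            _ = y * (G * G) := by rw [← mul_assoc, hy]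
  refine ⟨G * r0 + M * r1, ?_, ?_, ?_⟩
  · rw [mul_add, ← mul_assoc y G, hyG, mul_assoc, hr0, ← mul_assoc y M, hyM]
  · rw [add_mul, mul_assoc, hp0, mul_assoc, hp1]
  · rw [star_add, star_mul, star_mul, hG, add_mul, mul_add, mul_add, add_mul]
    have e1 : star r0 * G * (G * r0) = star r0 * r0 * (G * G) := by
      rw [hGr0, mul_assoc, ← mul_assoc G r0 G, hGr0]
      simp only [mul_assoc]
    have e2 : star r0 * G * (M * r1) = 0 := by
      rw [mul_assoc, ← mul_assoc G M, hGM, zero_mul, mul_zero]
    have e3 : star r1 * star M * (G * r0) = 0 := by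
      rw [mul_assoc, ← mul_assoc (star M) G, hMG, zero_mul, mul_zero]
    have e4 : star r1 * star M * (M * r1) = star r1 * r1 * (G * G) := by
      have h2 : (G * G) * r1 = r1 * (G * G) := by
        rw [mul_assoc, hGr1, ← mul_assoc, hGr1, mul_assoc]
      have h3 : y * (G * G) * r1 = r1 * (G * G) := by
        rw [mul_assoc, h2, ← mul_assoc, hr1]
      rw [mul_assoc, ← mul_assoc (star M) M, hMM, h3, mul_assoc]
    rw [e1, e2, e3, e4, add_zero, zero_add]

end Pool.Agent.H.MP_8be301_an.DP
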