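import Pool.Agent.H.MP_8be301_an.DP.LimW
import Pool.Agent.H.MP_8be301_an.RD.Circ

/-!
# Approximately central eigenunitaries  (module Eig)

`displ_of_eig`: finitely many centres `c l` on the circle such that the balls of radius `r = ‖la - 1‖ / 2` cover it;
`b l z = max 0 (r - ‖z - c l‖)`, `h l = b l / ∑ b`: continuous on the circle, `0 ≤ h l ≤ 1`, `∑ h l = 1` and
`h l z * h l w = 0` if `2 r ≤ ‖z - w‖`, in particular for `w = la * z`.
`g l = cfc (h l) u`, `β = fun _ => β`. `β (cfc (h l) u) = cfc (h l) (β u)`, close to `cfc (h l) (la • u)`, equal to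
`cfc (fun z => h l (la * z)) u`; the uniform estimates are `unif` and `Circ_unif` of RD/Circ.
-/

set_option autoImplicit false

namespace Pool.Agent.H.MP_8be301_an.DP

open Pool.Agent.H.MP_8be301_an.RD

/-- a partition of unity of the circle with small supports -/
theorem Eig_part {r : ℝ} (hr : 0 < r) : ∃ (N : ℕ) (h : Fin N → ℂ → ℂ),
    (∀ l, ContinuousOn (h l) (Metric.sphere 0 1)) ∧ (∀ l z, star (h l z) = h l z) ∧
    (∀ l z, ‖z‖ = 1 → ‖h l z‖ ≤ 1) ∧ (∀ z, ‖z‖ = 1 → ∑ l, h l z = 1) ∧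
    ∀ l z w, 2 * r ≤ ‖z - w‖ → h l z * h l w = 0 := by
  obtain ⟨t, -, htf, htc⟩ := (isCompact_sphere (0 : ℂ) 1).finite_cover_balls hr
  obtain ⟨N, c, hc⟩ : ∃ (N : ℕ) (c : Fin N → ℂ), t ⊆ Set.range c := by
    refine ⟨htf.toFinset.card, fun i => (htf.toFinset.equivFin.symm i : ℂ), ?_⟩
    intro x hx
    refine ⟨htf.toFinset.equivFin ⟨x, htf.mem_toFinset.2 hx⟩, ?_⟩
    simp
  set b : Fin N → ℂ → ℝ := fun l z => max 0 (r - ‖z - c l‖) with hb
  set B : ℂ → ℝ := fun z => ∑ l, b l z with hB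
  have hb0 : ∀ l z, 0 ≤ b l z := fun l z => le_max_left _ _
  have hbB : ∀ l z, b l z ≤ B z := fun l z =>
    Finset.single_le_sum (f := fun l => b l z) (fun l _ => hb0 l z) (Finset.mem_univ l)
  have hBpos : ∀ z : ℂ, ‖z‖ = 1 → 0 < B z := by
    intro z hz
    have hz1 : z ∈ Metric.sphere (0 : ℂ) 1 := by simpa using hz
    obtain ⟨x, hx, hzx⟩ := Set.mem_iUnion₂.1 (htc hz1)
    obtain ⟨l, rfl⟩ := hc hx
    refine lt_of_lt_of_le ?_ (hbB l z)
    rw [Metric.mem_ball, dist_eq_norm] at hzx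
    exact lt_max_of_lt_right (by linarith)
  have hbc : ∀ l, Continuous (b l) := fun l => by
    simp only [hb]
    fun_prop
  have hBc : Continuous B := continuous_finsetSum _ fun l _ => hbc l
  refine ⟨N, fun l z => ((b l z / B z : ℝ) : ℂ), ?_, ?_, ?_, ?_, ?_⟩
  · intro l
    refine Complex.continuous_ofReal.comp_continuousOn ?_
    refine (hbc l).continuousOn.div hBc.continuousOn ?_
    intro z hz
    rw [mem_sphere_zero_iff_norm] at hz
    exact (hBpos z hz).ne'
  · intro l z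
    rw [← starRingEnd_apply, Complex.conj_ofReal]
  · intro l z hz
    rw [Complex.norm_real, Real.norm_eq_abs, abs_of_nonneg (div_nonneg (hb0 l z) (hBpos z hz).le)]
    exact (div_le_one (hBpos z hz)).2 (hbB l z)
  · intro z hz
    rw [← Complex.ofReal_sum, ← Finset.sum_div, div_self (hBpos z hz).ne', Complex.ofReal_one]
  · intro l z w hzw
    have h0 : b l z = 0 ∨ b l w = 0 := by
      by_contra hcon
      rw [not_or] at hcon
      have h1 : 0 < b l z := lt_of_le_of_ne (hb0 l z) (Ne.symm hcon.1)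
      have h2 : 0 < b l w := lt_of_le_of_ne (hb0 l w) (Ne.symm hcon.2)
      have h3 : ‖z - c l‖ < r := by
        rcases lt_max_iff.1 h1 with h | h
        · exact absurd h (lt_irrefl _)
        · linarith
      have h4 : ‖w - c l‖ < r := by
        rcases lt_max_iff.1 h2 with h | h
        · exact absurd h (lt_irrefl _)
        · linarith
      have h5 : ‖z - w‖ ≤ ‖z - c l‖ + ‖w - c l‖ := by
        have : z - w = (z - c l) - (w - c l) := by ring
        rw [this]
        exact norm_sub_le _ _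
      linarith
    show ((b l z / B z : ℝ) : ℂ) * ((b l w / B w : ℝ) : ℂ) = 0
    rcases h0 with h | h
    · rw [h]; simp
    · rw [h]; simp

variable {A : Type*} [CStarAlgebra A]

/-- approximately central unitaries with `β u ≈ la u`, `la ≠ 1` -/
theorem displ_of_eig {β : A ≃⋆ₐ[ℂ] A} (hβ : Triv β) {la : ℂ} (hla : ‖la‖ = 1) (h1 : la ≠ 1)
    (hu : ∀ (F : Finset A) (ε : ℝ), 0 < ε → ∃ u : A, star u * u = 1 ∧ u * star u = 1 ∧
      (∀ a ∈ F, ‖u * a - a * u‖ < ε) ∧ ‖β u - la • u‖ < ε) : Displ A := by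
  have hr : 0 < ‖la - 1‖ / 2 := half_pos (norm_pos_iff.2 (sub_ne_zero.2 h1))
  obtain ⟨N, h, hc, hs, hn, hsum, hz⟩ := Eig_part hr
  refine ⟨N, fun _ => β, fun _ => hβ, ?_⟩
  intro F ε hε
  classical
  set M : ℝ := ∑ a ∈ F, ‖a‖ + 1 with hM
  have hS : 0 ≤ ∑ a ∈ F, ‖a‖ := Finset.sum_nonneg fun _ _ => norm_nonneg _
  have hM0 : 0 < M := by linarith
  have hMa : ∀ a ∈ F, ‖a‖ ≤ M := by
    intro a ha
    have := Finset.single_le_sum (f := fun a : A => ‖a‖) (fun _ _ => norm_nonneg _) ha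
    linarith
  have hδ : ∀ l : Fin N, ∃ δ > 0, (∀ (u v : A), star u * u = 1 → u * star u = 1 →
      star v * v = 1 → v * star v = 1 → ‖u - v‖ < δ → ‖cfc (h l) u - cfc (h l) v‖ < ε) ∧
      ∀ (u a : A), star u * u = 1 → u * star u = 1 → ‖a‖ ≤ M → ‖u * a - a * u‖ < δ →
        ‖cfc (h l) u * a - a * cfc (h l) u‖ < ε := by
    intro l
    obtain ⟨δ1, p1, H1⟩ := unif (hc l) hε
    obtain ⟨δ2, p2, H2⟩ := Circ_unif (hc l) hM0 hε
    refine ⟨min δ1 δ2, lt_min p1 p2, ?_, ?_⟩
    · intro u v a1 a2 a3 a4 h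
      exact H1 A u v a1 a2 a3 a4 (h.trans_le (min_le_left _ _))
    · intro u a a1 a2 ha h
      exact H2 A u u a a1 a2 a1 a2 ha (h.trans_le (min_le_right _ _))
  choose δ hδ0 hδ1 hδ2 using hδ
  obtain ⟨d0, hd0, hdl⟩ : ∃ d0 : ℝ, 0 < d0 ∧ ∀ l, d0 ≤ δ l := by
    refine ⟨∏ l, min 1 (δ l), Finset.prod_pos fun l _ => lt_min one_pos (hδ0 l), fun l => ?_⟩
    rw [← Finset.mul_prod_erase _ _ (Finset.mem_univ l)]
    have e1 : ∏ x ∈ Finset.univ.erase l, min 1 (δ x) ≤ 1 :=
      Finset.prod_le_one (fun x _ => (lt_min one_pos (hδ0 x)).le) fun x _ => min_le_left _ _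
    calc min 1 (δ l) * ∏ x ∈ Finset.univ.erase l, min 1 (δ x) ≤ min 1 (δ l) * 1 :=
          mul_le_mul_of_nonneg_left e1 (lt_min one_pos (hδ0 l)).le
      _ ≤ δ l := by rw [mul_one]; exact min_le_right _ _
  set d : ℝ := d0 / (2 * M + 1) with hd
  have hdp : 0 < d := by positivity
  have hdd : (2 * M + 1) * d = d0 := by
    rw [hd]; field_simp
  have hdle : d ≤ d0 := by
    rw [← hdd]
    nlinarith
  obtain ⟨u, u1, u2, uF, uK⟩ := hu F d hdp
  have hun : IsStarNormal u := ⟨by rw [Commute, SemiconjBy, u1, u2]⟩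
  have hus : spectrum ℂ u ⊆ Metric.sphere 0 1 :=
    spectrum.subset_circle_of_unitary (𝕜 := ℂ) (Circ_mem u1 u2)
  have husn : ∀ z ∈ spectrum ℂ u, ‖z‖ = 1 := fun z hz => by
    have := hus hz
    rwa [mem_sphere_zero_iff_norm] at this
  have hcon : ∀ l, ContinuousOn (h l) (spectrum ℂ u) := fun l => (hc l).mono hus
  have w1 : star (β u) * β u = 1 := by rw [← map_star, ← map_mul, u1, map_one]
  have w2 : β u * star (β u) = 1 := by rw [← map_star, ← map_mul, u2, map_one]
  have hconj : (starRingEnd ℂ) la * la = 1 := by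
    rw [mul_comm, Complex.mul_conj, Complex.normSq_eq_norm_sq, hla]; simp
  have v1 : star (la • u) * (la • u) = 1 := by
    rw [star_smul, smul_mul_smul_comm, u1, ← starRingEnd_apply, hconj, one_smul]
  have v2 : (la • u) * star (la • u) = 1 := by
    rw [star_smul, smul_mul_smul_comm, u2, ← starRingEnd_apply, mul_comm la, hconj, one_smul]
  have him : ∀ l, β (cfc (h l) u) = cfc (h l) (β u) := fun l =>
    StarAlgHomClass.map_cfc (S := ℂ) β (h l) u (hcon l)
      (StarAlgEquiv.isometry β).continuous hun ⟨by rw [Commute, SemiconjBy, w1, w2]⟩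
  have hcont2 : ∀ l, ContinuousOn (h l) ((la • ·) '' (spectrum ℂ u)) := by
    intro l
    apply (hc l).mono
    rintro _ ⟨z, hz, rfl⟩
    rw [mem_sphere_zero_iff_norm]
    simp only [smul_eq_mul]
    rw [norm_mul, hla, husn z hz, one_mul]
  have hcont3 : ∀ l, ContinuousOn (fun z => h l (la • z)) (spectrum ℂ u) := fun l =>
    (hcont2 l).comp (continuous_const_smul la).continuousOn (Set.mapsTo_image _ _)
  have hshift : ∀ l, cfc (h l) (la • u) = cfc (fun z => h l (la • z)) u := fun l =>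
    (cfc_comp_smul la (h l) u (hcont2 l) hun).symm
  have hnorm : ∀ l, ‖cfc (h l) u‖ ≤ 1 := fun l =>
    norm_cfc_le zero_le_one fun z hz => hn l z (husn z hz)
  refine ⟨fun l => cfc (h l) u, ?_, ?_, ?_, ?_⟩
  · intro l
    refine ⟨?_, hnorm _⟩
    rw [IsSelfAdjoint, ← cfc_star]
    congr 1
    funext z
    exact hs l z
  · intro l a ha
    refine ⟨?_, ?_⟩
    · exact hδ2 l u a u1 u2 (hMa a ha) ((uF a ha).trans_le (hdle.trans (hdl l)))
    · show ‖β (cfc (h l) u) * a - a * β (cfc (h l) u)‖ < ε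
      rw [him]
      apply hδ2 l _ a w1 w2 (hMa a ha)
      have e : β u * a - a * β u
          = (β u - la • u) * a + la • (u * a - a * u) + a * (la • u - β u) := by
        rw [sub_mul, mul_sub, smul_sub, smul_mul_assoc, mul_smul_comm]
        abel
      have ha' := hMa a ha
      have q1 : ‖(β u - la • u) * a‖ ≤ d * M :=
        (norm_mul_le _ _).trans (by gcongr)
      have q2 : ‖la • (u * a - a * u)‖ < d := by
        rw [norm_smul, hla, one_mul]
        exact uF a ha
      have q3 : ‖a * (la • u - β u)‖ ≤ M * d := by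
        refine (norm_mul_le _ _).trans ?_
        rw [norm_sub_rev]
        gcongr
      refine lt_of_lt_of_le ?_ (hdl l)
      rw [← hdd, e]
      calc _ ≤ _ := norm_add₃_le
        _ < d * M + d + M * d := by linarith
        _ = (2 * M + 1) * d := by ring
  · intro l
    show ‖cfc (h l) u * β (cfc (h l) u)‖ < ε
    have e1 : cfc (h l) u * cfc (h l) (la • u) = 0 := by
      rw [hshift, ← cfc_mul _ _ _ (hcon l) (hcont3 l), ← cfc_zero ℂ u]
      apply cfc_congr
      intro z hz'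
      show h l z * h l (la • z) = 0
      apply hz l z
      rw [smul_eq_mul]
      have : z - la * z = (1 - la) * z := by ring
      rw [this, norm_mul, husn z hz', mul_one, norm_sub_rev]
      linarith
    have e2 : cfc (h l) u * β (cfc (h l) u)
        = cfc (h l) u * (cfc (h l) (β u) - cfc (h l) (la • u)) := by
      rw [mul_sub, e1, sub_zero, him]
    rw [e2]
    have q : ‖cfc (h l) (β u) - cfc (h l) (la • u)‖ < ε :=
      hδ1 l _ _ w1 w2 v1 v2 (uK.trans_le (hdle.trans (hdl l)))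
    calc _ ≤ ‖cfc (h l) u‖ * ‖cfc (h l) (β u) - cfc (h l) (la • u)‖ := norm_mul_le _ _
      _ ≤ 1 * ‖cfc (h l) (β u) - cfc (h l) (la • u)‖ := by
          gcongr
          exact hnorm l
      _ < ε := by rw [one_mul]; exact q
  · have e1 : ∑ l, cfc (h l) u = 1 := by
      rw [← cfc_sum _ _ _ (fun i _ => hcon i), ← cfc_one ℂ u hun]
      apply cfc_congr
      intro z hz
      have := hsum z (husn z hz)
      simpa [Finset.sum_apply] using this
    rw [e1, sub_self, norm_zero]
    exact hε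

end Pool.Agent.H.MP_8be301_an.DP
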