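import Pool.Agent.H.MP_8be301_an.RD.Lim
import Pool.Agent.H.MP_8be301_an.RD.Sqr
import Pool.Agent.H.MP_8be301_an.RD.Lift

/-!
# Displaced partitions: limit and lift  (module LimW)

`limW`: as `lim` of RD/Lim (choose `g n` for `F` and `ε = 1 / (n + 1)`).
`liftW`: as in RD/Lift. Representatives `E l n` (self-adjoint) of `G l`, `y_i * x_i n * p` of `Z i`; `c n = ∑ i, star (x_i) * x_i + (1 - p)` is
close to `p (∑ E l E l) p + (1 - p) ≥ 1 / (2 N)` for large `n` (`N ∑ G G = 1 + ∑_{i<j} (G i - G j)^2`, or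
`2 N ∑ G G = 2 + ∑_{i,j} (G i - G j)^2`; see the lemmas of RD/Lift, which may be imported); `t` from `invSqrt` for `c n`, it commutes
with `p`; `z i = x_i * t`: `∑ star (z i) * z i = t (c - (1 - p)) t = p` after multiplication with `p` (`x_i * p = x_i`). If `N = 0` then
`1 = 0` in `AI A`, so `A` is trivial (constants are null sequences) and everything is 0.
-/

set_option autoImplicit false

namespace Pool.Agent.H.MP_8be301_an.DP

open Filter Topology Pool.Agent.H.MP_8be301_an.RD

section

variable {A : Type*} [CStarAlgebra A]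

/-- approximately central partitions of unity whose pieces are displaced by `β` -/
def DisF {N : ℕ} (β : Fin N → (A ≃⋆ₐ[ℂ] A)) (F : Finset A) (ε : ℝ) (g : Fin N → A) : Prop :=
  (∀ l, IsSelfAdjoint (g l) ∧ ‖g l‖ ≤ 1) ∧
  (∀ l, ∀ a ∈ F, ‖g l * a - a * g l‖ < ε ∧ ‖β l (g l) * a - a * β l (g l)‖ < ε) ∧
  (∀ l, ‖g l * β l (g l)‖ < ε) ∧ ‖∑ l, g l - 1‖ < ε

variable (A) in
/-- there are approximately central partitions of unity whose pieces are displaced by finitely
many automorphisms that fix the classes of projections -/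
def Displ : Prop := ∃ (N : ℕ) (β : Fin N → (A ≃⋆ₐ[ℂ] A)), (∀ l, Triv (β l)) ∧
  ∀ (F : Finset A) (ε : ℝ), 0 < ε → ∃ g : Fin N → A, DisF β F ε g

/-- equality of classes from estimates -/
private theorem LimW_eq {x y : BS A} (h : ∀ n : ℕ, ‖x n - y n‖ ≤ 1 / ((n : ℝ) + 1)) :
    mk x = mk y := by
  rw [mk_eq]
  refine tendsto_zero_iff_norm_tendsto_zero.2 (squeeze_zero (fun _ => norm_nonneg _) h ?_)
  exact tendsto_one_div_add_atTop_nhds_zero_nat

private theorem LimW_pos (n : ℕ) : (0 : ℝ) < 1 / ((n : ℝ) + 1) := by positivity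

theorem limW {N : ℕ} {β : Fin N → (A ≃⋆ₐ[ℂ] A)}
    (hg : ∀ (F : Finset A) (ε : ℝ), 0 < ε → ∃ g : Fin N → A, DisF β F ε g) (F : Finset A) :
    ∃ G : Fin N → AI A, (∀ l, star (G l) = G l) ∧
      (∀ l, ∀ a ∈ F, G l * cst a = cst a * G l ∧
        ext (β l) (G l) * cst a = cst a * ext (β l) (G l)) ∧
      (∀ l, G l * ext (β l) (G l) = 0) ∧ ∑ l, G l = 1 := by
  choose g hT using fun n : ℕ => hg F (1 / ((n : ℝ) + 1)) (LimW_pos n)
  have hb : ∀ l n, ‖g n l‖ ≤ 1 := fun l n => ((hT n).1 l).2
  refine ⟨fun l => mk (toBS (fun n => g n l) (hb l)), fun l => ?_, fun l a ha => ⟨?_, ?_⟩,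
    fun l => ?_, ?_⟩
  · rw [← mk_star]
    refine congrArg mk ?_
    ext n
    exact ((hT n).1 l).1
  · rw [cst_def, ← map_mul, ← map_mul]
    exact LimW_eq fun n => ((hT n).2.1 l a ha).1.le
  · rw [ext_mk, cst_def, ← map_mul, ← map_mul]
    exact LimW_eq fun n => ((hT n).2.1 l a ha).2.le
  · rw [ext_mk, ← map_mul, ← map_zero RD.mk]
    refine LimW_eq fun n => ?_
    have h := ((hT n).2.2.1 l).le
    rw [← sub_zero (g n l * β l (g n l))] at h
    exact h
  · have e : ∑ l, mk (toBS (fun n => g n l) (hb l)) =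
        mk (∑ l, toBS (fun n => g n l) (hb l)) := (map_sum _ _ _).symm
    show ∑ l, mk (toBS (fun n => g n l) (hb l)) = 1
    rw [e, ← map_one RD.mk]
    refine LimW_eq fun n => ?_
    have h := (hT n).2.2.2.le
    have e2 : (∑ l, toBS (fun n => g n l) (hb l) : BS A) n = ∑ l, g n l := by
      rw [BoundedContinuousFunction.coe_sum, Finset.sum_apply]
      rfl
    rw [e2]
    exact h

end

/-- the statement for fixed elements and explicit tolerances -/
private theorem LimW_fin {A : Type*} [CStarAlgebra A] [PartialOrder A] [StarOrderedRing A]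
    {p P : A} {κ : ℝ} (hp : Pj p) (hκ : 0 < κ) (hκ1 : κ ≤ 1) (hP : algebraMap ℝ A κ ≤ P)
    {I : Type*} [Fintype I] {x : I → A} (hx : ∀ i, x i * p = x i)
    (c1 : ‖∑ i, star (x i) * x i - p * P * p‖ ≤ κ / 2) :
    ∃ t : A, ∑ i, star (x i * t) * (x i * t) = p := by
  obtain ⟨hpp, hps⟩ := hp
  obtain ⟨S, hS⟩ : ∃ S : A, S = ∑ i, star (x i) * x i := ⟨_, rfl⟩
  rw [← hS] at c1
  have hSs : IsSelfAdjoint S := by
    show star S = S
    rw [hS, star_sum]
    exact Finset.sum_congr rfl fun i _ => (IsSelfAdjoint.star_mul_self (x i)).star_eq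
  have hSp : S * p = S := by
    rw [hS, Finset.sum_mul]
    exact Finset.sum_congr rfl fun i _ => by rw [mul_assoc, hx i]
  have hpS : p * S = S := by
    have := congrArg star hSp
    rwa [star_mul, hps, hSs.star_eq] at this
  have hp1 : (0 : A) ≤ 1 - p := by
    have : star (1 - p) * (1 - p) = 1 - p := by
      simp only [star_sub, star_one, hps, mul_sub, sub_mul, hpp, one_mul, mul_one]
      abel
    rw [← this]
    exact star_mul_self_nonneg _
  have hconj : p * algebraMap ℝ A κ * p = κ • p := by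
    rw [Algebra.algebraMap_eq_smul_one, mul_smul_comm, smul_mul_assoc, mul_one, hpp]
  have hlow : κ • p ≤ p * P * p := by
    have := star_left_conjugate_le_conjugate hP p
    rwa [hps, hconj] at this
  have hqP : algebraMap ℝ A κ ≤ p * P * p + (1 - p) := by
    have e1 : algebraMap ℝ A κ = κ • p + κ • (1 - p) := by
      rw [Algebra.algebraMap_eq_smul_one, ← smul_add]
      congr 1
      abel
    rw [e1]
    refine add_le_add hlow ?_
    have : (0 : A) ≤ (1 - κ) • (1 - p) := smul_nonneg (by linarith) hp1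
    rw [sub_smul, one_smul] at this
    exact sub_nonneg.1 this
  have hcs : IsSelfAdjoint (S + (1 - p)) := hSs.add (IsSelfAdjoint.of_nonneg hp1)
  have hcl : ‖S + (1 - p) - (p * P * p + (1 - p))‖ ≤ κ / 2 := by
    rw [add_sub_add_right_eq_sub]
    exact c1
  have hc := lb_close hqP hcs hcl
  have hk : κ - κ / 2 = κ / 2 := by ring
  rw [hk] at hc
  obtain ⟨t, hts, htc, htcomm⟩ := invSqrt (half_pos hκ) hc
  have hqc : p * (S + (1 - p)) = S := by
    rw [mul_add, mul_sub, mul_one, hpp, sub_self, add_zero, hpS]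
  have hcq : (S + (1 - p)) * p = S := by
    rw [add_mul, sub_mul, one_mul, hpp, sub_self, add_zero, hSp]
  have hqt : p * t = t * p := htcomm p (by rw [hqc, hcq])
  refine ⟨t, ?_⟩
  have e1 : ∑ i, star (x i * t) * (x i * t) = t * S * t := by
    rw [hS, Finset.mul_sum, Finset.sum_mul]
    refine Finset.sum_congr rfl fun i _ => ?_
    rw [star_mul, hts.star_eq]
    simp only [mul_assoc]
  rw [e1]
  calc t * S * t = t * (p * (S + (1 - p))) * t := by rw [hqc]
    _ = t * p * (S + (1 - p)) * t := by rw [← mul_assoc t]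
    _ = p * (t * (S + (1 - p)) * t) := by rw [← hqt]; simp only [mul_assoc]
    _ = p := by rw [htc, mul_one]

theorem liftW {A : Type*} [CStarAlgebra A] [PartialOrder A] [StarOrderedRing A] {p : A}
    (hp : Pj p) {N : ℕ} {G : Fin N → AI A} (hG : ∀ l, star (G l) = G l)
    (hGp : ∀ l, G l * cst p = cst p * G l) (hsum : ∑ l, G l = 1) {I : Type*} [Fintype I]
    {y : I → A} (hy : ∀ i, Pj (y i)) {Z : I → AI A} (hZ : ∀ i, cst (y i) * Z i = Z i)
    (hZp : ∀ i, Z i * cst p = Z i)
    (h : ∑ i, star (Z i) * Z i = cst p * ∑ l, G l * G l) :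
    ∃ z : I → A, (∀ i, y i * z i = z i) ∧ ∑ i, star (z i) * z i = p := by
  obtain ⟨hpp, hps⟩ := hp
  rcases subsingleton_or_nontrivial A with hsub | hnt
  · exact ⟨fun _ => 0, fun i => Subsingleton.elim _ _, Subsingleton.elim _ _⟩
  choose E hE hEs using fun l => exists_sa (hG l)
  choose z hz using fun i => mk_surj (Z i)
  -- the approximate unit
  have hS : Tendsto (fun n => ∑ l, E l n) atTop (𝓝 1) := by
    have h1 : mk (∑ l, E l) = mk 1 := by
      rw [map_sum, map_one, ← hsum]
      exact Finset.sum_congr rfl fun l _ => hE l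
    rw [mk_eq] at h1
    have h2 := h1.add_const (1 : A)
    rw [zero_add] at h2
    refine h2.congr fun n => ?_
    rw [BoundedContinuousFunction.coe_one, Pi.one_apply, sub_add_cancel,
      BoundedContinuousFunction.coe_sum, Finset.sum_apply]
  have hd : 0 < N := by
    rcases Nat.eq_zero_or_pos N with rfl | h
    · exfalso
      simp only [Finset.univ_eq_empty, Finset.sum_empty] at hS
      have := tendsto_nhds_unique hS tendsto_const_nhds
      exact one_ne_zero this
    · exact h
  have hdR : (0 : ℝ) < N := by exact_mod_cast hd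
  have hd1 : (1 : ℝ) ≤ N := by exact_mod_cast hd
  -- the products
  have hcomm : cst p * (∑ l, G l * G l) = cst p * (∑ l, G l * G l) * cst p := by
    have e1 : (∑ l, G l * G l) * cst p = cst p * (∑ l, G l * G l) := by
      rw [Finset.sum_mul, Finset.mul_sum]
      refine Finset.sum_congr rfl fun l _ => ?_
      rw [mul_assoc, hGp l, ← mul_assoc, hGp l, mul_assoc]
    rw [mul_assoc, e1, ← mul_assoc, ← map_mul, hpp]
  have hprod : Tendsto (fun n => ∑ i, star (y i * z i n * p) * (y i * z i n * p) -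
      p * (∑ l, E l n * E l n) * p) atTop (𝓝 0) := by
    have hw : ∀ i, mk (BoundedContinuousFunction.const ℕ (y i) * z i *
        BoundedContinuousFunction.const ℕ p) = Z i := by
      intro i
      rw [map_mul, map_mul, hz, ← cst_def, ← cst_def, hZ, hZp]
    have h1 : mk (∑ i, star (BoundedContinuousFunction.const ℕ (y i) * z i *
          BoundedContinuousFunction.const ℕ p) *
        (BoundedContinuousFunction.const ℕ (y i) * z i * BoundedContinuousFunction.const ℕ p)) =
        mk (BoundedContinuousFunction.const ℕ p * (∑ l, E l * E l) *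
          BoundedContinuousFunction.const ℕ p) := by
      rw [map_sum]
      have e1 : ∀ i ∈ (Finset.univ : Finset I),
          mk (star (BoundedContinuousFunction.const ℕ (y i) * z i *
            BoundedContinuousFunction.const ℕ p) *
          (BoundedContinuousFunction.const ℕ (y i) * z i *
            BoundedContinuousFunction.const ℕ p)) = star (Z i) * Z i := by
        intro i _
        rw [map_mul, mk_star, hw]
      rw [Finset.sum_congr rfl e1, h, hcomm, map_mul, map_mul, map_sum, ← cst_def]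
      simp only [map_mul, hE]
    rw [mk_eq] at h1
    refine h1.congr fun n => ?_
    simp [BoundedContinuousFunction.coe_mul, BoundedContinuousFunction.coe_sum]
  obtain ⟨κ, hκdef⟩ : ∃ κ : ℝ, κ = 1 / (2 * N) := ⟨_, rfl⟩
  have hκ : 0 < κ := by rw [hκdef]; positivity
  have hκd : (N : ℝ) * κ = 1 / 2 := by rw [hκdef]; field_simp
  have hκ1 : κ ≤ 1 := by nlinarith
  -- the estimates hold for large `n`
  have ev : ∀ᶠ n in atTop, ‖∑ i, star (y i * z i n * p) * (y i * z i n * p) -
      p * (∑ l, E l n * E l n) * p‖ ≤ κ / 2 := by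
    have h1 := tendsto_zero_iff_norm_tendsto_zero.1 hprod
    exact (h1.eventually (gt_mem_nhds (half_pos hκ))).mono fun n hn => le_of_lt hn
  have hSS : ∀ᶠ n in atTop, ‖(∑ l, E l n) * (∑ l, E l n) - 1‖ ≤ 1 / 2 := by
    have h1 : Tendsto (fun n => (∑ l, E l n) * (∑ l, E l n) - 1) atTop (𝓝 (1 * 1 - 1)) :=
      (hS.mul hS).sub_const 1
    rw [mul_one, sub_self] at h1
    have h2 := tendsto_zero_iff_norm_tendsto_zero.1 h1
    exact (h2.eventually (gt_mem_nhds (by norm_num : (0 : ℝ) < 1 / 2))).mono fun n hn => le_of_lt hn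
  obtain ⟨n, hn1, hn4⟩ := (ev.and hSS).exists
  have hP : algebraMap ℝ A κ ≤ ∑ l, E l n * E l n := by
    have hss : IsSelfAdjoint ((∑ l, E l n) * (∑ l, E l n)) := by
      have h1 : star (∑ l, E l n) = ∑ l, E l n := by
        rw [star_sum]
        exact Finset.sum_congr rfl fun l _ => (hEs l n).star_eq
      show star _ = _
      rw [star_mul, h1]
    have h2 : algebraMap ℝ A 1 ≤ 1 := by rw [map_one]
    have h3 := lb_close h2 hss hn4
    have h4 := h3.trans (Lift_sq fun l => hEs l n)
    have h5 : (0 : A) ≤ (N : ℝ)⁻¹ • ((N : ℝ) • (∑ l, E l n * E l n) - algebraMap ℝ A (1 - 1 / 2)) :=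
      smul_nonneg (inv_nonneg.2 hdR.le) (sub_nonneg.2 h4)
    rw [smul_sub, smul_smul, inv_mul_cancel₀ hdR.ne', one_smul, Algebra.algebraMap_eq_smul_one, smul_smul] at h5
    have h6 : (N : ℝ)⁻¹ * (1 - 1 / 2) = κ := by
      rw [hκdef]
      field_simp
      norm_num
    rw [h6, ← Algebra.algebraMap_eq_smul_one] at h5
    exact sub_nonneg.1 h5
  obtain ⟨t, ht⟩ := LimW_fin ⟨hpp, hps⟩ hκ hκ1 hP (x := fun i => y i * z i n * p)
    (fun i => by rw [mul_assoc, hpp]) hn1
  refine ⟨fun i => y i * z i n * p * t, fun i => ?_, ht⟩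
  rw [← mul_assoc, ← mul_assoc, ← mul_assoc, (hy i).1]

end Pool.Agent.H.MP_8be301_an.DP
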