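import Pool.Agent.H.MP_8be301_an.DP.Dis
import Pool.Agent.H.MP_8be301_an.DP.LimW

/-!
# Property (P)  (module PP)

`w i` with `star (w i) * w i = y i`, `w i * star (w i) = β (c i) (y i)` (`Triv`). `F` = all `y i`, `w i`, `r b i`, `p` (finite). `G` from `limW`.
`S i` from `limU` for `b = cst (y i) * G (c i)` (self-adjoint) and `β (c i)`. `disp` for `φ = ext (β (c i))`, `G (c i)`, `cst (y i)`,
`cst (w i)`, `S i`, `cst (r false i)`, `cst (r true i)` gives `Z i`. `∑ i, star (Z i) * Z i = ∑ j, (∑_{c i = j} ..) * (G j * G j) =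
∑ j, cst p * (G j * G j)` (`Finset.sum_fiberwise`). Then `liftW`.
-/

set_option autoImplicit false

namespace Pool.Agent.H.MP_8be301_an.DP

open Pool.Agent.H.MP_8be301_an.RD

/-- the sum over the fibres of the colouring -/
theorem PP_sum {A : Type*} [CStarAlgebra A] {N : ℕ} {p : A} {I : Type*} [Fintype I]
    (c : I → Fin N) {r : Bool → I → A}
    (hrr : ∀ j, ∑ i with c i = j, (star (r false i) * r false i + star (r true i) * r true i) =
      p) (G : Fin N → AI A) {Z : I → AI A}
    (hZ : ∀ i, star (Z i) * Z i = (star (cst (r false i)) * cst (r false i) +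
      star (cst (r true i)) * cst (r true i)) * (G (c i) * G (c i))) :
    ∑ i, star (Z i) * Z i = cst p * ∑ l, G l * G l := by
  classical
  rw [← Finset.sum_fiberwise Finset.univ c, Finset.mul_sum]
  refine Finset.sum_congr rfl fun j _ => ?_
  rw [← hrr j, map_sum, Finset.sum_mul]
  refine Finset.sum_congr rfl fun i hi => ?_
  rw [hZ i, (Finset.mem_filter.1 hi).2, map_add, map_mul, map_mul, cst_star, cst_star]

theorem propP {A : Type*} [CStarAlgebra A] [PartialOrder A] [StarOrderedRing A] (h0 : RR0 A)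
    {N : ℕ} {β : Fin N → (A ≃⋆ₐ[ℂ] A)} (hβ : ∀ l, Triv (β l))
    (hg : ∀ (F : Finset A) (ε : ℝ), 0 < ε → ∃ g : Fin N → A, DisF β F ε g) {p : A}
    (hp : Pj p) {I : Type*} [Fintype I] (c : I → Fin N) {y : I → A} (hy : ∀ i, Pj (y i))
    {r : Bool → I → A} (hr : ∀ b i, y i * r b i = r b i ∧ r b i * p = r b i)
    (hrr : ∀ j, ∑ i with c i = j, (star (r false i) * r false i + star (r true i) * r true i) =
      p) :
    ∃ z : I → A, (∀ i, y i * z i = z i) ∧ ∑ i, star (z i) * z i = p := by
  classical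
  choose w hw1 hw2 using fun i => hβ (c i) (y i) (hy i)
  obtain ⟨F, hF⟩ : ∃ F : Finset A, p ∈ F ∧ (∀ i, y i ∈ F) ∧ (∀ i, w i ∈ F) ∧
      ∀ b i, r b i ∈ F := by
    refine ⟨{p} ∪ Finset.univ.image y ∪ Finset.univ.image w ∪
      Finset.univ.image (fun x : Bool × I => r x.1 x.2), ?_, fun i => ?_, fun i => ?_,
      fun b i => ?_⟩
    · simp
    · have := Finset.mem_image_of_mem y (Finset.mem_univ i)
      simp only [Finset.mem_union]
      tauto
    · have := Finset.mem_image_of_mem w (Finset.mem_univ i)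
      simp only [Finset.mem_union]
      tauto
    · have := Finset.mem_image_of_mem (fun x : Bool × I => r x.1 x.2)
        (Finset.mem_univ ((b, i) : Bool × I))
      simp only [Finset.mem_union]
      tauto
  obtain ⟨hFp, hFy, hFw, hFr⟩ := hF
  obtain ⟨G, hG, hGF, hGG, hsum⟩ := limW hg F
  have hyG : ∀ i, cst (y i) * G (c i) = G (c i) * cst (y i) := fun i =>
    ((hGF (c i) (y i) (hFy i)).1).symm
  have hys : ∀ i, star (cst (y i)) = cst (y i) := fun i => by
    rw [← cst_star, (hy i).2]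
  have hS : ∀ i, ∃ S : AI A, star S * S = 1 ∧ S * star S = 1 ∧
      star S * (cst (y i) * G (c i)) * S = ext (β (c i)) (cst (y i) * G (c i)) := fun i =>
    limU h0 (hβ (c i)) (by rw [star_mul, hG, hys, hyG])
  choose S hS1 hS2 hS3 using hS
  have hZ : ∀ i, ∃ Z : AI A, cst (y i) * Z = Z ∧ Z * cst p = Z ∧
      star Z * Z = (star (cst (r false i)) * cst (r false i) +
        star (cst (r true i)) * cst (r true i)) * (G (c i) * G (c i)) := fun i =>
    disp (ext (β (c i))) (G := G (c i)) (y := cst (y i)) (w := cst (w i)) (S := S i)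
      (r0 := cst (r false i)) (r1 := cst (r true i)) (p := cst p)
      (by rw [← ext_star, hG]) (hG _) (by rw [← map_mul, (hy i).1]) (hys i) (hyG i)
      (by rw [← cst_star, ← map_mul, hw1]) (by rw [← cst_star, ← map_mul, hw2, ext_cst])
      (by rw [← map_mul, pi_right (hy i) (hw1 i)]) (hS1 i) (hS2 i) (hS3 i)
      (hGF (c i) (w i) (hFw i)).2 (hGF (c i) (y i) (hFy i)).2 (hGG (c i))
      (by rw [← map_mul, (hr false i).1]) (by rw [← map_mul, (hr true i).1])
      (hGF (c i) _ (hFr false i)).1 (hGF (c i) _ (hFr true i)).1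
      (by rw [← map_mul, (hr false i).2]) (by rw [← map_mul, (hr true i).2])
  choose Z hZ1 hZ2 hZ3 using hZ
  exact liftW hp hG (fun l => (hGF l p hFp).1) hsum hy hZ1 hZ2 (PP_sum c hrr G hZ3)

end Pool.Agent.H.MP_8be301_an.DP
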