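import Pool.Agent.H.MP_8be301_an.DP.RefL
import Pool.Agent.H.MP_8be301_an.DP.Col
import Pool.Agent.H.MP_8be301_an.DP.PP
import Pool.Agent.H.MP_8be301_an.RD.Cop
import Pool.Agent.H.MP_8be301_an.RD.Hp
import Pool.Agent.H.MP_8be301_an.RD.Uni

/-!
# The dichotomy for displaced partitions  (module FinW)
-/

set_option autoImplicit false

namespace Pool.Agent.H.MP_8be301_an.DP

open Finset Pool.Agent.H.MP_8be301_an.RD

theorem W_le {A : Type*} [CStarAlgebra A] (h0 : RR0 A) {x y : W A}
    (h : Le (x : VA A) (y : VA A)) : Le x y := by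
  obtain ⟨z, hz⟩ := h
  have hz' : z ∈ W A := W_sub h0 x.2 (by rw [hz]; exact y.2)
  exact ⟨⟨z, hz'⟩, Subtype.ext hz⟩

theorem infiniteW {A : Type*} [CStarAlgebra A] [PartialOrder A] [StarOrderedRing A]
    (hs : Simp A) (h0 : RR0 A) (hD : Displ A) (hi : Inf A) {q : A} (hq : Pj q) (hq0 : q ≠ 0) :
    ∃ v : A, star v * v = q ∧ q * v = v ∧ v * star v ≠ q := by
  classical
  obtain ⟨N, β, hβ, hg⟩ := hD
  obtain ⟨m, r, hr, hrr⟩ := copies hs hi hq hq0
  set x : W A := ⟨c1 q, c1_mem hq⟩ with hx
  have hK : ∀ K : ℕ, Le (K • x) (m • x) := by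
    intro K
    apply W_le h0
    have h1 := le_mul (m := m) (K := K) hq (r := fun i j => r i j) (fun i j => (hr i j).1)
      (fun j j' => by
        rw [hrr]
        simp only [Fin.ext_iff])
    simpa [hx] using h1
  have hP : ∀ s : Fin N → W A, (∀ j, Le x (2 • s j)) → Le x (∑ j, s j) := by
    intro s hsj
    choose k y hy hys using fun j => W_fin (s j).2
    have hcol : ∀ j, ∃ z : Bool × Fin (k j) → A,
        (∀ i, y j i.2 * z i = z i ∧ z i * q = z i) ∧ ∑ i, star (z i) * z i = q := by
      intro j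
      obtain ⟨z, hz⟩ := hsj j
      refine col_of_le hq (ι := Bool × Fin (k j)) (fun i => hy j i.2) ⟨(z : VA A), ?_⟩
      have h1 : c1 q + (z : VA A) = 2 • (s j : VA A) := by
        have := congrArg Subtype.val hz
        simpa [hx] using this
      rw [h1, hys j, Fintype.sum_prod_type, Fintype.sum_bool, two_nsmul]
    choose z hz hz2 using hcol
    obtain ⟨t, ht1, ht2⟩ := propP h0 hβ hg hq (I := Σ j, Fin (k j)) (fun i => i.1)
      (y := fun i => y i.1 i.2) (fun i => hy i.1 i.2)
      (r := fun b i => z i.1 (b, i.2)) (fun b i => hz i.1 (b, i.2)) (fun j => by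
        rw [← hz2 j, Fintype.sum_prod_type, Fintype.sum_bool, ← sum_add_distrib]
        rw [show (univ.filter fun i : Σ j, Fin (k j) => i.1 = j) =
          univ.map ⟨fun i : Fin (k j) => (⟨j, i⟩ : Σ j, Fin (k j)), fun a b h => by
            simpa using h⟩ from ?_, sum_map]
        · refine sum_congr rfl fun i _ => ?_
          show star (z j (false, i)) * z j (false, i) + star (z j (true, i)) * z j (true, i) = _
          rw [add_comm]
        · ext ⟨j', i'⟩
          simp only [mem_filter, mem_univ, true_and, mem_map, Function.Embedding.coeFn_mk]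
          constructor
          · rintro rfl
            exact ⟨i', rfl⟩
          · rintro ⟨a, ha⟩
            exact (congrArg Sigma.fst ha).symm)
    apply W_le h0
    have h1 := le_of_col hq (ι := Σ j, Fin (k j)) (y := fun i => y i.1 i.2)
      (fun i => hy i.1 i.2) ht1 ht2
    rw [Fintype.sum_sigma] at h1
    have h2 : ((∑ j, s j : W A) : VA A) = ∑ j, ∑ i, c1 (y j i) := by
      rw [AddSubmonoid.coe_finsetSum]
      exact sum_congr rfl fun j _ => hys j
    rw [h2]
    exact h1
  have h2 := mon (refi_W h0) (p := x) ⟨m, hK⟩ hP 2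
  refine inf_of_le hq hq0 ?_
  obtain ⟨z, hz⟩ := h2
  refine ⟨(z : VA A), ?_⟩
  have := congrArg Subtype.val hz
  simpa [hx] using this

/-- **The dichotomy.** -/
theorem dichW {A : Type*} [CStarAlgebra A] (hs : Simp A) (h0 : RR0 A) (hD : Displ A) :
    (∀ (n : ℕ) (v : Matrix (Fin n) (Fin n) (Unitization ℂ A)),
        star v * v = 1 → v * star v = 1) ∨
      (∀ a : A, a ≠ 0 → (∃ y : A, a = star y * y) →
        ∃ p ∈ closure {x : A | ∃ z : A, x = a * z * a},
          p * p = p ∧ star p = p ∧
          ∃ v : A, star v * v = p ∧ v * star v * p = v * star v ∧ v * star v ≠ p) := by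
  let _ := CStarAlgebra.spectralOrder A
  have := CStarAlgebra.spectralOrderedRing A
  by_cases hi : Inf A
  · right
    rintro a ha ⟨y, hy⟩
    have hsa : IsSelfAdjoint a := by
      rw [hy]
      exact IsSelfAdjoint.star_mul_self y
    obtain ⟨z, hz, hz0⟩ := hp2 h0 ha hsa
    obtain ⟨v, hv1, hv2, hv3⟩ := infiniteW hs h0 hD hi hz hz0
    refine ⟨a * z * a, subset_closure ⟨z, rfl⟩, hz.1, hz.2, v, hv1, ?_, hv3⟩
    have h1 := congrArg star hv2
    rw [star_mul, hz.2] at h1
    rw [mul_assoc, h1]
  · left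
    intro n v h
    by_contra h'
    exact hi (inf_of_unitization h h')

end Pool.Agent.H.MP_8be301_an.DP
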