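import Mathlib

/-!
# Refinement monoids  (module Mon)

`canc`: refine `a + c = b + c`: `a = d + a₁`, `c = b₁ + c₁`, `b = d + b₁`, `c = a₁ + c₁`. Refine `b₁ + c₁ = a₁ + c₁`: `b₁ = x + y`,
`c₁ = z + w`, `a₁ = x + z`, `c₁ = y + w`. Take `d + x`, `z`, `y`, `x + c₁`.
`splitting`: `2 u = 2 v + h`, `v = 3 u`. Refine `u + u = v + (v + h)` etc. to get `u = p + q + h₁ = r + w + h₂`, `v = p + r = q + w`,
`h = h₁ + h₂`; refine `p + q + h₁ = r + w + h₂`: `p = α + β + x₁`, `q = γ + δ + x₂`, `h₁ = y₁ + y₂ + z`, `r = α + γ + y₁`,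
`w = β + δ + y₂`, `h₂ = x₁ + x₂ + z`. Put `θ = β + γ`, `α' = α + x₁ + y₁`, `δ' = δ + x₂ + y₂ + z`: `u = α' + θ + δ'`,
`2 α' + θ = v + k`, `v ≤ 2 δ' + θ`. With `u = θ + u₀`: `2 α' + θ = (2 u + u₀ + k) + θ`; `canc` with `c = θ`:
`2 α' = d + a'`, `2 u + u₀ + k = d + b'`, `θ = c' + a' = c' + b'`, `b' ≤ c'`. `s = α' + b'`, `t = δ' + c'`: `2 s ≥ d + b' ≥ 2 u`,
`2 t ≥ 2 δ' + c' + b' = 2 δ' + θ ≥ v ≥ 2 u`.
`mon`: let `j₀` be minimal with `K p ≤ j₀ p` for all `K`. If `j₀ ≥ 2` put `x = (j₀ - 1) p`: `K x ≤ 2 x` for all `K` (`2 (j₀ - 1) ≥ j₀`).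
By induction `splitting` gives for every `L` elements `s₁, .., s_L` with `s₁ + .. + s_L ≤ x` and `p ≤ 2 s_i` (split off one
element, the rest `t` satisfies `K x ≤ 2 t`). With `L = N K`, grouped in `K` blocks (`finProdFinEquiv`): `K p ≤ x`, a
contradiction. If `j₀ = 0` then `K p ≤ 0 ≤ p`.
-/

set_option autoImplicit false

namespace Pool.Agent.H.MP_8be301_an.DP

/-- the refinement property -/
def Refi (M : Type*) [AddCommMonoid M] : Prop := ∀ a b c d : M, a + b = c + d →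
  ∃ p q r s : M, a = p + q ∧ b = r + s ∧ c = p + r ∧ d = q + s

/-- the algebraic preorder -/
def Le {M : Type*} [AddCommMonoid M] (x y : M) : Prop := ∃ z, x + z = y

variable {M : Type*} [AddCommMonoid M]

theorem Le.refl (x : M) : Le x x := ⟨0, add_zero x⟩

theorem Le.trans {x y z : M} (h : Le x y) (h' : Le y z) : Le x z := by
  obtain ⟨a, rfl⟩ := h
  obtain ⟨b, rfl⟩ := h'
  exact ⟨a + b, by rw [add_assoc]⟩

theorem Le.add {x y z w : M} (h : Le x y) (h' : Le z w) : Le (x + z) (y + w) := by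
  obtain ⟨a, rfl⟩ := h
  obtain ⟨b, rfl⟩ := h'
  exact ⟨a + b, by abel⟩

theorem Mon_zero (x : M) : Le 0 x := ⟨x, zero_add x⟩

theorem Mon_nsmul {x y : M} (h : Le x y) (K : ℕ) : Le (K • x) (K • y) := by
  obtain ⟨a, rfl⟩ := h
  exact ⟨K • a, by rw [nsmul_add]⟩

theorem Mon_nsmul_le (x : M) {K L : ℕ} (h : K ≤ L) : Le (K • x) (L • x) := by
  obtain ⟨k, rfl⟩ := Nat.exists_eq_add_of_le h
  exact ⟨k • x, by rw [add_nsmul]⟩

theorem canc (hM : Refi M) {a b c : M} (h : a + c = b + c) : ∃ d a' b' c' : M,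
    a = d + a' ∧ b = d + b' ∧ c = c' + a' ∧ c = c' + b' ∧ Le b' c' := by
  obtain ⟨d, a₁, b₁, c₁, h1, h2, h3, h4⟩ := hM _ _ _ _ h
  obtain ⟨x, y, z, w, h5, h6, h7, h8⟩ := hM b₁ c₁ a₁ c₁ (by rw [← h2, ← h4])
  refine ⟨d + x, z, y, x + c₁, ?_, ?_, ?_, ?_, ⟨x + w, ?_⟩⟩
  · rw [h1, h7]
    abel
  · rw [h3, h5]
    abel
  · rw [h4, h7]
    abel
  · rw [h2, h5]
    abel
  · rw [h8]
    abel

/-- the refinement of the decomposition `u + u = 3 u + (3 u + e)` -/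
theorem Mon_dec (hM : Refi M) {u e : M} (he : 6 • u + e = 2 • u) :
    ∃ θ α δ k : M, u = α + θ + δ ∧ 2 • α + θ = 3 • u + k ∧ Le (3 • u) (2 • δ + θ) := by
  have e0 : u + u = 3 • u + (3 • u + e) := by
    rw [← two_nsmul, ← he]
    abel
  obtain ⟨p, q', r, s', hu1, hu2, hv1, hvh⟩ := hM _ _ _ _ e0
  obtain ⟨q, h₁, w, h₂, hq', hs', hv2, -⟩ := hM q' s' (3 • u) e hvh.symm
  have e1 : p + (q + h₁) = r + (w + h₂) := by
    rw [← hq', ← hs', ← hu1, ← hu2]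
  obtain ⟨α, p', y, e2, hp, hqh, hr, hwh⟩ := hM _ _ _ _ e1
  obtain ⟨w1, w2, h21, h22, hw, -, hp', he2⟩ := hM w h₂ p' e2 hwh
  obtain ⟨q1, q2, h11, h12, hq, hh1, hy, he2'⟩ := hM q h₁ y e2 hqh
  obtain ⟨a1, a2, b1, b2, hw2, -, hq2, hh12⟩ := hM w2 h22 q2 h12 (by rw [← he2, ← he2'])
  refine ⟨w1 + q1, α + h21 + h11, a1 + b1 + a2 + b2, h21 + h11, ?_, ?_, ⟨b1 + a2 + 2 • b2, ?_⟩⟩
  · calc u = p + q' := hu1
      _ = α + h21 + h11 + (w1 + q1) + (a1 + b1 + a2 + b2) := by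
          rw [hq', hp, hp', hq, hq2, hh1, hh12]
          abel
  · rw [hv1, hp, hp', hr, hy]
    abel
  · rw [hv2, hq, hq2, hw, hw2]
    abel

theorem splitting (hM : Refi M) {u : M} (h : ∀ K : ℕ, Le (K • u) (2 • u)) :
    ∃ s t : M, u = s + t ∧ (∀ K : ℕ, Le (K • u) (2 • s)) ∧ ∀ K : ℕ, Le (K • u) (2 • t) := by
  obtain ⟨e, he⟩ := h 6
  obtain ⟨θ, α, δ, k, hU, hk, hl⟩ := Mon_dec hM he
  have e1 : 2 • α + θ = (2 • u + (α + δ) + k) + θ := by
    rw [hk]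
    have e2 : 3 • u = 2 • u + (α + θ + δ) := by
      rw [← hU]
      abel
    rw [e2]
    abel
  obtain ⟨d, a', b', c', h1, h2, h3, h4, h5⟩ := canc hM e1
  refine ⟨α + b', δ + c', ?_, fun K => ?_, fun K => ?_⟩
  · calc u = α + θ + δ := hU
      _ = α + b' + (δ + c') := by
          rw [h4]
          abel
  · refine (h K).trans ⟨(α + δ) + k + (a' + b'), ?_⟩
    calc 2 • u + ((α + δ) + k + (a' + b')) = (2 • u + (α + δ) + k) + (a' + b') := by abel
      _ = (d + a') + 2 • b' := by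
          rw [h2]
          abel
      _ = 2 • (α + b') := by
          rw [← h1, nsmul_add]
  · have h6 : Le (2 • δ + θ) (2 • (δ + c')) := by
      obtain ⟨z, hz⟩ := h5
      refine ⟨z, ?_⟩
      calc 2 • δ + θ + z = 2 • δ + c' + (b' + z) := by
            rw [h4]
            abel
        _ = 2 • (δ + c') := by
            rw [hz]
            abel
    exact (h K).trans ((Mon_nsmul_le u (by norm_num)).trans (hl.trans h6))

/-- splitting off elements -/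
theorem Mon_split (hM : Refi M) {p : M} (L : ℕ) : ∀ u : M, (∀ K : ℕ, Le (K • u) (2 • u)) →
    Le p (2 • u) → ∃ (s : Fin L → M) (t : M), ((∀ K : ℕ, Le (K • t) (2 • t)) ∧ Le p (2 • t)) ∧
      Le (∑ j, s j + t) u ∧ ∀ j, Le p (2 • s j) := by
  induction L with
  | zero =>
    intro u hu hp
    refine ⟨fun j => j.elim0, u, ⟨hu, hp⟩, ?_, fun j => j.elim0⟩
    rw [Finset.univ_eq_empty, Finset.sum_empty, zero_add]
    exact Le.refl u
  | succ L ih =>
    intro u hu hp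
    obtain ⟨s, t, hst, hs, ht⟩ := splitting hM hu
    have htu : Le t u := ⟨s, by rw [hst, add_comm]⟩
    obtain ⟨s', t', ⟨h1, h2⟩, h3, h4⟩ := ih t (fun K => (Mon_nsmul htu K).trans (ht K))
      (hp.trans (ht 2))
    refine ⟨Fin.cons s s', t', ⟨h1, h2⟩, ?_, ?_⟩
    · rw [Fin.sum_univ_succ, Fin.cons_zero]
      simp only [Fin.cons_succ]
      rw [add_assoc, hst]
      exact (Le.refl s).add h3
    · intro j
      refine Fin.cases ?_ (fun i => ?_) j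
      · rw [Fin.cons_zero]
        exact hp.trans (hs 2)
      · rw [Fin.cons_succ]
        exact h4 i

theorem mon (hM : Refi M) {p : M} {N : ℕ} (h : ∃ m : ℕ, ∀ K : ℕ, Le (K • p) (m • p))
    (hP : ∀ s : Fin N → M, (∀ j, Le p (2 • s j)) → Le p (∑ j, s j)) (K : ℕ) :
    Le (K • p) p := by
  classical
  have key : ∀ K : ℕ, ∀ u : M, (∀ K : ℕ, Le (K • u) (2 • u)) → Le p (2 • u) → Le (K • p) u := by
    intro K
    induction K with
    | zero =>
      intro u _ _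
      rw [zero_nsmul]
      exact Mon_zero u
    | succ K ih =>
      intro u hu hp
      obtain ⟨s, t, ⟨h1, h2⟩, h3, h4⟩ := Mon_split hM N u hu hp
      rw [succ_nsmul']
      exact ((hP s h4).add (ih t h1 h2)).trans h3
  obtain ⟨j, hj, hmin⟩ : ∃ j : ℕ, (∀ K : ℕ, Le (K • p) (j • p)) ∧
      ∀ i < j, ¬ ∀ K : ℕ, Le (K • p) (i • p) :=
    ⟨Nat.find h, Nat.find_spec h, fun i hi => Nat.find_min h hi⟩
  rcases Nat.lt_or_ge j 2 with h2 | h2
  · have h3 : Le (j • p) p := by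
      have h4 := Mon_nsmul_le p (by omega : j ≤ 1)
      rwa [one_nsmul] at h4
    exact (hj K).trans h3
  · exfalso
    refine hmin (j - 1) (by omega) fun K => ?_
    refine key K ((j - 1) • p) (fun K => ?_) ?_
    · rw [← mul_nsmul, ← mul_nsmul]
      exact (hj _).trans (Mon_nsmul_le p (by omega))
    · rw [← mul_nsmul]
      have h4 := Mon_nsmul_le p (by omega : 1 ≤ (j - 1) * 2)
      rwa [one_nsmul] at h4

end Pool.Agent.H.MP_8be301_an.DP
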