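import Pool.Agent.H.MP_8be301_an.RD.Hp

/-!
# Thresholds in corners  (module Thr)

`inv_dense`: `y` of finite spectrum close to `x` (`finSpec`: `y = ∑ x • r x`, `∑ r x = 1`); replace the coefficient 0 by `ε / 4`;
the inverse is `∑ c x ⁻¹ • r x`.
`inv_corner`: `X = x + (1 - q)`, `Y` invertible self-adjoint with `‖X - Y‖ < η`, `η` small (`η < 1/2` and `η + 2 η^2 < ε`).
`k = (1 - q) * Y * (1 - q) + q`, `‖k - 1‖ ≤ η`, so `k` is a unit (`Units.oneSub` or `isUnit_one_sub_of_norm_lt_one`), `‖k⁻¹‖ ≤ 2`,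
`k` and `k⁻¹` commute with `q` and are self-adjoint. `x' = q Y q - q Y (1 - q) k⁻¹ (1 - q) Y q`; `q Y (1 - q) = q (Y - X) (1 - q)` has norm
`≤ η`. `Y = L (x' + (1 - q) Y (1 - q)) L*` with `L = 1 + q Y (1 - q) k⁻¹ (1 - q)`, a unit (`L = 1 + n`, `n * n = 0`), so `x' + (1 - q) Y (1 - q)`
is a unit, and `x' + (1 - q) = (x' + (1 - q) Y (1 - q)) (q + (1 - q) k⁻¹ (1 - q))`.
`thr`: `q a = a = a q` (as `0 ≤ a ≤ q`). `inv_corner` for `a - (1/2) q` and `ε = 1/4`: `x'`; `a' = x' + (1/2) q`, `‖a - a'‖ < 1/4`. `1/2` is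
not in the spectrum of `a'`: `a' - 1/2 = x' - (1/2) (1 - q) = (x' + (1 - q)) (q - (1/2) (1 - q))`, a product of units. `f x = if 1/2 < x
then 1 else 0` is continuous on the spectrum, `e = cfc f a'`. `e = a' * cfc (f x / x) a'`, so `q e = e`. `e a' e ≥ (1/2) e` and
`(q - e) a' (q - e) ≤ (1/2) (q - e)` (`q - e = q (1 - e)`, cfc inequalities for commuting functions, conjugated by `q`), and
`-(1/4) e ≤ e (a - a') e ≤ (1/4) e` etc.
-/

set_option autoImplicit false

namespace Pool.Agent.H.MP_8be301_an.DP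

open Pool.Agent.H.MP_8be301_an.RD

variable {A : Type*} [CStarAlgebra A] [PartialOrder A] [StarOrderedRing A]

omit [PartialOrder A] [StarOrderedRing A] in
theorem Thr_norm {p : A} (hp : Pj p) : ‖p‖ ≤ 1 := by
  have h : ‖p‖ * ‖p‖ = ‖p‖ := by
    rw [← CStarRing.norm_star_mul_self, hp.2, hp.1]
  by_contra hc
  have hc' := not_le.1 hc
  nlinarith

omit [PartialOrder A] [StarOrderedRing A] in
theorem Thr_norm2 {p q : A} (hp : Pj p) (hq : Pj q) (z : A) : ‖p * z * q‖ ≤ ‖z‖ := by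
  calc ‖p * z * q‖ ≤ ‖p‖ * ‖z‖ * ‖q‖ :=
        (norm_mul_le _ _).trans (mul_le_mul_of_nonneg_right (norm_mul_le _ _) (norm_nonneg _))
    _ ≤ 1 * ‖z‖ * 1 :=
        mul_le_mul (mul_le_mul_of_nonneg_right (Thr_norm hp) (norm_nonneg _)) (Thr_norm hq)
          (norm_nonneg _) (by positivity)
    _ = ‖z‖ := by rw [one_mul, mul_one]

omit [PartialOrder A] [StarOrderedRing A] in
theorem Thr_compl {p : A} (hp : Pj p) : Pj (1 - p) := by
  refine ⟨?_, ?_⟩
  · rw [mul_sub, sub_mul, sub_mul, hp.1]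
    simp
  · rw [star_sub, star_one, hp.2]

omit [PartialOrder A] [StarOrderedRing A] in
theorem Thr_one : Pj (1 : A) := ⟨one_mul 1, star_one A⟩

theorem inv_dense (h0 : RR0 A) {x : A} (hx : IsSelfAdjoint x) {ε : ℝ} (hε : 0 < ε) :
    ∃ y : A, IsSelfAdjoint y ∧ IsUnit y ∧ ‖x - y‖ < ε := by
  obtain ⟨y, hy, hf, hxy⟩ := h0 x hx (ε / 2) (by linarith)
  obtain ⟨t, ht, htn⟩ :=
    (Set.Ioo_infinite (show (0 : ℝ) < ε / 2 by linarith)).exists_notMem_finite (Spec_fin hf)
  have hsa : IsSelfAdjoint (algebraMap ℝ A t) := by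
    rw [Algebra.algebraMap_eq_smul_one]
    exact (IsSelfAdjoint.all t).smul (IsSelfAdjoint.one A)
  refine ⟨y - algebraMap ℝ A t, hy.sub hsa, ?_, ?_⟩
  · have h1 := spectrum.notMem_iff.1 htn
    rw [← neg_sub]
    exact h1.neg
  · have e : x - (y - algebraMap ℝ A t) = (x - y) + t • (1 : A) := by
      rw [Algebra.algebraMap_eq_smul_one]
      abel
    have h1 : ‖t • (1 : A)‖ ≤ t := by
      rw [norm_smul, Real.norm_of_nonneg ht.1.le]
      exact mul_le_of_le_one_right ht.1.le (Thr_norm Thr_one)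
    rw [e]
    calc ‖(x - y) + t • (1 : A)‖ ≤ ‖x - y‖ + ‖t • (1 : A)‖ := norm_add_le _ _
      _ < ε := by linarith [ht.2]

theorem inv_corner (h0 : RR0 A) {q x : A} (hq : Pj q) (hx : IsSelfAdjoint x) (h1 : q * x = x)
    {ε : ℝ} (hε : 0 < ε) : ∃ x' : A, IsSelfAdjoint x' ∧ q * x' = x' ∧
      IsUnit (x' + (1 - q)) ∧ ‖x - x'‖ < ε := by
  obtain ⟨η, hη⟩ : ∃ η : ℝ, η = min (1 / 2) (ε / 4) := ⟨_, rfl⟩
  have hη0 : 0 < η := by
    rw [hη]
    exact lt_min (by norm_num) (by linarith)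
  have hη1 : η ≤ 1 / 2 := by
    rw [hη]
    exact min_le_left _ _
  have hη2 : η ≤ ε / 4 := by
    rw [hη]
    exact min_le_right _ _
  obtain ⟨p, hp⟩ : ∃ p : A, p = 1 - q := ⟨_, rfl⟩
  have hP : Pj p := by
    rw [hp]
    exact Thr_compl hq
  have hpq : p * q = 0 := by rw [hp, sub_mul, one_mul, hq.1, sub_self]
  have hqp : q * p = 0 := by rw [hp, mul_sub, mul_one, hq.1, sub_self]
  have h1' : x * q = x := by
    have h2 := congrArg star h1
    rwa [star_mul, hq.2, hx.star_eq] at h2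
  obtain ⟨X, hX⟩ : ∃ X : A, X = x + p := ⟨_, rfl⟩
  have hXs : IsSelfAdjoint X := by
    rw [hX]
    exact hx.add hP.2
  obtain ⟨Y, hYs, hYu, hXY⟩ := inv_dense h0 hXs hη0
  have hpx : p * x = 0 := by rw [← h1, ← mul_assoc, hpq, zero_mul]
  have hxp : x * p = 0 := by rw [← h1', mul_assoc, hqp, mul_zero]
  have hqXq : q * X * q = x := by rw [hX, mul_add, hqp, add_zero, h1, h1']
  have hqXp : q * X * p = 0 := by rw [hX, mul_add, hqp, add_zero, h1, hxp]
  have hpXp : p * X * p = p := by rw [hX, mul_add, hP.1, hpx, zero_add, hP.1]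
  obtain ⟨g, hg⟩ : ∃ g : A, g = q * Y * q := ⟨_, rfl⟩
  obtain ⟨b, hb⟩ : ∃ b : A, b = q * Y * p := ⟨_, rfl⟩
  obtain ⟨b', hb'⟩ : ∃ b' : A, b' = p * Y * q := ⟨_, rfl⟩
  obtain ⟨d, hd⟩ : ∃ d : A, d = p * Y * p := ⟨_, rfl⟩
  have hqg : q * g = g := by rw [hg, ← mul_assoc, ← mul_assoc, hq.1]
  have hgq : g * q = g := by rw [hg, mul_assoc, hq.1]
  have hqb : q * b = b := by rw [hb, ← mul_assoc, ← mul_assoc, hq.1]
  have hbp : b * p = b := by rw [hb, mul_assoc, hP.1]
  have hbq : b * q = 0 := by rw [hb, mul_assoc, hpq, mul_zero]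
  have hb'q : b' * q = b' := by rw [hb', mul_assoc, hq.1]
  have hpb' : p * b' = b' := by rw [hb', ← mul_assoc, ← mul_assoc, hP.1]
  have hqb' : q * b' = 0 := by rw [hb', ← mul_assoc, ← mul_assoc, hqp, zero_mul, zero_mul]
  have hdq : d * q = 0 := by rw [hd, mul_assoc, hpq, mul_zero]
  have hqd : q * d = 0 := by rw [hd, ← mul_assoc, ← mul_assoc, hqp, zero_mul, zero_mul]
  have hY : Y = g + b + b' + d := by
    have h2 : (q + p) * Y * (q + p) = Y := by
      rw [hp, add_sub_cancel, one_mul, mul_one]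
    rw [← h2, hg, hb, hb', hd]
    simp only [add_mul, mul_add]
    abel
  obtain ⟨k, hk⟩ : ∃ k : A, k = d + q := ⟨_, rfl⟩
  have hk1 : k - 1 = p * (Y - X) * p := by
    rw [mul_sub, sub_mul, hpXp, hk, hd, hp]
    abel
  have hYX : ‖Y - X‖ < η := by
    rw [norm_sub_rev]
    exact hXY
  have hkn : ‖k - 1‖ ≤ 1 / 2 := by
    rw [hk1]
    exact ((Thr_norm2 hP hP _).trans hYX.le).trans hη1
  have hku : IsUnit k := by
    have h2 : IsUnit (1 - (1 - k)) := isUnit_one_sub_of_norm_lt_one (by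
      rw [norm_sub_rev]
      linarith)
    rwa [sub_sub_cancel] at h2
  obtain ⟨k', hk'1, hk'2⟩ : ∃ k' : A, k * k' = 1 ∧ k' * k = 1 := by
    obtain ⟨u, hu⟩ := hku
    exact ⟨↑u⁻¹, by rw [← hu, Units.mul_inv], by rw [← hu, Units.inv_mul]⟩
  have hkq : k * q = q := by rw [hk, add_mul, hdq, hq.1, zero_add]
  have hqk : q * k = q := by rw [hk, mul_add, hqd, hq.1, zero_add]
  have hk'q : k' * q = q := by
    calc k' * q = k' * (k * q) := by rw [hkq]
      _ = q := by rw [← mul_assoc, hk'2, one_mul]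
  have hqk' : q * k' = q := by
    calc q * k' = q * k * k' := by rw [hqk]
      _ = q := by rw [mul_assoc, hk'1, mul_one]
  have hk'd : k' * d = p := by
    have h2 : d = k - q := by rw [hk, add_sub_cancel_right]
    rw [h2, mul_sub, hk'2, hk'q, hp]
  have hdk' : d * k' = p := by
    have h2 : d = k - q := by rw [hk, add_sub_cancel_right]
    rw [h2, sub_mul, hk'1, hqk', hp]
  have hds : star d = d := by
    rw [hd, star_mul, star_mul, hP.2, hYs.star_eq, mul_assoc]
  have hks : star k = k := by rw [hk, star_add, hds, hq.2]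
  have hk's : star k' = k' := by
    have h2 : star k' * k = 1 := by
      have h3 := congrArg star hk'1
      rwa [star_mul, hks, star_one] at h3
    calc star k' = star k' * (k * k') := by rw [hk'1, mul_one]
      _ = k' := by rw [← mul_assoc, h2, one_mul]
  have hbs : star b = b' := by
    rw [hb, star_mul, star_mul, hP.2, hYs.star_eq, hq.2, hb', mul_assoc]
  have hb's : star b' = b := by rw [← hbs, star_star]
  have hgs : star g = g := by
    rw [hg, star_mul, star_mul, hq.2, hYs.star_eq, mul_assoc]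
  have hk'n : ‖k'‖ ≤ 2 := by
    have h2 : k' = 1 - (k - 1) * k' := by
      rw [sub_mul, hk'1, one_mul]
      abel
    have h3 : ‖k'‖ ≤ 1 + 1 / 2 * ‖k'‖ := by
      calc ‖k'‖ = ‖1 - (k - 1) * k'‖ := by rw [← h2]
        _ ≤ ‖(1 : A)‖ + ‖(k - 1) * k'‖ := norm_sub_le _ _
        _ ≤ 1 + 1 / 2 * ‖k'‖ := by
          refine add_le_add (Thr_norm Thr_one) ((norm_mul_le _ _).trans ?_)
          exact mul_le_mul_of_nonneg_right hkn (norm_nonneg _)
    linarith
  have hbn : ‖b‖ ≤ η := by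
    have h2 : b = q * (Y - X) * p := by rw [mul_sub, sub_mul, hqXp, sub_zero, hb]
    rw [h2]
    exact (Thr_norm2 hq hP _).trans hYX.le
  have hb'n : ‖b'‖ ≤ η := by
    rw [← hbs, norm_star]
    exact hbn
  obtain ⟨x', hx'⟩ : ∃ x' : A, x' = g - b * k' * b' := ⟨_, rfl⟩
  have hx'q : x' * q = x' := by rw [hx', sub_mul, hgq, mul_assoc, hb'q]
  have hqx' : q * x' = x' := by rw [hx', mul_sub, hqg, ← mul_assoc, ← mul_assoc, hqb]
  -- the products
  have p1 : b * k' * g = 0 := by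
    rw [← hqg, mul_assoc, ← mul_assoc k', hk'q, ← mul_assoc, hbq, zero_mul]
  have p2 : b * k' * b = 0 := by
    calc b * k' * b = b * k' * (q * b) := by rw [hqb]
      _ = b * (k' * q) * b := by simp only [mul_assoc]
      _ = 0 := by rw [hk'q, hbq, zero_mul]
  have p3 : b * k' * d = b := by rw [mul_assoc, hk'd, hbp]
  have p4 : g * (k' * b') = 0 := by
    rw [← hgq, mul_assoc, ← mul_assoc q, hqk', hqb', mul_zero]
  have p5 : b' * (k' * b') = 0 := by
    calc b' * (k' * b') = b' * q * (k' * b') := by rw [hb'q]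
      _ = b' * (q * k' * b') := by simp only [mul_assoc]
      _ = 0 := by rw [hqk', hqb', mul_zero]
  have p6 : d * (k' * b') = b' := by rw [← mul_assoc, hdk', hpb']
  have e1 : (1 - b * k') * Y = g + b' + d - b * k' * b' := by
    rw [sub_mul, one_mul]
    nth_rewrite 2 [hY]
    rw [mul_add, mul_add, mul_add, p1, p2, p3, hY]
    abel
  have e2 : (1 - b * k') * Y * (1 - k' * b') = x' + d := by
    rw [e1, mul_sub, mul_one, sub_mul, add_mul, add_mul, p4, p5, p6, mul_assoc (b * k'), p5,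
      mul_zero, hx']
    abel
  have e3 : (x' + d) * (q + k' * p) = x' + p := by
    have h2 : x' * (k' * p) = 0 := by
      calc x' * (k' * p) = x' * q * (k' * p) := by rw [hx'q]
        _ = x' * (q * k' * p) := by simp only [mul_assoc]
        _ = 0 := by rw [hqk', hqp, mul_zero]
    rw [mul_add, add_mul, add_mul, hx'q, hdq, h2, ← mul_assoc, hdk', hP.1]
    abel
  have u1 : IsUnit (1 - b * k') := by
    have h2 : b * k' * (b * k') = 0 := by rw [← mul_assoc, p2, zero_mul]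
    refine ⟨⟨1 - b * k', 1 + b * k', ?_, ?_⟩, rfl⟩
    · rw [mul_add, sub_mul, sub_mul, h2]
      simp
    · rw [add_mul, mul_sub, mul_sub, h2]
      simp
  have u2 : IsUnit (1 - k' * b') := by
    have h2 : k' * b' * (k' * b') = 0 := by rw [mul_assoc, p5, mul_zero]
    refine ⟨⟨1 - k' * b', 1 + k' * b', ?_, ?_⟩, rfl⟩
    · rw [mul_add, sub_mul, sub_mul, h2]
      simp
    · rw [add_mul, mul_sub, mul_sub, h2]
      simp
  have hk'p : k' * p = p * k' := by rw [hp, mul_sub, sub_mul, hk'q, hqk', mul_one, one_mul]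
  have hpd : p * d = d := by rw [hd, ← mul_assoc, ← mul_assoc, hP.1]
  have u3 : IsUnit (q + k' * p) := by
    refine ⟨⟨q + k' * p, q + d, ?_, ?_⟩, rfl⟩
    · rw [mul_add, add_mul, add_mul, hq.1, hqd, mul_assoc k' p q, hpq, mul_assoc k' p d, hpd, hk'd,
        hp]
      simp
    · rw [mul_add, add_mul, add_mul, hq.1, hdq, ← mul_assoc, ← mul_assoc, hqk', hqp, hdk', hP.1,
        hp]
      simp
  refine ⟨x', ?_, hqx', ?_, ?_⟩
  · show star x' = x'
    rw [hx', star_sub, hgs, star_mul, star_mul, hb's, hk's, hbs, mul_assoc]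
  · rw [← hp, ← e3, ← e2]
    exact ((u1.mul hYu).mul u2).mul u3
  · have h2 : x - x' = q * (X - Y) * q + b * k' * b' := by
      rw [mul_sub, sub_mul, hqXq, hx', hg]
      abel
    have h3 : ‖b * k' * b'‖ ≤ 2 * η * η := by
      calc ‖b * k' * b'‖ ≤ ‖b‖ * ‖k'‖ * ‖b'‖ :=
            (norm_mul_le _ _).trans (mul_le_mul_of_nonneg_right (norm_mul_le _ _) (norm_nonneg _))
        _ ≤ η * 2 * η := mul_le_mul (mul_le_mul hbn hk'n (norm_nonneg _) hη0.le) hb'n
            (norm_nonneg _) (by positivity)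
        _ = 2 * η * η := by ring
    have h4 : ‖q * (X - Y) * q‖ ≤ η := (Thr_norm2 hq hq _).trans hXY.le
    rw [h2]
    calc ‖q * (X - Y) * q + b * k' * b'‖ ≤ ‖q * (X - Y) * q‖ + ‖b * k' * b'‖ := norm_add_le _ _
      _ ≤ η + 2 * η * η := add_le_add h4 h3
      _ < ε := by nlinarith

theorem thr (h0 : RR0 A) {q a : A} (hq : Pj q) (ha : 0 ≤ a) (haq : a ≤ q) :
    ∃ e : A, Pj e ∧ q * e = e ∧ (1 / 4 : ℝ) • e ≤ e * a * e ∧
      (q - e) * a * (q - e) ≤ (3 / 4 : ℝ) • (q - e) := by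
  obtain ⟨p, hp⟩ : ∃ p : A, p = 1 - q := ⟨_, rfl⟩
  have hP : Pj p := by
    rw [hp]
    exact Thr_compl hq
  have hpq : p * q = 0 := by rw [hp, sub_mul, one_mul, hq.1, sub_self]
  have has : IsSelfAdjoint a := IsSelfAdjoint.of_nonneg ha
  -- `a` belongs to the corner
  have hap : a * p = 0 := by
    have h1 : 0 ≤ p * a * p := Hp_conj_nonneg hP ha
    have h2 : p * a * p ≤ 0 := by
      have h3 : 0 ≤ p * (q - a) * p := Hp_conj_nonneg hP (sub_nonneg.2 haq)
      rw [mul_sub, hpq, zero_sub, neg_mul] at h3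
      exact neg_nonneg.1 h3
    have h3 : p * a * p = 0 := le_antisymm h2 h1
    obtain ⟨z, hz⟩ := CStarAlgebra.nonneg_iff_eq_star_mul_self.1 ha
    have h4 : star (z * p) * (z * p) = 0 := by
      rw [star_mul, hP.2, ← h3, hz]
      simp only [mul_assoc]
    have h5 : z * p = 0 := (CStarRing.star_mul_self_eq_zero_iff _).1 h4
    rw [hz, mul_assoc, h5, mul_zero]
  have haq' : a * q = a := by
    rw [hp, mul_sub, mul_one] at hap
    exact (sub_eq_zero.1 hap).symm
  have hqa : q * a = a := by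
    have h1 := congrArg star haq'
    rwa [star_mul, hq.2, has.star_eq] at h1
  have hqs : IsSelfAdjoint ((1 / 2 : ℝ) • q) := (IsSelfAdjoint.all _).smul hq.2
  obtain ⟨x', hx's, hqx', hu, hn⟩ := inv_corner h0 (x := a - (1 / 2 : ℝ) • q) hq (has.sub hqs)
    (by rw [mul_sub, hqa, mul_smul_comm, hq.1]) (show (0 : ℝ) < 1 / 4 by norm_num)
  obtain ⟨a', ha'⟩ : ∃ a' : A, a' = x' + (1 / 2 : ℝ) • q := ⟨_, rfl⟩
  have ha's : IsSelfAdjoint a' := by
    rw [ha']
    exact hx's.add hqs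
  have hqa' : q * a' = a' := by rw [ha', mul_add, hqx', mul_smul_comm, hq.1]
  have ha'q : a' * q = a' := by
    have h1 := congrArg star hqa'
    rwa [star_mul, hq.2, ha's.star_eq] at h1
  have hx'q : x' * q = x' := by
    have h1 := congrArg star hqx'
    rwa [star_mul, hq.2, hx's.star_eq] at h1
  have hqp : q * p = 0 := by rw [hp, mul_sub, mul_one, hq.1, sub_self]
  have hx'p : x' * p = 0 := by rw [← hx'q, mul_assoc, hqp, mul_zero]
  have haa' : ‖a - a'‖ < 1 / 4 := by
    have h1 : a - a' = a - (1 / 2 : ℝ) • q - x' := by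
      rw [ha']
      abel
    rw [h1]
    exact hn
  -- the gap
  have hgap : (1 / 2 : ℝ) ∉ spectrum ℝ a' := by
    rw [spectrum.notMem_iff]
    have h1 : algebraMap ℝ A (1 / 2) - a' = -((x' + p) * (q - (1 / 2 : ℝ) • p)) := by
      rw [mul_sub, add_mul, hpq, hx'q, mul_smul_comm, add_mul, hx'p, hP.1, ha',
        Algebra.algebraMap_eq_smul_one, hp, smul_add, smul_zero, smul_sub]
      abel
    have h2 : IsUnit (q - (1 / 2 : ℝ) • p) := by
      refine ⟨⟨q - (1 / 2 : ℝ) • p, q - (2 : ℝ) • p, ?_, ?_⟩, rfl⟩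
      · rw [mul_sub, sub_mul, sub_mul, mul_smul_comm, smul_mul_assoc, smul_mul_smul_comm, hqp, hpq,
          hq.1, hP.1, hp]
        norm_num
      · rw [mul_sub, sub_mul, sub_mul, mul_smul_comm, smul_mul_assoc, smul_mul_smul_comm, hqp, hpq,
          hq.1, hP.1, hp]
        norm_num
    rw [h1]
    rw [← hp] at hu
    exact (hu.mul h2).neg
  obtain ⟨f, hf⟩ : ∃ f : ℝ → ℝ, ∀ t, f t = if 1 / 2 < t then 1 else 0 := ⟨_, fun _ => rfl⟩
  have hfc : ContinuousOn f (spectrum ℝ a') := by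
    intro t ht
    have hne : t ≠ 1 / 2 := fun h => hgap (h ▸ ht)
    refine ContinuousAt.continuousWithinAt ?_
    rcases lt_or_gt_of_ne hne with h | h
    · have h1 : f =ᶠ[nhds t] fun _ => 0 := by
        filter_upwards [Iio_mem_nhds h] with s hs
        rw [hf, if_neg (not_lt.2 (le_of_lt hs))]
      exact (continuousAt_const.congr h1.symm)
    · have h1 : f =ᶠ[nhds t] fun _ => 1 := by
        filter_upwards [Ioi_mem_nhds h] with s hs
        rw [hf, if_pos (Set.mem_Ioi.1 hs)]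
      exact (continuousAt_const.congr h1.symm)
  have hdc : ContinuousOn (fun t : ℝ => f t * t⁻¹) (spectrum ℝ a') := by
    intro t ht
    have hne : t ≠ 1 / 2 := fun h => hgap (h ▸ ht)
    refine ContinuousAt.continuousWithinAt ?_
    rcases lt_or_gt_of_ne hne with h | h
    · have h1 : (fun t : ℝ => f t * t⁻¹) =ᶠ[nhds t] fun _ => 0 := by
        filter_upwards [Iio_mem_nhds h] with s hs
        rw [hf, if_neg (not_lt.2 (le_of_lt hs)), zero_mul]
      exact (continuousAt_const.congr h1.symm)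
    · have h1 : (fun t : ℝ => f t * t⁻¹) =ᶠ[nhds t] fun t => t⁻¹ := by
        filter_upwards [Ioi_mem_nhds h] with s hs
        rw [hf, if_pos (Set.mem_Ioi.1 hs), one_mul]
      have h2 : t ≠ 0 := by
        intro h3
        rw [h3] at h
        norm_num at h
      exact (continuousAt_inv₀ h2).congr h1.symm
  obtain ⟨e, he⟩ : ∃ e : A, e = cfc f a' := ⟨_, rfl⟩
  have hes : star e = e := by
    rw [he]
    exact (cfc_predicate f a' : IsSelfAdjoint (cfc f a')).star_eq
  have hee : e * e = e := by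
    rw [he, ← cfc_mul f f a' hfc hfc]
    congr 1
    funext t
    rw [hf]
    split_ifs
    · rw [mul_one]
    · rw [mul_zero]
  have hPe : Pj e := ⟨hee, hes⟩
  have hea : e = a' * cfc (fun t : ℝ => f t * t⁻¹) a' := by
    have h1 : a' * cfc (fun t : ℝ => f t * t⁻¹) a' =
        cfc (fun t : ℝ => t) a' * cfc (fun t : ℝ => f t * t⁻¹) a' := by rw [cfc_id' ℝ a']
    rw [h1, ← cfc_mul (fun t : ℝ => t) (fun t : ℝ => f t * t⁻¹) a' continuousOn_id hdc, he]
    congr 1
    funext t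
    rw [hf]
    split_ifs with h
    · have h2 : t ≠ 0 := by
        intro h3
        rw [h3] at h
        norm_num at h
      rw [one_mul, mul_inv_cancel₀ h2]
    · rw [zero_mul, mul_zero]
  have hqe : q * e = e := by rw [hea, ← mul_assoc, hqa']
  have heq : e * q = e := by
    have h1 := congrArg star hqe
    rwa [star_mul, hq.2, hes] at h1
  -- the difference
  have hsd : IsSelfAdjoint (a - a') := has.sub ha's
  have hlo : 0 ≤ a - a' + algebraMap ℝ A (1 / 4) := by
    have h1 : -(algebraMap ℝ A (1 / 4)) ≤ a - a' :=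
      (neg_le_neg (algebraMap_mono A haa'.le)).trans hsd.neg_algebraMap_norm_le_self
    have h2 := add_le_add_left h1 (algebraMap ℝ A (1 / 4))
    simpa using h2
  have hhi : 0 ≤ algebraMap ℝ A (1 / 4) - (a - a') :=
    sub_nonneg.2 ((hsd.le_algebraMap_norm_self).trans (algebraMap_mono A haa'.le))
  have hcom : a' * e = e * a' := by
    have h1 : Commute (cfc f a') (cfc (fun t : ℝ => t) a') := cfc_commute_cfc f _ a'
    rw [cfc_id' ℝ a'] at h1
    rw [he]
    exact h1.eq.symm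
  -- the lower bound
  have hA : 0 ≤ e * a' * e - (1 / 2 : ℝ) • e := by
    have h1 : e * a' * e - (1 / 2 : ℝ) • e = cfc (fun t : ℝ => f t * t - (1 / 2) * f t) a' := by
      have h2 : cfc (fun t : ℝ => f t * t) a' = e * a' := by
        rw [cfc_mul f (fun t : ℝ => t) a' hfc continuousOn_id, cfc_id' ℝ a', he]
      have h3 : cfc (fun t : ℝ => (1 / 2) * f t) a' = (1 / 2 : ℝ) • e := by
        rw [he]
        exact cfc_smul (1 / 2 : ℝ) f a' hfc
      rw [cfc_sub (fun t : ℝ => f t * t) (fun t : ℝ => (1 / 2) * f t) a'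
        (hfc.mul continuousOn_id) (continuousOn_const.mul hfc), h2, h3, mul_assoc, hcom,
        ← mul_assoc, hee]
    rw [h1]
    refine cfc_nonneg fun t _ => ?_
    rw [hf]
    split_ifs with h
    · linarith
    · simp
  have hB : 0 ≤ e * (a - a' + algebraMap ℝ A (1 / 4)) * e := Hp_conj_nonneg hPe hlo
  -- the upper bound
  have hC : 0 ≤ (1 / 2 : ℝ) • (1 - e) - (1 - e) * a' := by
    have h1 : (1 / 2 : ℝ) • (1 - e) - (1 - e) * a' =
        cfc (fun t : ℝ => (1 / 2) * (1 - f t) - (1 - f t) * t) a' := by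
      have h0' : ContinuousOn (fun t : ℝ => 1 - f t) (spectrum ℝ a') := continuousOn_const.sub hfc
      have h2 : cfc (fun t : ℝ => 1 - f t) a' = 1 - e := by
        rw [cfc_sub (fun _ : ℝ => (1 : ℝ)) f a' continuousOn_const hfc, cfc_const_one ℝ a', he]
      have h3 : cfc (fun t : ℝ => (1 / 2) * (1 - f t)) a' = (1 / 2 : ℝ) • (1 - e) := by
        rw [← h2]
        exact cfc_smul (1 / 2 : ℝ) (fun t : ℝ => 1 - f t) a' h0'
      have h4 : cfc (fun t : ℝ => (1 - f t) * t) a' = (1 - e) * a' := by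
        rw [cfc_mul (fun t : ℝ => 1 - f t) (fun t : ℝ => t) a' h0' continuousOn_id, cfc_id' ℝ a',
          h2]
      rw [cfc_sub (fun t : ℝ => (1 / 2) * (1 - f t)) (fun t : ℝ => (1 - f t) * t) a'
        (continuousOn_const.mul h0') (h0'.mul continuousOn_id), h3, h4]
    rw [h1]
    refine cfc_nonneg fun t _ => ?_
    rw [hf]
    split_ifs with h
    · simp
    · have := not_lt.1 h
      linarith
  have hqme : Pj (q - e) := by
    refine ⟨?_, ?_⟩
    · rw [mul_sub, sub_mul, sub_mul, hq.1, heq, hqe, hee]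
      abel
    · rw [star_sub, hq.2, hes]
  have hD : 0 ≤ (q - e) * (algebraMap ℝ A (1 / 4) - (a - a')) * (q - e) :=
    Hp_conj_nonneg hqme hhi
  have hE : 0 ≤ (q - e) * ((1 / 2 : ℝ) • (1 - e) - (1 - e) * a') * (q - e) :=
    Hp_conj_nonneg hqme hC
  have hm : (q - e) * (1 - e) = q - e := by
    rw [mul_sub, mul_one, sub_mul, hqe, hee, sub_self, sub_zero]
  refine ⟨e, hPe, hqe, ?_, ?_⟩
  · rw [← sub_nonneg]
    have h1 : e * a * e - (1 / 4 : ℝ) • e = (e * a' * e - (1 / 2 : ℝ) • e) +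
        e * (a - a' + algebraMap ℝ A (1 / 4)) * e := by
      rw [mul_add, add_mul, mul_sub, sub_mul, Algebra.algebraMap_eq_smul_one, mul_smul_comm,
        mul_one, smul_mul_assoc, hee]
      have h6 : (1 / 2 : ℝ) • e = (1 / 4 : ℝ) • e + (1 / 4 : ℝ) • e := by
        rw [← add_smul]
        norm_num
      rw [h6]
      abel
    rw [h1]
    exact add_nonneg hA hB
  · rw [← sub_nonneg]
    have h1 : (3 / 4 : ℝ) • (q - e) - (q - e) * a * (q - e) =
        (q - e) * ((1 / 2 : ℝ) • (1 - e) - (1 - e) * a') * (q - e) +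
        (q - e) * (algebraMap ℝ A (1 / 4) - (a - a')) * (q - e) := by
      obtain ⟨w, hw⟩ : ∃ w : A, w = q - e := ⟨_, rfl⟩
      rw [← hw] at hm hqme ⊢
      have h2 : w * ((1 / 2 : ℝ) • (1 - e) - (1 - e) * a') * w =
          (1 / 2 : ℝ) • w - w * a' * w := by
        rw [mul_sub, sub_mul, mul_smul_comm, hm, ← mul_assoc, hm, smul_mul_assoc, hqme.1]
      have h3 : w * (algebraMap ℝ A (1 / 4) - (a - a')) * w =
          (1 / 4 : ℝ) • w - w * a * w + w * a' * w := by
        rw [mul_sub, sub_mul, mul_sub, sub_mul, Algebra.algebraMap_eq_smul_one, mul_smul_comm,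
          mul_one, smul_mul_assoc, hqme.1]
        abel
      rw [h2, h3]
      have h6 : (3 / 4 : ℝ) • w = (1 / 2 : ℝ) • w + (1 / 4 : ℝ) • w := by
        rw [← add_smul]
        norm_num
      rw [h6]
      abel
    rw [h1]
    exact add_nonneg hE hD

end Pool.Agent.H.MP_8be301_an.DP
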