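import Pool.Agent.H.MP_8be301_an.RD.Sqr

/-!
# The 2 x 2 refinement of projections  (module Tl)

`R = q + y = p + P` is a projection, `f = q - e`. `T = p e + P f + y + (1 - R)`, `1 - T = p f + P e =: N` (as `q = p q + P q`),
`star N * N = f p f + e P e ≤ 3/4` (cross terms vanish), so `‖N‖^2 ≤ 3/4 < 1` and `T` is a unit. `T e = p e`, `T f = P f`, `T y = y`,
`R T = T R`. `e p e = e - e P e ≥ (1/4) e`: `t` from `invSqrt` for `e p e + (1 - e)`, `t` commutes with `e`; `v1 = p e t`; similarly
`v2 = P f t2`. `q' = v1 v1* + v2 v2*` is a projection (`p P = 0`), `T q = q' T q`, and `v1 = T q (t e)`, `v2 = T q (t2 f)`.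
`S = (T⁻¹)*`, `S* = T⁻¹`: `y S* q' = 0` since `S* v1 = q t e`, `S* v2 = q t2 f`. So `q' S y = 0`. `R S = S R`, `Z = S y`, `R Z = Z`.
`Z* Z = y S* S y ≥ ‖T‖^(-2) y` (`1 ≤ ‖T‖^2 S* S`, from `T* ..`; or: `star Z * Z + (1 - y)` is bounded below because
`y = star (T y) ..`), `v3 = Z t3` with `t3` from `invSqrt` for `Z* Z + (1 - y)`, `v3* v3 = y`. `h = R - q' - v3 v3*` is a projection with
`h S y = 0`, `h q' = 0`, `h R = h`; `h = h S T* = h S R T* = h S q T* + h S y T* = h S q T*`, and `q T* = q T* q'`, so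
`h = h S q T* q' = h q' = 0`.
-/

set_option autoImplicit false

namespace Pool.Agent.H.MP_8be301_an.DP

open Pool.Agent.H.MP_8be301_an.RD

/-- complements of projections are positive -/
theorem Tl_compl {B : Type*} [CStarAlgebra B] [PartialOrder B] [StarOrderedRing B] {e : B}
    (he : Pj e) : 0 ≤ 1 - e := by
  have h := star_mul_self_nonneg (1 - e)
  rwa [star_sub, star_one, he.2, mul_sub, mul_one, sub_mul, one_mul, he.1, sub_self,
    sub_zero] at h

/-- The polar part of `p * e`. -/
theorem Tl_iso {B : Type*} [CStarAlgebra B] [PartialOrder B] [StarOrderedRing B] {e p P : B}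
    (he : Pj e) (hp : Pj p) (h : p * e + P * e = e) (h1 : e * P * e ≤ (3 / 4 : ℝ) • e) :
    ∃ t w : B, star (p * e * t) * (p * e * t) = e ∧ e * t = t * e ∧ t * w = 1 := by
  have hpe : e * p * e = e - e * P * e := by
    have h2 : e * (p * e + P * e) = e * e := by rw [h]
    rw [mul_add, he.1, ← mul_assoc, ← mul_assoc] at h2
    exact eq_sub_of_add_eq h2
  have hlow : algebraMap ℝ B (1 / 4) ≤ e * p * e + (1 - e) := by
    rw [← sub_nonneg]
    have h3 : e * p * e + (1 - e) - algebraMap ℝ B (1 / 4) =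
        ((3 / 4 : ℝ) • e - e * P * e) + (3 / 4 : ℝ) • (1 - e) := by
      rw [hpe, Algebra.algebraMap_eq_smul_one]
      module
    rw [h3]
    exact add_nonneg (sub_nonneg.2 h1) (smul_nonneg (by norm_num) (Tl_compl he))
  obtain ⟨t, ht, htt, hct⟩ := invSqrt (by norm_num : (0 : ℝ) < 1 / 4) hlow
  have hec : e * (e * p * e + (1 - e)) = e * p * e := by
    rw [mul_add, mul_sub, mul_one, he.1, sub_self, add_zero, ← mul_assoc, ← mul_assoc, he.1]
  have hce : (e * p * e + (1 - e)) * e = e * p * e := by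
    rw [add_mul, sub_mul, one_mul, he.1, sub_self, add_zero, mul_assoc (e * p), he.1]
  have het : e * t = t * e := hct e (hec.trans hce.symm)
  refine ⟨t, (e * p * e + (1 - e)) * t, ?_, het, by rw [← mul_assoc]; exact htt⟩
  have h5 : star (p * e * t) * (p * e * t) = t * (e * p * e) * t := by
    rw [star_mul, star_mul, ht.star_eq, he.2, hp.2]
    calc t * (e * p) * (p * e * t) = t * (e * (p * p) * e) * t := by noncomm_ring
      _ = t * (e * p * e) * t := by rw [hp.1]
  rw [h5, ← hec]
  calc t * (e * (e * p * e + (1 - e))) * t = (t * e) * ((e * p * e + (1 - e)) * t) := by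
        simp only [mul_assoc]
    _ = (e * t) * ((e * p * e + (1 - e)) * t) := by rw [het]
    _ = e * (t * (e * p * e + (1 - e)) * t) := by simp only [mul_assoc]
    _ = e := by rw [htt, mul_one]

theorem lemT {B : Type*} [CStarAlgebra B] [PartialOrder B] [StarOrderedRing B] {q y p P e : B}
    (hq : Pj q) (hy : Pj y) (hp : Pj p) (hP : Pj P) (he : Pj e) (hqy : q * y = 0)
    (hpP : p * P = 0) (h : q + y = p + P) (heq : q * e = e)
    (h1 : e * P * e ≤ (3 / 4 : ℝ) • e)
    (h2 : (q - e) * p * (q - e) ≤ (3 / 4 : ℝ) • (q - e)) :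
    ∃ v1 v2 v3 : B, star v1 * v1 = e ∧ p * v1 = v1 ∧ star v2 * v2 = q - e ∧ P * v2 = v2 ∧
      star v3 * v3 = y ∧ v3 * star v3 = (p - v1 * star v1) + (P - v2 * star v2) := by
  have eq' : e * q = e := by
    have := congrArg star heq
    rwa [star_mul, he.2, hq.2] at this
  have hPp : P * p = 0 := by
    have := congrArg star hpP
    rwa [star_mul, hp.2, hP.2, star_zero] at this
  have hyq : y * q = 0 := by
    have := congrArg star hqy
    rwa [star_mul, hq.2, hy.2, star_zero] at this
  obtain ⟨f, hf⟩ : ∃ f, f = q - e := ⟨_, rfl⟩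
  rw [← hf] at h2 ⊢
  have hqef : q = e + f := by rw [hf]; abel
  have hef : e * f = 0 := by rw [hf, mul_sub, eq', he.1, sub_self]
  have hfe : f * e = 0 := by rw [hf, sub_mul, heq, he.1, sub_self]
  have hff : Pj f := by
    constructor
    · rw [hf, mul_sub, sub_mul, sub_mul, hq.1, heq, eq', he.1, sub_self, sub_zero]
    · rw [hf, star_sub, hq.2, he.2]
  have hye : y * e = 0 := by rw [← heq, ← mul_assoc, hyq, zero_mul]
  have hey : e * y = 0 := by rw [← eq', mul_assoc, hqy, mul_zero]
  have hyf : y * f = 0 := by rw [hf, mul_sub, hyq, hye, sub_zero]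
  have hfy : f * y = 0 := by rw [hf, sub_mul, hqy, hey, sub_zero]
  obtain ⟨R, hR⟩ : ∃ R, R = q + y := ⟨_, rfl⟩
  have hR' : R = p + P := hR.trans h
  have hRe : R * e = e := by rw [hR, add_mul, heq, hye, add_zero]
  have hRf : R * f = f := by rw [hR, add_mul, hyf, add_zero, hf, mul_sub, hq.1, heq]
  have heR : e * R = e := by rw [hR, mul_add, eq', hey, add_zero]
  have hfR : f * R = f := by rw [hR, mul_add, hfy, add_zero, hf, sub_mul, hq.1, eq']
  have hRy : R * y = y := by rw [hR, add_mul, hqy, hy.1, zero_add]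
  have hyR : y * R = y := by rw [hR, mul_add, hyq, hy.1, zero_add]
  have hRp : R * p = p := by rw [hR', add_mul, hp.1, hPp, add_zero]
  have hRP : R * P = P := by rw [hR', add_mul, hpP, hP.1, zero_add]
  have hRR : R * R = R := by nth_rw 2 [hR']; rw [mul_add, hRp, hRP, hR']
  have hRs : star R = R := by rw [hR, star_add, hq.2, hy.2]
  have hPe : p * e + P * e = e := by rw [← add_mul, ← hR', hRe]
  have hPf : P * f + p * f = f := by rw [← add_mul, add_comm P p, ← hR', hRf]
  obtain ⟨t, w, hv1, het, htw⟩ := Tl_iso he hp hPe h1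
  obtain ⟨t2, w2, hv2, hft, htw2⟩ := Tl_iso hff hP hPf h2
  -- the invertible element
  obtain ⟨T, hT⟩ : ∃ T, T = p * e + P * f + y + (1 - R) := ⟨_, rfl⟩
  have hN : 1 - T = p * f + P * e := by
    have e1 : 1 - T = (e + f + y) - (p * e + P * f + y) := by
      rw [hT, ← hqef, ← hR]; abel
    rw [e1]
    nth_rw 1 [← hPe]
    nth_rw 1 [← hPf]
    abel
  have hNN : star (p * f + P * e) * (p * f + P * e) = f * p * f + e * P * e := by
    rw [star_add, star_mul, star_mul, hff.2, he.2, hp.2, hP.2]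
    calc (f * p + e * P) * (p * f + P * e)
        = f * (p * p) * f + f * (p * P) * e + e * (P * p) * f + e * (P * P) * e := by
          noncomm_ring
      _ = f * p * f + e * P * e := by
          rw [hp.1, hP.1, hpP, hPp]; noncomm_ring
  have hle : star (p * f + P * e) * (p * f + P * e) ≤ algebraMap ℝ B (3 / 4) := by
    rw [hNN, ← sub_nonneg]
    have e1 : algebraMap ℝ B (3 / 4) - (f * p * f + e * P * e) =
        ((3 / 4 : ℝ) • f - f * p * f) + ((3 / 4 : ℝ) • e - e * P * e) +
          (3 / 4 : ℝ) • (1 - q) := by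
      rw [Algebra.algebraMap_eq_smul_one, hqef]
      module
    rw [e1]
    exact add_nonneg (add_nonneg (sub_nonneg.2 h2) (sub_nonneg.2 h1))
      (smul_nonneg (by norm_num) (Tl_compl hq))
  have hnorm : ‖p * f + P * e‖ < 1 := by
    have e1 : ‖star (p * f + P * e) * (p * f + P * e)‖ ≤ 3 / 4 := by
      refine (CStarAlgebra.norm_le_iff_le_algebraMap _ (by norm_num)
        (star_mul_self_nonneg _)).2 hle
    rw [CStarRing.norm_star_mul_self] at e1
    nlinarith [norm_nonneg (p * f + P * e)]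
  have hunit : IsUnit T := by
    have e1 : T = 1 - (p * f + P * e) := by rw [← hN]; abel
    rw [e1]
    exact isUnit_one_sub_of_norm_lt_one hnorm
  obtain ⟨U, hU⟩ := hunit
  obtain ⟨Ti, hTi⟩ : ∃ Ti : B, Ti = ((U⁻¹ : Bˣ) : B) := ⟨_, rfl⟩
  have hTT : T * Ti = 1 := by rw [hTi, ← hU, Units.mul_inv]
  have hTT' : Ti * T = 1 := by rw [hTi, ← hU, Units.inv_mul]
  have hTe : T * e = p * e := by
    rw [hT, add_mul, add_mul, add_mul, mul_assoc, mul_assoc, he.1, hfe, mul_zero, add_zero, hye,
      add_zero, sub_mul, one_mul, hRe, sub_self, add_zero]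
  have hTf : T * f = P * f := by
    rw [hT, add_mul, add_mul, add_mul, mul_assoc, mul_assoc, hef, hff.1, mul_zero, zero_add, hyf,
      add_zero, sub_mul, one_mul, hRf, sub_self, add_zero]
  have hTR : T * R = p * e + P * f + y := by
    rw [hT, add_mul, add_mul, add_mul, mul_assoc, mul_assoc, heR, hfR, hyR, sub_mul, one_mul,
      hRR, sub_self, add_zero]
  have hRT : R * T = p * e + P * f + y := by
    rw [hT, mul_add, mul_add, mul_add, ← mul_assoc, ← mul_assoc, hRp, hRP, hRy, mul_sub, mul_one,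
      hRR, sub_self, add_zero]
  have hRTi : Ti * R = R * Ti := by
    calc Ti * R = Ti * R * (T * Ti) := by rw [hTT, mul_one]
      _ = Ti * (R * T) * Ti := by simp only [mul_assoc]
      _ = Ti * (T * R) * Ti := by rw [hRT, hTR]
      _ = (Ti * T) * R * Ti := by simp only [mul_assoc]
      _ = R * Ti := by rw [hTT', one_mul]
  -- the elements v1 and v2
  obtain ⟨v1, hv1d⟩ : ∃ v, v = p * e * t := ⟨_, rfl⟩
  obtain ⟨v2, hv2d⟩ : ∃ v, v = P * f * t2 := ⟨_, rfl⟩
  rw [← hv1d] at hv1
  rw [← hv2d] at hv2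
  have hpv : p * v1 = v1 := by rw [hv1d, ← mul_assoc, ← mul_assoc, hp.1]
  have hPv : P * v2 = v2 := by rw [hv2d, ← mul_assoc, ← mul_assoc, hP.1]
  have hv1e : v1 * e = v1 := by
    rw [hv1d, mul_assoc (p * e), ← het, mul_assoc, ← mul_assoc e e, he.1, ← mul_assoc]
  have hv2f : v2 * f = v2 := by
    rw [hv2d, mul_assoc (P * f), ← hft, mul_assoc, ← mul_assoc f f, hff.1, ← mul_assoc]
  have hv12 : star v1 * v2 = 0 := by
    rw [← hpv, ← hPv, star_mul, hp.2, mul_assoc, ← mul_assoc p P, hpP, zero_mul, mul_zero]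
  have hv21 : star v2 * v1 = 0 := by
    rw [← hpv, ← hPv, star_mul, hP.2, mul_assoc, ← mul_assoc P p, hPp, zero_mul, mul_zero]
  obtain ⟨q', hq'⟩ : ∃ q', q' = v1 * star v1 + v2 * star v2 := ⟨_, rfl⟩
  have hq's : star q' = q' := by
    rw [hq', star_add, star_mul, star_mul, star_star, star_star]
  have hq'1 : q' * v1 = v1 := by
    rw [hq', add_mul, mul_assoc, mul_assoc, hv1, hv21, mul_zero, add_zero, hv1e]
  have hq'2 : q' * v2 = v2 := by
    rw [hq', add_mul, mul_assoc, mul_assoc, hv2, hv12, mul_zero, zero_add, hv2f]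
  have hq'q : q' * q' = q' := by
    nth_rw 2 [hq']
    rw [mul_add, ← mul_assoc, ← mul_assoc, hq'1, hq'2, hq']
  have hpe' : p * e = v1 * w := by rw [hv1d, mul_assoc (p * e), htw, mul_one]
  have hPf' : P * f = v2 * w2 := by rw [hv2d, mul_assoc (P * f), htw2, mul_one]
  have hTq : T * q = q' * (T * q) := by
    rw [hqef, mul_add, hTe, hTf, hpe', hPf', mul_add, ← mul_assoc, ← mul_assoc, hq'1, hq'2]
  have hRv1 : R * v1 = v1 := by rw [← hpv, ← mul_assoc, hRp]
  have hRv2 : R * v2 = v2 := by rw [← hPv, ← mul_assoc, hRP]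
  have hRq' : R * q' = q' := by
    rw [hq', mul_add, ← mul_assoc, ← mul_assoc, hRv1, hRv2]
  have hyT1 : y * Ti * v1 = 0 := by
    rw [hv1d, ← hTe]
    calc y * Ti * (T * e * t) = y * (Ti * T) * e * t := by simp only [mul_assoc]
      _ = 0 := by rw [hTT', mul_one, hye, zero_mul]
  have hyT2 : y * Ti * v2 = 0 := by
    rw [hv2d, ← hTf]
    calc y * Ti * (T * f * t2) = y * (Ti * T) * f * t2 := by simp only [mul_assoc]
      _ = 0 := by rw [hTT', mul_one, hyf, zero_mul]
  have hyTq : y * Ti * q' = 0 := by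
    rw [hq', mul_add, ← mul_assoc, ← mul_assoc, hyT1, hyT2, zero_mul, zero_mul, add_zero]
  -- the element Z
  obtain ⟨Z, hZ⟩ : ∃ Z, Z = star Ti * y := ⟨_, rfl⟩
  have hZs : star Z = y * Ti := by rw [hZ, star_mul, star_star, hy.2]
  have hZy : Z * y = Z := by rw [hZ, mul_assoc, hy.1]
  have hq'Z : q' * Z = 0 := by
    have := congrArg star hyTq
    rwa [star_mul, star_mul, star_zero, hq's, hy.2, ← hZ] at this
  have hRS : R * star Ti = star Ti * R := by
    have := congrArg star hRTi
    rwa [star_mul, star_mul, hRs] at this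
  have hRZ : R * Z = Z := by rw [hZ, ← mul_assoc, hRS, mul_assoc, hRy]
  -- lower bound
  obtain ⟨M, hM⟩ : ∃ M : ℝ, M = ‖T * star T‖ + 1 := ⟨_, rfl⟩
  have hM1 : 1 ≤ M := by rw [hM]; linarith [norm_nonneg (T * star T)]
  have hM0 : 0 < M := by linarith
  have hTM : T * star T ≤ algebraMap ℝ B M := by
    have e1 : T * star T ≤ algebraMap ℝ B ‖T * star T‖ :=
      (IsSelfAdjoint.mul_star_self T).le_algebraMap_norm_self
    refine e1.trans ?_
    exact algebraMap_mono B (by rw [hM]; linarith)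
  have hD : 1 ≤ M • (Ti * star Ti) := by
    have e1 := star_right_conjugate_le_conjugate hTM Ti
    have e2 : Ti * (T * star T) * star Ti = 1 := by
      calc Ti * (T * star T) * star Ti = (Ti * T) * star (Ti * T) := by
            rw [star_mul]; simp only [mul_assoc]
        _ = 1 := by rw [hTT', star_one, mul_one]
    rw [e2, Algebra.algebraMap_eq_smul_one, mul_smul_comm, mul_one, smul_mul_assoc] at e1
    exact e1
  have hD' : y ≤ M • (star Z * Z) := by
    have e1 := star_right_conjugate_le_conjugate hD y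
    rw [mul_one, hy.2, hy.1, mul_smul_comm, smul_mul_assoc] at e1
    have e2 : star Z * Z = y * (Ti * star Ti) * y := by
      rw [hZs, hZ]; simp only [mul_assoc]
    rw [e2]
    exact e1
  have hlow : algebraMap ℝ B (M⁻¹) ≤ star Z * Z + (1 - y) := by
    rw [← sub_nonneg]
    have e1 : star Z * Z + (1 - y) - algebraMap ℝ B (M⁻¹) =
        M⁻¹ • (M • (star Z * Z) - y) + (1 - M⁻¹) • (1 - y) := by
      rw [Algebra.algebraMap_eq_smul_one, smul_sub, smul_smul, inv_mul_cancel₀ hM0.ne', one_smul]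
      module
    rw [e1]
    have e2 : M⁻¹ ≤ 1 := inv_le_one_of_one_le₀ hM1
    exact add_nonneg (smul_nonneg (inv_nonneg.2 hM0.le) (sub_nonneg.2 hD'))
      (smul_nonneg (by linarith) (Tl_compl hy))
  obtain ⟨t3, ht3, htt3, hct3⟩ := invSqrt (inv_pos.2 hM0) hlow
  have hyZ : y * (star Z * Z) = star Z * Z := by
    rw [← mul_assoc, hZs, ← mul_assoc, hy.1]
  have hZZy : star Z * Z * y = star Z * Z := by rw [mul_assoc, hZy]
  have hyc : y * (star Z * Z + (1 - y)) = star Z * Z := by
    rw [mul_add, hyZ, mul_sub, mul_one, hy.1, sub_self, add_zero]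
  have hcy : (star Z * Z + (1 - y)) * y = star Z * Z := by
    rw [add_mul, hZZy, sub_mul, one_mul, hy.1, sub_self, add_zero]
  have hyt : y * t3 = t3 * y := hct3 y (hyc.trans hcy.symm)
  obtain ⟨v3, hv3d⟩ : ∃ v, v = Z * t3 := ⟨_, rfl⟩
  have hv3 : star v3 * v3 = y := by
    have e1 : star v3 * v3 = t3 * (star Z * Z) * t3 := by
      rw [hv3d, star_mul, ht3.star_eq]; simp only [mul_assoc]
    rw [e1, ← hyc]
    calc t3 * (y * (star Z * Z + (1 - y))) * t3
        = (t3 * y) * ((star Z * Z + (1 - y)) * t3) := by simp only [mul_assoc]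
      _ = (y * t3) * ((star Z * Z + (1 - y)) * t3) := by rw [hyt]
      _ = y * (t3 * (star Z * Z + (1 - y)) * t3) := by simp only [mul_assoc]
      _ = y := by rw [htt3, mul_one]
  have hv3y : v3 * y = v3 := by rw [hv3d, mul_assoc, ← hyt, ← mul_assoc, hZy]
  have hq'v3 : q' * v3 = 0 := by rw [hv3d, ← mul_assoc, hq'Z, zero_mul]
  have hv3q' : star v3 * q' = 0 := by
    have := congrArg star hq'v3
    rwa [star_mul, hq's, star_zero] at this
  have hRv3 : R * v3 = v3 := by rw [hv3d, ← mul_assoc, hRZ]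
  have hZ3 : Z = v3 * ((star Z * Z + (1 - y)) * t3) := by
    calc Z = Z * (t3 * (star Z * Z + (1 - y)) * t3) := by rw [htt3, mul_one]
      _ = v3 * ((star Z * Z + (1 - y)) * t3) := by rw [hv3d]; simp only [mul_assoc]
  obtain ⟨g, hg⟩ : ∃ g, g = R - q' - v3 * star v3 := ⟨_, rfl⟩
  have hgq : g * q' = 0 := by
    rw [hg, sub_mul, sub_mul, hRq', hq'q, mul_assoc, hv3q', mul_zero, sub_self, sub_zero]
  have hgv : g * v3 = 0 := by
    rw [hg, sub_mul, sub_mul, hRv3, hq'v3, mul_assoc, hv3, hv3y, sub_zero, sub_self]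
  have hgZ : g * Z = 0 := by rw [hZ3, ← mul_assoc, hgv, zero_mul]
  have hgR : g * R = g := by
    have e1 : q' * R = q' := by
      have := congrArg star hRq'
      rwa [star_mul, hq's, hRs] at this
    have e2 : star v3 * R = star v3 := by
      have := congrArg star hRv3
      rwa [star_mul, hRs] at this
    rw [hg, sub_mul, sub_mul, hRR, e1, mul_assoc, e2]
  have hST : star Ti * star T = 1 := by rw [← star_mul, hTT, star_one]
  have hqT : q * star T = q * star T * q' := by
    have := congrArg star hTq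
    rw [star_mul, star_mul, star_mul, hq's, hq.2] at this
    exact this
  have hg1 : g = g * star Ti * (q * star T) := by
    calc g = g * R * (star Ti * star T) := by rw [hST, mul_one, hgR]
      _ = g * (R * star Ti) * star T := by simp only [mul_assoc]
      _ = g * (star Ti * (q + y)) * star T := by rw [hRS, hR]
      _ = g * star Ti * (q * star T) + g * (star Ti * y) * star T := by
          simp only [mul_add, add_mul, mul_assoc]
      _ = g * star Ti * (q * star T) := by rw [← hZ, hgZ, zero_mul, add_zero]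
  have hg2 : g = g * q' := by
    calc g = g * star Ti * (q * star T) := hg1
      _ = g * star Ti * (q * star T) * q' := by
          nth_rw 1 [hqT]
          simp only [mul_assoc]
      _ = g * q' := by rw [← hg1]
  have hg0 : g = 0 := by rw [hg2, hgq]
  refine ⟨v1, v2, v3, hv1, hpv, hv2, hPv, hv3, ?_⟩
  have e1 : v3 * star v3 = R - q' := by
    rw [hg] at hg0
    exact (sub_eq_zero.1 hg0).symm
  rw [e1, hR', hq']
  abel

end Pool.Agent.H.MP_8be301_an.DP
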