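import Pool.Agent.H.MP_8be301_an.DP.VB
import Pool.Agent.H.MP_8be301_an.DP.Thr
import Pool.Agent.H.MP_8be301_an.DP.Tl

/-!
# The refinement of two projections of the algebra  (module Ref1)

`Y = cl Y₀`, `P = cl P₀` (`cl_surj`), `v` with `v* v = diag (q, Y₀)`, `v v* = diag (p, P₀)` (`cl_add`, `cl_eq`; index types `Unit ⊕ Fin n`,
`Unit ⊕ Fin m`). In `B = CStarMatrix (Unit ⊕ Fin n) (Unit ⊕ Fin n) A` (a `CStarAlgebra` with order instances once `A` has them; use `let _ := CStarAlgebra.spectralOrder A`,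
`have := CStarAlgebra.spectralOrderedRing A` in the proof; `CStarMatrix` is a copy of `Matrix`, its star is the conjugate transpose): `q^ = diag (q, 0)`, `y^ = diag (0, Y₀)`,
`p^ = v* diag (p, 0) v`, `P^ = v* diag (0, P₀) v`. `a = star v₀₀ * v₀₀`, `v₀₀ = v (inl ()) (inl ())`: `0 ≤ a ≤ q` because
`∑_k star v_k0 * v_k0 = q`, and `q^ p^ q^ = diag (a, 0)`, `q^ P^ q^ = diag (q - a, 0)`. `e` from `thr` for `a`, `e^ = diag (e, 0)`; `h1`, `h2` of
`lemT` hold in the corner, transported by `x ↦ diag (x, 0)` (a star homomorphism `A → B` without unit; it preserves `≤`). With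
`v1 v2 v3` of `lemT`: `a := e`, `b := q - e`. `v v1 v1* v* ≤ diag (p, 0)` is `diag (p₁, 0)`, `p₁` a projection of `A`, `p₁ ≤ p`, equivalent to
`e`; `c = p - p₁`. `P₂ = v v2 v2* v* ≤ diag (0, P₀)` is equivalent to `q - e`, `D = cl (diag (0, P₀) - P₂)`. `Y = cl y^ =
cl ((p^ - v1 v1*) + (P^ - v2 v2*)) = c1 c + D`.
-/

set_option autoImplicit false
set_option linter.unusedSectionVars false

namespace Pool.Agent.H.MP_8be301_an.DP

open Matrix Pool.Agent.H.MP_8be301_an.RD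

variable {A : Type*} [CStarAlgebra A]

section

variable {ι κ μ : Type*} [Fintype ι] [Fintype κ] [Fintype μ]

/-- `lemT` for matrices -/
theorem Ref1_lemT [DecidableEq κ] {q y p P e : Matrix κ κ A}
    (hq : IsP q) (hy : IsP y) (hp : IsP p) (hP : IsP P) (he : IsP e) (hqy : q * y = 0)
    (hpP : p * P = 0) (h : q + y = p + P) (heq : q * e = e)
    (h1 : ∃ z : Matrix κ κ A, (3 / 4 : ℝ) • e - e * P * e = zᴴ * z)
    (h2 : ∃ z : Matrix κ κ A, (3 / 4 : ℝ) • (q - e) - (q - e) * p * (q - e) = zᴴ * z) :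
    ∃ v1 v2 v3 : Matrix κ κ A, v1ᴴ * v1 = e ∧ p * v1 = v1 ∧ v2ᴴ * v2 = q - e ∧ P * v2 = v2 ∧
      v3ᴴ * v3 = y ∧ v3 * v3ᴴ = (p - v1 * v1ᴴ) + (P - v2 * v2ᴴ) := by
  let _ := CStarAlgebra.spectralOrder A
  have := CStarAlgebra.spectralOrderedRing A
  obtain ⟨z1, hz1⟩ := h1
  obtain ⟨z2, hz2⟩ := h2
  let B := CStarMatrix κ κ A
  have k1 : (show B from e) * (show B from P) * (show B from e) ≤
      (3 / 4 : ℝ) • (show B from e) := by
    rw [← sub_nonneg]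
    have : (3 / 4 : ℝ) • (show B from e) - (show B from e) * (show B from P) * (show B from e)
      = star (show B from z1) * (show B from z1) := hz1
    rw [this]
    exact star_mul_self_nonneg _
  have k2 : ((show B from q) - (show B from e)) * (show B from p) *
      ((show B from q) - (show B from e)) ≤
      (3 / 4 : ℝ) • ((show B from q) - (show B from e)) := by
    rw [← sub_nonneg]
    have : (3 / 4 : ℝ) • ((show B from q) - (show B from e)) -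
      ((show B from q) - (show B from e)) * (show B from p) *
      ((show B from q) - (show B from e))
      = star (show B from z2) * (show B from z2) := hz2
    rw [this]
    exact star_mul_self_nonneg _
  exact lemT (B := CStarMatrix κ κ A) (q := q) (y := y) (p := p) (P := P) (e := e) hq hy hp hP he
    hqy hpP h heq k1 k2

/-- a matrix with zero square is zero -/
theorem Ref1_zero {Z : Matrix κ μ A} (h : Zᴴ * Z = 0) : Z = 0 := by
  let _ := CStarAlgebra.spectralOrder A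
  have := CStarAlgebra.spectralOrderedRing A
  ext i j
  have h1 := congrFun (congrFun h j) j
  rw [mul_apply] at h1
  simp only [conjTranspose_apply, Matrix.zero_apply] at h1
  have h2 := (Finset.sum_eq_zero_iff_of_nonneg (fun k _ => star_mul_self_nonneg (Z k j))).1 h1 i
    (Finset.mem_univ i)
  simpa using (CStarRing.star_mul_self_eq_zero_iff _).1 h2

/-- isometries of corners -/
theorem Ref1_pi {u : Matrix κ μ A} {P : Matrix μ μ A} (hP : IsP P) (h : uᴴ * u = P) :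
    u * P = u := by
  have : (u - u * P)ᴴ * (u - u * P) = 0 := by
    rw [conjTranspose_sub, conjTranspose_mul, hP.2, Matrix.sub_mul, Matrix.mul_sub,
      Matrix.mul_sub, h, ← Matrix.mul_assoc uᴴ u P, h, Matrix.mul_assoc P uᴴ u, h, hP.1,
      Matrix.mul_assoc P uᴴ (u * P), ← Matrix.mul_assoc uᴴ u P, h, hP.1, hP.1]
    simp
  exact (sub_eq_zero.1 (Ref1_zero this)).symm

theorem Ref1_pi2 {u : Matrix κ μ A} {P : Matrix μ μ A} (hP : IsP P) (h : uᴴ * u = P) :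
    IsP (u * uᴴ) := by
  constructor
  · rw [Matrix.mul_assoc, ← Matrix.mul_assoc uᴴ, h, ← Matrix.mul_assoc, Ref1_pi hP h]
  · rw [conjTranspose_mul, conjTranspose_conjTranspose]

/-- one entry -/
def Ref1_E (x : A) : Matrix Unit Unit A := of fun _ _ => x

theorem Ref1_E_mul (x y : A) : Ref1_E (x * y) = Ref1_E x * Ref1_E y := by
  ext i j; simp [Ref1_E, mul_apply]

theorem Ref1_E_add (x y : A) : Ref1_E (x + y) = Ref1_E x + Ref1_E y := rfl

theorem Ref1_E_sub (x y : A) : Ref1_E (x - y) = Ref1_E x - Ref1_E y := rfl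

theorem Ref1_E_star (x : A) : Ref1_E (star x) = (Ref1_E x)ᴴ := rfl

theorem Ref1_E_smul (r : ℝ) (x : A) : Ref1_E (r • x) = r • Ref1_E x := rfl

theorem Ref1_E_zero : Ref1_E (0 : A) = 0 := rfl

theorem Ref1_E_inj {x y : A} (h : Ref1_E x = Ref1_E y) : x = y := congrFun (congrFun h ()) ()

variable (ι) in
/-- one entry in the corner -/
def Ref1_J (x : A) : Matrix (Unit ⊕ ι) (Unit ⊕ ι) A := fromBlocks (Ref1_E x) 0 0 0

theorem Ref1_J_mul (x y : A) : Ref1_J ι (x * y) = Ref1_J ι x * Ref1_J ι y := by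
  simp [Ref1_J, fromBlocks_multiply, Ref1_E_mul]

theorem Ref1_J_sub (x y : A) : Ref1_J ι (x - y) = Ref1_J ι x - Ref1_J ι y := by
  ext i j
  rcases i with i | i <;> rcases j with j | j <;> simp [Ref1_J, Ref1_E]

theorem Ref1_J_star (x : A) : Ref1_J ι (star x) = (Ref1_J ι x)ᴴ := by
  simp [Ref1_J, fromBlocks_conjTranspose, Ref1_E_star]

theorem Ref1_J_smul (r : ℝ) (x : A) : Ref1_J ι (r • x) = r • Ref1_J ι x := by
  simp [Ref1_J, fromBlocks_smul, Ref1_E_smul]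

theorem Ref1_J_inj {x y : A} (h : Ref1_J ι x = Ref1_J ι y) : x = y :=
  congrFun (congrFun h (Sum.inl ())) (Sum.inl ())

/-- corners -/
theorem Ref1_J_con (x y : A) (X : Matrix (Unit ⊕ ι) (Unit ⊕ ι) A) :
    Ref1_J ι x * X * Ref1_J ι y = Ref1_J ι (x * X (Sum.inl ()) (Sum.inl ()) * y) := by
  conv_lhs => rw [← fromBlocks_toBlocks X]
  simp only [Ref1_J, fromBlocks_multiply, Matrix.zero_mul, Matrix.mul_zero, add_zero,
    Ref1_E_mul]
  congr 1

theorem Ref1_J_isP {x : A} (h : Pj x) : IsP (Ref1_J ι x) :=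
  ⟨by rw [← Ref1_J_mul, h.1], by rw [← Ref1_J_star, h.2]⟩

theorem Ref1_J_pj {x : A} (h : IsP (Ref1_J ι x)) : Pj x :=
  ⟨Ref1_J_inj (ι := ι) (by rw [Ref1_J_mul, h.1]), Ref1_J_inj (ι := ι) (by rw [Ref1_J_star, h.2])⟩

theorem Ref1_cong {P Q : Matrix κ κ A} (hP : IsP P) (hQ : IsP Q) (h : P = Q) :
    cl P hP = cl Q hQ := by
  subst h; rfl

theorem Ref1_c1 {x : A} (h : Pj x) : c1 x = cl (Ref1_J ι x) (Ref1_J_isP h) := by
  have h1 : c1 x + cl (0 : Matrix ι ι A) (IsP_zero ι) = cl (Ref1_J ι x) (Ref1_J_isP h) := by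
    rw [c1_eq h, cl_add]; rfl
  rw [← h1, cl_zero, add_zero]

/-- the matrix `P` in the second corner -/
def Ref1_K (P : Matrix ι ι A) : Matrix (Unit ⊕ ι) (Unit ⊕ ι) A := fromBlocks 0 0 0 P

theorem Ref1_K_isP {P : Matrix ι ι A} (h : IsP P) : IsP (Ref1_K P) :=
  ⟨by simp [Ref1_K, fromBlocks_multiply, h.1],
    by simp [Ref1_K, fromBlocks_conjTranspose, h.2]⟩

theorem Ref1_K_inj {P Q : Matrix ι ι A} (h : Ref1_K P = Ref1_K Q) : P = Q := by
  have := congrArg toBlocks₂₂ h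
  simpa [Ref1_K] using this

theorem Ref1_K_sub (P Q : Matrix ι ι A) : Ref1_K (P - Q) = Ref1_K P - Ref1_K Q := by
  ext i j
  rcases i with i | i <;> rcases j with j | j <;> simp [Ref1_K]

theorem Ref1_K_mul (P Q : Matrix ι ι A) : Ref1_K (P * Q) = Ref1_K P * Ref1_K Q := by
  simp [Ref1_K, fromBlocks_multiply]

theorem Ref1_K_star (P : Matrix ι ι A) : Ref1_K Pᴴ = (Ref1_K P)ᴴ := by
  simp [Ref1_K, fromBlocks_conjTranspose]

theorem Ref1_K_con (P Q : Matrix ι ι A) (X : Matrix (Unit ⊕ ι) (Unit ⊕ ι) A) :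
    Ref1_K P * X * Ref1_K Q = Ref1_K (P * X.toBlocks₂₂ * Q) := by
  conv_lhs => rw [← fromBlocks_toBlocks X]
  simp [Ref1_K, fromBlocks_multiply]

theorem Ref1_K_isP' {P : Matrix ι ι A} (h : IsP (Ref1_K P)) : IsP P :=
  ⟨Ref1_K_inj (by rw [Ref1_K_mul, h.1]), Ref1_K_inj (by rw [Ref1_K_star, h.2])⟩

theorem Ref1_cK {P : Matrix ι ι A} (h : IsP P) : cl P h = cl (Ref1_K P) (Ref1_K_isP h) := by
  have h1 : cl (0 : Matrix Unit Unit A) (IsP_zero Unit) + cl P h =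
      cl (Ref1_K P) (Ref1_K_isP h) := by
    rw [cl_add]; rfl
  rw [← h1, cl_zero, zero_add]

theorem Ref1_JK (x : A) (P : Matrix ι ι A) : Ref1_J ι x * Ref1_K P = 0 := by
  simp [Ref1_J, Ref1_K, fromBlocks_multiply]

theorem Ref1_KJ (x : A) (P : Matrix ι ι A) : Ref1_K P * Ref1_J ι x = 0 := by
  simp [Ref1_J, Ref1_K, fromBlocks_multiply]

theorem Ref1_JaK (x : A) (P : Matrix ι ι A) :
    Ref1_J ι x + Ref1_K P = fromBlocks (Ref1_E x) 0 0 P := by
  simp [Ref1_J, Ref1_K, fromBlocks_add]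

theorem Ref1_clJK {x : A} {P : Matrix ι ι A} (hx : Pj x) (hP : IsP P)
    (h : IsP (Ref1_J ι x + Ref1_K P)) : cl (Ref1_J ι x + Ref1_K P) h = c1 x + cl P hP := by
  rw [c1_eq hx, cl_add]
  exact Ref1_cong _ _ (Ref1_JaK x P)

end

/-- the last step: from the three isometries to the refinement -/
theorem Ref1_fin {ι κ : Type*} [Fintype ι] [Fintype κ] {q p e : A} (hq : Pj q) (hp : Pj p)
    (he : Pj e) (hqe : q * e = e) {Y₀ : Matrix ι ι A} (hY : IsP Y₀)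
    {P₀ : Matrix κ κ A} (hP : IsP P₀) {v : Matrix (Unit ⊕ κ) (Unit ⊕ ι) A}
    (hv2 : v * vᴴ = Ref1_J κ p + Ref1_K P₀)
    {w1 w2 w3 : Matrix (Unit ⊕ ι) (Unit ⊕ ι) A} (hw1 : w1ᴴ * w1 = Ref1_J ι e)
    (hw1' : (vᴴ * Ref1_J κ p * v) * w1 = w1) (hw2 : w2ᴴ * w2 = Ref1_J ι q - Ref1_J ι e)
    (hw2' : (vᴴ * Ref1_K P₀ * v) * w2 = w2) (hw3 : w3ᴴ * w3 = Ref1_K Y₀)
    (hw3' : w3 * w3ᴴ = (vᴴ * Ref1_J κ p * v - w1 * w1ᴴ) + (vᴴ * Ref1_K P₀ * v - w2 * w2ᴴ)) :
    ∃ (a b c : A) (D : VA A), Pj a ∧ Pj b ∧ Pj c ∧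
      c1 q = c1 a + c1 b ∧ c1 p = c1 a + c1 c ∧ cl P₀ hP = c1 b + D ∧
      cl Y₀ hY = c1 c + D := by
  set J := Ref1_J κ p with hJ
  set K := Ref1_K P₀ with hK
  have iJ : IsP J := Ref1_J_isP hp
  have iK : IsP K := Ref1_K_isP hP
  have hJK : J * K = 0 := Ref1_JK p P₀
  have hKJ : K * J = 0 := Ref1_KJ p P₀
  set p' := vᴴ * J * v with hp'
  set P' := vᴴ * K * v with hP'
  have vp : v * p' = J * v := by
    rw [hp', ← Matrix.mul_assoc, ← Matrix.mul_assoc, hv2, Matrix.add_mul, iJ.1, hKJ, add_zero]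
  have vP : v * P' = K * v := by
    rw [hP', ← Matrix.mul_assoc, ← Matrix.mul_assoc, hv2, Matrix.add_mul, iK.1, hJK, zero_add]
  have Rp : vᴴ * v * p' = p' := by rw [Matrix.mul_assoc, vp, ← Matrix.mul_assoc]
  have RP : vᴴ * v * P' = P' := by rw [Matrix.mul_assoc, vP, ← Matrix.mul_assoc]
  -- the matrices `v w`
  have Rw1 : vᴴ * v * w1 = w1 := by
    conv_lhs => rw [← hw1']
    rw [← Matrix.mul_assoc, Rp, hw1']
  have Rw2 : vᴴ * v * w2 = w2 := by
    conv_lhs => rw [← hw2']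
    rw [← Matrix.mul_assoc, RP, hw2']
  have Rww : vᴴ * v * (w3 * w3ᴴ) = w3 * w3ᴴ := by
    rw [hw3', Matrix.mul_add, Matrix.mul_sub, Matrix.mul_sub, Rp, RP, ← Matrix.mul_assoc _ w1,
      ← Matrix.mul_assoc _ w2, Rw1, Rw2]
  have iY : IsP (Ref1_K Y₀) := Ref1_K_isP hY
  have w3K : w3 * w3ᴴ * w3 = w3 := by
    rw [Matrix.mul_assoc, hw3, Ref1_pi iY hw3]
  have Rw3 : vᴴ * v * w3 = w3 := by
    conv_lhs => rw [← w3K]
    rw [← Matrix.mul_assoc, Rww, w3K]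
  have sq : ∀ w : Matrix (Unit ⊕ ι) (Unit ⊕ ι) A, vᴴ * v * w = w →
      (v * w)ᴴ * (v * w) = wᴴ * w := by
    intro w hw
    rw [conjTranspose_mul, Matrix.mul_assoc, ← Matrix.mul_assoc vᴴ, hw]
  have u1J : J * (v * w1) = v * w1 := by
    rw [← Matrix.mul_assoc, ← vp, Matrix.mul_assoc, hw1']
  have u2K : K * (v * w2) = v * w2 := by
    rw [← Matrix.mul_assoc, ← vP, Matrix.mul_assoc, hw2']
  have ie : IsP (Ref1_J ι e) := Ref1_J_isP he
  have heq : e * q = e := by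
    have := congrArg star hqe
    rwa [star_mul, he.2, hq.2] at this
  have hqe' : Pj (q - e) := by
    refine ⟨?_, by rw [star_sub, hq.2, he.2]⟩
    rw [mul_sub, sub_mul, sub_mul, hq.1, hqe, heq, he.1]
    abel
  have iqe : IsP (Ref1_J ι (q - e)) := Ref1_J_isP hqe'
  have s1 : (v * w1)ᴴ * (v * w1) = Ref1_J ι e := by rw [sq _ Rw1, hw1]
  have s2 : (v * w2)ᴴ * (v * w2) = Ref1_J ι (q - e) := by rw [sq _ Rw2, hw2, Ref1_J_sub]
  have s3 : (v * w3)ᴴ * (v * w3) = Ref1_K Y₀ := by rw [sq _ Rw3, hw3]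
  -- the projection `p₁`
  obtain ⟨p₁, t1⟩ : ∃ p₁ : A, (v * w1) * (v * w1)ᴴ = Ref1_J κ p₁ ∧ p * p₁ = p₁ := by
    refine ⟨p * ((v * w1) * (v * w1)ᴴ) (Sum.inl ()) (Sum.inl ()) * p, ?_, ?_⟩
    · rw [← Ref1_J_con, ← hJ]
      have : (v * w1)ᴴ * J = (v * w1)ᴴ := by
        have := congrArg conjTranspose u1J
        rwa [conjTranspose_mul, iJ.2] at this
      rw [← Matrix.mul_assoc J, u1J, Matrix.mul_assoc (v * w1) _ J, this]
    · rw [← mul_assoc, ← mul_assoc, hp.1]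
  obtain ⟨t1, t1'⟩ := t1
  obtain ⟨P₁, t2, t2'⟩ : ∃ P₁ : Matrix κ κ A, (v * w2) * (v * w2)ᴴ = Ref1_K P₁ ∧
      P₀ * P₁ = P₁ := by
    refine ⟨P₀ * ((v * w2) * (v * w2)ᴴ).toBlocks₂₂ * P₀, ?_, ?_⟩
    · rw [← Ref1_K_con, ← hK]
      have : (v * w2)ᴴ * K = (v * w2)ᴴ := by
        have := congrArg conjTranspose u2K
        rwa [conjTranspose_mul, iK.2] at this
      rw [← Matrix.mul_assoc K, u2K, Matrix.mul_assoc (v * w2) _ K, this]
    · rw [← Matrix.mul_assoc, ← Matrix.mul_assoc, hP.1]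
  have ip₁ : Pj p₁ := Ref1_J_pj (by rw [← t1]; exact Ref1_pi2 ie s1)
  have iP₁ : IsP P₁ := Ref1_K_isP' (by rw [← t2]; exact Ref1_pi2 iqe s2)
  have t1'' : p₁ * p = p₁ := by
    have := congrArg star t1'
    rwa [star_mul, ip₁.2, hp.2] at this
  have t2'' : P₁ * P₀ = P₁ := by
    have := congrArg conjTranspose t2'
    rwa [conjTranspose_mul, iP₁.2, hP.2] at this
  have ic : Pj (p - p₁) := by
    refine ⟨?_, by rw [star_sub, hp.2, ip₁.2]⟩
    rw [mul_sub, sub_mul, sub_mul, hp.1, t1', t1'', ip₁.1]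
    abel
  have iD : IsP (P₀ - P₁) := by
    refine ⟨?_, by rw [conjTranspose_sub, hP.2, iP₁.2]⟩
    rw [Matrix.mul_sub, Matrix.sub_mul, Matrix.sub_mul, hP.1, t2', t2'', iP₁.1]
    abel
  refine ⟨e, q - e, p - p₁, cl (P₀ - P₁) iD, he, hqe', ic, ?_, ?_, ?_, ?_⟩
  · rw [← c1_add he hqe' (by rw [mul_sub, heq, he.1, sub_self]), add_sub_cancel]
  · have h1 : c1 e = c1 p₁ := by
      rw [Ref1_c1 (ι := ι) he, Ref1_c1 (ι := κ) ip₁]
      exact (cl_eq _ _).2 ⟨v * w1, s1, t1⟩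
    rw [h1, ← c1_add ip₁ ic (by rw [mul_sub, t1'', ip₁.1, sub_self]), add_sub_cancel]
  · have h1 : c1 (q - e) = cl P₁ iP₁ := by
      rw [Ref1_c1 (ι := ι) hqe', Ref1_cK iP₁]
      exact (cl_eq _ _).2 ⟨v * w2, s2, t2⟩
    have h2 : IsP (P₁ + (P₀ - P₁)) := by rw [add_sub_cancel]; exact hP
    rw [h1, ← cl_orth iP₁ iD (by rw [Matrix.mul_sub, t2'', iP₁.1, sub_self]) h2]
    exact Ref1_cong _ _ (add_sub_cancel _ _).symm
  · have h3 : (v * w3) * (v * w3)ᴴ = Ref1_J κ (p - p₁) + Ref1_K (P₀ - P₁) := by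
      have k1 : v * p' * vᴴ = J := by
        rw [vp, Matrix.mul_assoc, hv2, Matrix.mul_add, iJ.1, hJK, add_zero]
      have k2 : v * P' * vᴴ = K := by
        rw [vP, Matrix.mul_assoc, hv2, Matrix.mul_add, iK.1, hKJ, zero_add]
      have k3 : ∀ w : Matrix (Unit ⊕ ι) (Unit ⊕ ι) A, (v * w) * (v * w)ᴴ = v * (w * wᴴ) * vᴴ := by
        intro w
        rw [conjTranspose_mul, ← Matrix.mul_assoc, ← Matrix.mul_assoc]
      rw [k3, hw3', Matrix.mul_add, Matrix.mul_sub, Matrix.mul_sub, Matrix.add_mul,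
        Matrix.sub_mul, Matrix.sub_mul, k1, k2, ← k3, ← k3, t1, t2, Ref1_J_sub, Ref1_K_sub]
    have h4 : IsP (Ref1_J κ (p - p₁) + Ref1_K (P₀ - P₁)) := by
      rw [← h3]; exact Ref1_pi2 iY s3
    rw [← Ref1_clJK ic iD h4, Ref1_cK hY]
    exact (cl_eq _ _).2 ⟨v * w3, s3, h3⟩

theorem ref1 (h0 : RR0 A) {q p : A} (hq : Pj q) (hp : Pj p) {Y P : VA A}
    (h : c1 q + Y = c1 p + P) : ∃ (a b c : A) (D : VA A), Pj a ∧ Pj b ∧ Pj c ∧
      c1 q = c1 a + c1 b ∧ c1 p = c1 a + c1 c ∧ P = c1 b + D ∧ Y = c1 c + D := by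
  obtain ⟨n, Y₀, hY, rfl⟩ := cl_surj Y
  obtain ⟨m, P₀, hP, rfl⟩ := cl_surj P
  rw [c1_eq hq, c1_eq hp, cl_add, cl_add] at h
  obtain ⟨v, hv1, hv2⟩ := (cl_eq _ _).1 h
  replace hv1 : vᴴ * v = Ref1_J (Fin n) q + Ref1_K Y₀ := hv1.trans (Ref1_JaK _ _).symm
  replace hv2 : v * vᴴ = Ref1_J (Fin m) p + Ref1_K P₀ := hv2.trans (Ref1_JaK _ _).symm
  set J := Ref1_J (Fin m) p with hJ
  set K := Ref1_K P₀ with hK
  have iJ : IsP J := Ref1_J_isP hp
  have iK : IsP K := Ref1_K_isP hP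
  have hJK : J * K = 0 := Ref1_JK p P₀
  have hKJ : K * J = 0 := Ref1_KJ p P₀
  set p' := vᴴ * J * v with hp'
  set P' := vᴴ * K * v with hP'
  have vp : v * p' = J * v := by
    rw [hp', ← Matrix.mul_assoc, ← Matrix.mul_assoc, hv2, Matrix.add_mul, iJ.1, hKJ, add_zero]
  have vP : v * P' = K * v := by
    rw [hP', ← Matrix.mul_assoc, ← Matrix.mul_assoc, hv2, Matrix.add_mul, iK.1, hJK, zero_add]
  have ip' : IsP p' := by
    constructor
    · conv_lhs => rw [hp']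
      rw [Matrix.mul_assoc, vp, ← Matrix.mul_assoc, Matrix.mul_assoc vᴴ J J, iJ.1]
    · rw [hp', conjTranspose_mul, conjTranspose_mul, conjTranspose_conjTranspose, iJ.2,
        Matrix.mul_assoc]
  have iP' : IsP P' := by
    constructor
    · conv_lhs => rw [hP']
      rw [Matrix.mul_assoc, vP, ← Matrix.mul_assoc, Matrix.mul_assoc vᴴ K K, iK.1]
    · rw [hP', conjTranspose_mul, conjTranspose_mul, conjTranspose_conjTranspose, iK.2,
        Matrix.mul_assoc]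
  have hpP : p' * P' = 0 := by
    rw [hp', Matrix.mul_assoc, vP, ← Matrix.mul_assoc, Matrix.mul_assoc vᴴ J K, hJK]
    simp
  have iq : IsP (Ref1_J (Fin n) q) := Ref1_J_isP hq
  have iY : IsP (Ref1_K Y₀) := Ref1_K_isP hY
  have hsum : Ref1_J (Fin n) q + Ref1_K Y₀ = p' + P' := by
    have : p' + P' = (vᴴ * v) * (vᴴ * v) := by
      rw [hp', hP', ← Matrix.add_mul, ← Matrix.mul_add, ← hv2]
      simp only [Matrix.mul_assoc]
    rw [this, hv1, Matrix.mul_add, Matrix.add_mul, Matrix.add_mul, iq.1, iY.1, Ref1_JK,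
      Ref1_KJ, add_zero, zero_add]
  let _ := CStarAlgebra.spectralOrder A
  have := CStarAlgebra.spectralOrderedRing A
  -- the entries
  set x := p' (Sum.inl ()) (Sum.inl ()) with hx
  set y := P' (Sum.inl ()) (Sum.inl ()) with hy
  have hxy : q = x + y := by
    have := congrFun (congrFun hsum (Sum.inl ())) (Sum.inl ())
    simpa [Ref1_J, Ref1_K, Ref1_E] using this
  have nn : ∀ L : Matrix (Unit ⊕ Fin m) (Unit ⊕ Fin m) A, IsP L →
      0 ≤ (vᴴ * L * v) (Sum.inl ()) (Sum.inl ()) := by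
    intro L hL
    have : vᴴ * L * v = (L * v)ᴴ * (L * v) := by
      rw [conjTranspose_mul, hL.2, Matrix.mul_assoc, Matrix.mul_assoc, ← Matrix.mul_assoc L L,
        hL.1]
    rw [this, mul_apply]
    exact Finset.sum_nonneg fun k _ => by
      rw [conjTranspose_apply]
      exact star_mul_self_nonneg _
  have nx : 0 ≤ x := nn J iJ
  have ny : 0 ≤ y := nn K iK
  have cj : ∀ z : A, 0 ≤ z → 0 ≤ q * z * q := by
    intro z hz
    have := star_left_conjugate_nonneg hz q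
    rwa [hq.2] at this
  have hqa : q - q * x * q = q * y * q := by
    calc q - q * x * q = q * (x + y) * q - q * x * q := by rw [← hxy, hq.1, hq.1]
      _ = q * y * q := by rw [mul_add, add_mul]; abel
  have haq : q * x * q ≤ q := by rw [← sub_nonneg, hqa]; exact cj y ny
  obtain ⟨e, he, hqe, h1, h2⟩ := thr h0 hq (cj x nx) haq
  have heq : e * q = e := by
    have := congrArg star hqe
    rwa [star_mul, he.2, hq.2] at this
  have g1 : (3 / 4 : ℝ) • e - e * y * e = e * (q * x * q) * e - (1 / 4 : ℝ) • e := by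
    have k1 : e * (q * x * q) * e = e * x * e := by
      rw [← mul_assoc, ← mul_assoc, heq, mul_assoc _ q e, hqe]
    have k2 : e * y * e = e - e * x * e := by
      have : e * x * e + e * y * e = e := by
        rw [← add_mul, ← mul_add, ← hxy, heq, he.1]
      rw [eq_sub_iff_add_eq, add_comm]
      exact this
    rw [k1, k2]
    module
  have g2 : (q - e) * (q * x * q) * (q - e) = (q - e) * x * (q - e) := by
    have k1 : (q - e) * q = q - e := by rw [sub_mul, hq.1, heq]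
    have k2 : q * (q - e) = q - e := by rw [mul_sub, hq.1, hqe]
    rw [← mul_assoc, ← mul_assoc, k1, mul_assoc _ q, k2]
  obtain ⟨z1, hz1⟩ := CStarAlgebra.nonneg_iff_eq_star_mul_self.1 (sub_nonneg.2 h1)
  obtain ⟨z2, hz2⟩ := CStarAlgebra.nonneg_iff_eq_star_mul_self.1 (sub_nonneg.2 h2)
  obtain ⟨w1, w2, w3, hw1, hw1', hw2, hw2', hw3, hw3'⟩ := Ref1_lemT iq iY ip' iP'
    (Ref1_J_isP (ι := Fin n) he) (Ref1_JK _ _) hpP hsum (by rw [← Ref1_J_mul, hqe])
    ⟨Ref1_J (Fin n) z1, by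
      rw [Ref1_J_con, ← Ref1_J_smul, ← Ref1_J_sub, ← Ref1_J_star, ← Ref1_J_mul, ← hy, g1, hz1]⟩
    ⟨Ref1_J (Fin n) z2, by
      rw [← Ref1_J_sub, Ref1_J_con, ← Ref1_J_smul, ← Ref1_J_sub, ← Ref1_J_star, ← Ref1_J_mul,
        ← hx, ← g2, hz2]⟩
  exact Ref1_fin hq hp he hqe hY hP hv2 hw1 hw1' hw2 hw2' hw3 hw3'

end Pool.Agent.H.MP_8be301_an.DP
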