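import Pool.Agent.H.MP_8be301_an.DP.LimW
import Pool.Agent.H.MP_8be301_an.RD.Conn

/-!
# Towers give displaced partitions  (module RokD)

`Rok` for `m = 2`: `N l ≥ 2`. The pieces are indexed by the pairs `(l, i)`, `i < N l` (`finSigmaFinEquiv`, or `Fintype.equivFin` of the
sigma type): `g (l, i) = β l i (g l)`, displaced by `β l j ∘ (β l i)⁻¹` with `j = 1` if `i = 0`, `j = 0` otherwise. `triv_comp`, `triv_symm`:
`Mvn.trans`, `Mvn.symm` of RD/Conn. `(β l j ∘ (β l i)⁻¹) (β l i (g l)) = β l j (g l)`. Automorphisms are isometric.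
-/

set_option autoImplicit false

namespace Pool.Agent.H.MP_8be301_an.DP

open Pool.Agent.H.MP_8be301_an.RD

variable {A : Type*} [CStarAlgebra A]

theorem RokD_pj (α : A ≃⋆ₐ[ℂ] A) {p : A} (hp : Pj p) : Pj (α p) :=
  ⟨by rw [← map_mul, hp.1], by rw [← map_star, hp.2]⟩

theorem triv_comp {α β : A ≃⋆ₐ[ℂ] A} (h : Triv α) (h' : Triv β) : Triv (α.trans β) := by
  intro p hp
  have h1 := RokD_pj α hp
  exact Mvn.trans hp h1 (RokD_pj β h1) (h p hp) (h' (α p) h1)

theorem triv_symm {α : A ≃⋆ₐ[ℂ] A} (h : Triv α) : Triv α.symm := by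
  intro p hp
  have h1 := RokD_pj α.symm hp
  have h2 := h (α.symm p) h1
  rw [StarAlgEquiv.apply_symm_apply] at h2
  exact h2.symm

/-- the index of the displaced piece -/
def RokD_j (i : ℕ) : ℕ := if i = 0 then 1 else 0

theorem RokD_ne (i : ℕ) : i ≠ RokD_j i := by
  unfold RokD_j
  split_ifs with h
  · omega
  · exact h

theorem RokD_lt (i : ℕ) {n : ℕ} (hn : 2 ≤ n) : RokD_j i < n := by
  unfold RokD_j
  split_ifs with h <;> omega

theorem displ_of_rok (h : Rok A) : Displ A := by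
  obtain ⟨d, h⟩ := h
  obtain ⟨N, β, hN, hβ, h⟩ := h 2
  let e : ((l : Fin d) × Fin (N l)) ≃ Fin (∑ l, N l) := finSigmaFinEquiv
  refine ⟨∑ l, N l, fun k => ((β (e.symm k).1 (e.symm k).2).symm).trans
    (β (e.symm k).1 (RokD_j (e.symm k).2)), fun k => triv_comp (triv_symm (hβ _ _)) (hβ _ _), ?_⟩
  intro F ε hε
  obtain ⟨g, h1, h2, h3, h4⟩ := h F ε hε
  have hval : ∀ (l : Fin d) (i j : ℕ),
      (((β l i).symm).trans (β l j)) (β l i (g l)) = β l j (g l) := by
    intro l i j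
    rw [StarAlgEquiv.trans_apply, StarAlgEquiv.symm_apply_apply]
  refine ⟨fun k => β (e.symm k).1 (e.symm k).2 (g (e.symm k).1), ?_, ?_, ?_, ?_⟩
  · intro k
    refine ⟨(h1 _).1.map _, ?_⟩
    exact (NonUnitalStarAlgHom.norm_apply_le (β (e.symm k).1 (e.symm k).2) _).trans (h1 _).2
  · intro k a ha
    refine ⟨h2 _ _ (e.symm k).2.2 a ha, ?_⟩
    rw [hval]
    exact h2 _ _ (RokD_lt _ (hN _)) a ha
  · intro k
    rw [hval]
    exact h3 _ _ (e.symm k).2.2 _ (RokD_lt _ (hN _)) (RokD_ne _)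
  · have hs : ∑ k, β (e.symm k).1 (e.symm k).2 (g (e.symm k).1) =
        ∑ l, ∑ i ∈ Finset.range (N l), β l i (g l) := by
      rw [Equiv.sum_comp e.symm (fun s : (l : Fin d) × Fin (N l) => β s.1 s.2 (g s.1)),
        Fintype.sum_sigma]
      apply Finset.sum_congr rfl
      intro l _
      rw [Finset.sum_range]
    rw [hs]
    exact h4

end Pool.Agent.H.MP_8be301_an.DP
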