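import Pool.Agent.H.MP_8be301_an.RD.Defs
import Pool.Agent.H.MP_8be301_an.DP.Mon

/-!
# The monoid of the classes of projections in matrix algebras  (module VA)

`MEq P Q`: the projections `P : Matrix ι ι A`, `Q : Matrix κ κ A` are Murray-von Neumann equivalent. `VA A` is the monoid of the
classes; `cl P` is the class of `P` (any finite index type).
`MEq.trans`: `w v`, with `Q v = v` not needed: `v* (w* w) v = v* Q v = v* v v* v = P`. `MEq.sub`: `v = P.submatrix σ.symm id`.
`cl_eq`: from `MEq.sub` and transitivity. `cl_zero`: `v = 0`. `VA_comm`, `VA_assoc`, `VA_zero`: `cl_surj`, `cl_add`, `cl_eq` and `MEq` of a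
matrix and its reindexing (`Equiv.sumComm`, `Equiv.sumAssoc`, `Equiv.emptySum`), or explicit block matrices `v`.
-/

set_option autoImplicit false

namespace Pool.Agent.H.MP_8be301_an.DP

open Matrix Pool.Agent.H.MP_8be301_an.RD

section

variable {A : Type*} [CStarAlgebra A]

/-- projections of matrix algebras -/
def IsP {ι : Type*} [Fintype ι] (P : Matrix ι ι A) : Prop := P * P = P ∧ Pᴴ = P

/-- Murray-von Neumann equivalence -/
def MEq {ι κ : Type*} [Fintype ι] [Fintype κ] (P : Matrix ι ι A) (Q : Matrix κ κ A) : Prop :=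
  ∃ v : Matrix κ ι A, vᴴ * v = P ∧ v * vᴴ = Q

variable {ι κ μ ν : Type*} [Fintype ι] [Fintype κ] [Fintype μ] [Fintype ν]

theorem MEq.refl {P : Matrix ι ι A} (h : IsP P) : MEq P P :=
  ⟨P, by rw [h.2, h.1], by rw [h.2, h.1]⟩

theorem MEq.symm {P : Matrix ι ι A} {Q : Matrix κ κ A} (h : MEq P Q) : MEq Q P := by
  obtain ⟨v, h1, h2⟩ := h
  exact ⟨vᴴ, by rw [conjTranspose_conjTranspose, h2], by rw [conjTranspose_conjTranspose, h1]⟩

theorem MEq.trans {P : Matrix ι ι A} {Q : Matrix κ κ A} {R : Matrix μ μ A} (hP : IsP P)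
    (hR : IsP R) (h : MEq P Q) (h' : MEq Q R) : MEq P R := by
  obtain ⟨v, h1, h2⟩ := h
  obtain ⟨w, h3, h4⟩ := h'
  refine ⟨w * v, ?_, ?_⟩
  · calc (w * v)ᴴ * (w * v) = vᴴ * (wᴴ * w) * v := by
          rw [conjTranspose_mul]
          simp only [Matrix.mul_assoc]
      _ = (vᴴ * v) * (vᴴ * v) := by
          rw [h3, ← h2]
          simp only [Matrix.mul_assoc]
      _ = P := by rw [h1, hP.1]
  · calc (w * v) * (w * v)ᴴ = w * (v * vᴴ) * wᴴ := by
          rw [conjTranspose_mul]
          simp only [Matrix.mul_assoc]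
      _ = (w * wᴴ) * (w * wᴴ) := by
          rw [h2, ← h3]
          simp only [Matrix.mul_assoc]
      _ = R := by rw [h4, hR.1]

theorem IsP.sub {P : Matrix ι ι A} (h : IsP P) (σ : κ ≃ ι) : IsP (P.submatrix σ σ) := by
  constructor
  · rw [submatrix_mul_equiv, h.1]
  · rw [conjTranspose_submatrix, h.2]

theorem MEq.sub {P : Matrix ι ι A} (h : IsP P) (σ : κ ≃ ι) : MEq P (P.submatrix σ σ) := by
  refine ⟨P.submatrix σ id, ?_, ?_⟩
  · rw [conjTranspose_submatrix, h.2, submatrix_mul_equiv, h.1, submatrix_id_id]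
  · rw [conjTranspose_submatrix, h.2]
    have h1 := submatrix_mul_equiv P P (σ : κ → ι) (Equiv.refl ι) (σ : κ → ι)
    rw [h.1] at h1
    exact h1

theorem IsP.blocks {P : Matrix ι ι A} {Q : Matrix κ κ A} (hP : IsP P) (hQ : IsP Q) :
    IsP (fromBlocks P 0 0 Q) := by
  constructor
  · rw [fromBlocks_multiply]
    simp only [Matrix.mul_zero, Matrix.zero_mul, add_zero, zero_add, hP.1, hQ.1]
  · rw [fromBlocks_conjTranspose, hP.2, hQ.2, conjTranspose_zero, conjTranspose_zero]

theorem MEq.blocks {P : Matrix ι ι A} {Q : Matrix κ κ A} {P' : Matrix μ μ A}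
    {Q' : Matrix ν ν A} (h : MEq P P') (h' : MEq Q Q') :
    MEq (fromBlocks P 0 0 Q) (fromBlocks P' 0 0 Q') := by
  obtain ⟨v, h1, h2⟩ := h
  obtain ⟨w, h3, h4⟩ := h'
  refine ⟨fromBlocks v 0 0 w, ?_, ?_⟩
  · rw [fromBlocks_conjTranspose, fromBlocks_multiply]
    simp only [conjTranspose_zero, Matrix.mul_zero, Matrix.zero_mul, add_zero, zero_add, h1, h3]
  · rw [fromBlocks_conjTranspose, fromBlocks_multiply]
    simp only [conjTranspose_zero, Matrix.mul_zero, Matrix.zero_mul, add_zero, zero_add, h2, h4]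

/-- projections in the matrix algebras `M_n(A)` -/
structure PM (A : Type*) [CStarAlgebra A] where
  /-- size -/
  n : ℕ
  /-- matrix -/
  P : Matrix (Fin n) (Fin n) A
  /-- projection -/
  h : IsP P

instance PM.setoid : Setoid (PM A) where
  r x y := MEq x.P y.P
  iseqv := ⟨fun x => MEq.refl x.h, fun h => h.symm, fun {x _ z} h h' => h.trans x.h z.h h'⟩

end

/-- the classes of projections -/
def VA (A : Type*) [CStarAlgebra A] : Type _ := Quotient (PM.setoid (A := A))

section

variable {A : Type*} [CStarAlgebra A]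

/-- the class of a projection -/
noncomputable def cl {ι : Type*} [Fintype ι] (P : Matrix ι ι A) (h : IsP P) : VA A :=
  Quotient.mk (PM.setoid (A := A)) ⟨Fintype.card ι,
    P.submatrix (Fintype.equivFin ι).symm (Fintype.equivFin ι).symm, h.sub _⟩

variable {ι κ : Type*} [Fintype ι] [Fintype κ]

theorem cl_eq {P : Matrix ι ι A} {Q : Matrix κ κ A} (hP : IsP P) (hQ : IsP Q) :
    cl P hP = cl Q hQ ↔ MEq P Q := by
  have h1 := MEq.sub hP (Fintype.equivFin ι).symm
  have h2 := MEq.sub hQ (Fintype.equivFin κ).symm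
  have h3 := hP.sub (Fintype.equivFin ι).symm
  have h4 := hQ.sub (Fintype.equivFin κ).symm
  constructor
  · intro h
    have h5 : MEq (P.submatrix (Fintype.equivFin ι).symm (Fintype.equivFin ι).symm)
        (Q.submatrix (Fintype.equivFin κ).symm (Fintype.equivFin κ).symm) := Quotient.exact h
    exact (h1.trans hP h4 h5).trans hP hQ h2.symm
  · intro h
    exact Quotient.sound ((h1.symm.trans h3 hQ h).trans h3 h4 h2)

theorem cl_surj (x : VA A) : ∃ (n : ℕ) (P : Matrix (Fin n) (Fin n) A) (h : IsP P),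
    x = cl P h := by
  induction x using Quotient.ind with
  | _ x =>
    exact ⟨x.n, x.P, x.h, Quotient.sound (MEq.sub x.h _)⟩

noncomputable instance : Add (VA A) :=
  ⟨Quotient.lift₂ (fun x y : PM A => cl (fromBlocks x.P 0 0 y.P) (x.h.blocks y.h))
    fun x y z w h h' => (cl_eq _ _).2 (MEq.blocks h h')⟩

theorem cl_add {P : Matrix ι ι A} {Q : Matrix κ κ A} (hP : IsP P) (hQ : IsP Q) :
    cl P hP + cl Q hQ = cl (fromBlocks P 0 0 Q) (hP.blocks hQ) :=
  (cl_eq ((hP.sub (Fintype.equivFin ι).symm).blocks (hQ.sub (Fintype.equivFin κ).symm)) _).2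
    (MEq.blocks (MEq.sub hP _).symm (MEq.sub hQ _).symm)

theorem IsP_zero (ι : Type*) [Fintype ι] : IsP (0 : Matrix ι ι A) :=
  ⟨Matrix.mul_zero _, conjTranspose_zero⟩

noncomputable instance : Zero (VA A) := ⟨cl (0 : Matrix Empty Empty A) (IsP_zero _)⟩

theorem cl_zero (ι : Type*) [Fintype ι] : cl (0 : Matrix ι ι A) (IsP_zero ι) = 0 :=
  (cl_eq _ _).2 ⟨0, Matrix.mul_zero _, Matrix.zero_mul _⟩

theorem VA_comm (x y : VA A) : x + y = y + x := by
  obtain ⟨n, P, hP, rfl⟩ := cl_surj x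
  obtain ⟨m, Q, hQ, rfl⟩ := cl_surj y
  rw [cl_add, cl_add, cl_eq]
  have h1 := MEq.sub (hP.blocks hQ) (Equiv.sumComm (Fin m) (Fin n))
  have h2 : (fromBlocks P 0 0 Q).submatrix (Equiv.sumComm (Fin m) (Fin n))
      (Equiv.sumComm (Fin m) (Fin n)) = fromBlocks Q 0 0 P := by
    ext i j
    rcases i with i | i <;> rcases j with j | j <;> rfl
  rw [h2] at h1
  exact h1

theorem VA_assoc (x y z : VA A) : x + y + z = x + (y + z) := by
  obtain ⟨n, P, hP, rfl⟩ := cl_surj x
  obtain ⟨m, Q, hQ, rfl⟩ := cl_surj y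
  obtain ⟨k, R, hR, rfl⟩ := cl_surj z
  rw [cl_add, cl_add, cl_add, cl_add, cl_eq]
  have h1 := MEq.sub ((hP.blocks hQ).blocks hR) (Equiv.sumAssoc (Fin n) (Fin m) (Fin k)).symm
  have h2 : (fromBlocks (fromBlocks P 0 0 Q) 0 0 R).submatrix
      (Equiv.sumAssoc (Fin n) (Fin m) (Fin k)).symm
      (Equiv.sumAssoc (Fin n) (Fin m) (Fin k)).symm =
        fromBlocks P 0 0 (fromBlocks Q 0 0 R) := by
    ext i j
    rcases i with i | i | i <;> rcases j with j | j | j <;> rfl
  rw [h2] at h1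
  exact h1

theorem VA_zero (x : VA A) : 0 + x = x := by
  obtain ⟨n, P, hP, rfl⟩ := cl_surj x
  rw [← cl_zero Empty, cl_add, cl_eq]
  have h1 := MEq.sub hP (Equiv.emptySum Empty (Fin n))
  have h2 : P.submatrix (Equiv.emptySum Empty (Fin n)) (Equiv.emptySum Empty (Fin n)) =
      fromBlocks 0 0 0 P := by
    ext i j
    rcases i with i | i
    · exact i.elim
    · rcases j with j | j
      · exact j.elim
      · rfl
  rw [h2] at h1
  exact h1.symm

noncomputable instance : AddCommMonoid (VA A) where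
  add_assoc := VA_assoc
  zero_add := VA_zero
  add_zero x := by rw [VA_comm, VA_zero]
  add_comm := VA_comm
  nsmul := nsmulRec

end

end Pool.Agent.H.MP_8be301_an.DP
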