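import Pool.Agent.H.MP_8be301_an.DP.VA

/-!
# Orthogonal sums and diagonal projections  (module VB)

`c1 p` is the class of a projection `p` of `A` (0 if `p` is not a projection).
`cl_orth`: `v : Matrix (ι ⊕ ι) ι A` with the rows of `P` and of `Q` (`fromRows P Q`): `v* v = P* P + Q* Q = P + Q`,
`v v* = fromBlocks (P P*) (P Q*) (Q P*) (Q Q*)`. `cl_diag`: `Fintype` induction on `ι` (or induction on `n` for `ι = Fin n` and then
transport along an equivalence), `diagonal (Sum.elim p q) = fromBlocks (diagonal p) 0 0 (diagonal q)`. `c1_add`: the column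
`v = (p, q)` (index type `Unit ⊕ Unit`).
-/

set_option autoImplicit false

namespace Pool.Agent.H.MP_8be301_an.DP

open Matrix Pool.Agent.H.MP_8be301_an.RD

variable {A : Type*} [CStarAlgebra A] {ι κ : Type*} [Fintype ι] [Fintype κ]

/-- orthogonal sums -/
theorem cl_orth {P Q : Matrix ι ι A} (hP : IsP P) (hQ : IsP Q) (h : P * Q = 0)
    (hs : IsP (P + Q)) : cl (P + Q) hs = cl P hP + cl Q hQ := by
  rw [cl_add, cl_eq]
  have h' : Q * P = 0 := by
    have h1 := congrArg conjTranspose h
    rwa [conjTranspose_mul, hP.2, hQ.2, conjTranspose_zero] at h1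
  refine ⟨fromRows P Q, ?_, ?_⟩
  · rw [conjTranspose_fromRows_eq_fromCols_conjTranspose, fromCols_mul_fromRows, hP.2, hQ.2,
      hP.1, hQ.1]
  · rw [conjTranspose_fromRows_eq_fromCols_conjTranspose, fromRows_mul_fromCols, hP.2, hQ.2,
      hP.1, hQ.1, h, h']

theorem IsP_one {p : A} (hp : Pj p) : IsP (Matrix.of fun _ _ : Unit => p) := by
  constructor
  · ext i j
    simp [Matrix.mul_apply, hp.1]
  · ext i j
    simp [Matrix.conjTranspose_apply, hp.2]

open Classical in
/-- the class of a projection of `A` -/
noncomputable def c1 (p : A) : VA A :=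
  if h : Pj p then cl (Matrix.of fun _ _ : Unit => p) (IsP_one h) else 0

theorem c1_eq {p : A} (h : Pj p) : c1 p = cl (Matrix.of fun _ _ : Unit => p) (IsP_one h) :=
  dif_pos h

theorem IsP_diag [DecidableEq ι] {p : ι → A} (hp : ∀ i, Pj (p i)) :
    IsP (Matrix.diagonal p) := by
  constructor
  · rw [Matrix.diagonal_mul_diagonal]
    congr 1
    funext i
    exact (hp i).1
  · rw [Matrix.diagonal_conjTranspose]
    congr 1
    funext i
    exact (hp i).2

theorem VB_zero : Pj (0 : A) := ⟨by simp, by simp⟩

theorem VB_single [DecidableEq ι] {p : A} (hp : Pj p) (i : ι)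
    (h : IsP (Matrix.diagonal (Pi.single i p : ι → A))) :
    cl (Matrix.diagonal (Pi.single i p : ι → A)) h = c1 p := by
  rw [c1_eq hp, cl_eq]
  refine MEq.symm ⟨Matrix.of fun j _ => (Pi.single i p : ι → A) j, ?_, ?_⟩
  · ext a b
    rw [Matrix.mul_apply, Finset.sum_eq_single i]
    · simp [Matrix.conjTranspose_apply, hp.1, hp.2]
    · intro j _ hj
      simp [Matrix.conjTranspose_apply, Pi.single_eq_of_ne hj]
    · intro hi
      exact absurd (Finset.mem_univ i) hi
  · ext j k
    rw [Matrix.mul_apply]
    simp only [Finset.univ_unique, Matrix.of_apply, Matrix.conjTranspose_apply,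
      Finset.sum_singleton]
    by_cases hj : j = i
    · subst hj
      by_cases hk : k = j
      · subst hk
        simp [hp.1, hp.2]
      · rw [Pi.single_eq_of_ne hk, star_zero, mul_zero, Matrix.diagonal_apply_ne _ (Ne.symm hk)]
    · rw [Pi.single_eq_of_ne hj, zero_mul]
      by_cases hk : j = k
      · subst hk
        rw [Matrix.diagonal_apply_eq, Pi.single_eq_of_ne hj]
      · rw [Matrix.diagonal_apply_ne _ hk]

theorem VB_fin [DecidableEq ι] {p : ι → A} (hp : ∀ i, Pj (p i)) (s : Finset ι)
    (h : IsP (Matrix.diagonal (fun i => if i ∈ s then p i else 0))) :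
    cl (Matrix.diagonal (fun i => if i ∈ s then p i else 0)) h = ∑ i ∈ s, c1 (p i) := by
  have hq : ∀ s : Finset ι, ∀ i, Pj ((fun i => if i ∈ s then p i else 0) i) := by
    intro s i
    show Pj (if i ∈ s then p i else 0)
    split_ifs
    · exact hp i
    · exact VB_zero
  induction s using Finset.induction_on with
  | empty =>
    rw [Finset.sum_empty]
    have h1 : (Matrix.diagonal (fun i : ι => if i ∈ (∅ : Finset ι) then p i else 0)) =
        (0 : Matrix ι ι A) := by
      simp
    rw [← cl_zero (A := A) ι, cl_eq, h1]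
    exact MEq.refl (IsP_zero ι)
  | insert a s ha ih =>
    rw [Finset.sum_insert ha]
    have hs1 : ∀ i, Pj ((Pi.single a (p a) : ι → A) i) := by
      intro i
      by_cases hi : i = a
      · subst hi
        rw [Pi.single_eq_same]
        exact hp i
      · rw [Pi.single_eq_of_ne hi]
        exact VB_zero
    have h1 := IsP_diag hs1
    have h2 := IsP_diag (hq s)
    have hsum : Matrix.diagonal (fun i => if i ∈ insert a s then p i else 0) =
        Matrix.diagonal (Pi.single a (p a) : ι → A) +
          Matrix.diagonal (fun i => if i ∈ s then p i else 0) := by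
      rw [Matrix.diagonal_add]
      congr 1
      funext i
      by_cases hi : i = a
      · subst hi
        rw [Pi.single_eq_same, if_pos (Finset.mem_insert_self _ _), if_neg ha, add_zero]
      · rw [Pi.single_eq_of_ne hi, zero_add]
        by_cases his : i ∈ s
        · rw [if_pos (Finset.mem_insert_of_mem his), if_pos his]
        · rw [if_neg (by simp [hi, his]), if_neg his]
    have horth : Matrix.diagonal (Pi.single a (p a) : ι → A) *
        Matrix.diagonal (fun i => if i ∈ s then p i else 0) = 0 := by
      rw [Matrix.diagonal_mul_diagonal]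
      have : (fun i => (Pi.single a (p a) : ι → A) i * (if i ∈ s then p i else 0)) =
          fun _ => 0 := by
        funext i
        by_cases hi : i = a
        · subst hi
          rw [if_neg ha, mul_zero]
        · rw [Pi.single_eq_of_ne hi, zero_mul]
      rw [this]
      exact Matrix.diagonal_zero
    have h3 : IsP (Matrix.diagonal (Pi.single a (p a) : ι → A) +
          Matrix.diagonal (fun i => if i ∈ s then p i else 0)) := by
      rw [← hsum]
      exact h
    have h4 := cl_orth h1 h2 horth h3
    rw [VB_single (hp a) a h1, ih h2] at h4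
    rw [← h4, cl_eq, hsum]
    exact MEq.refl h3

/-- diagonal projections -/
theorem cl_diag [DecidableEq ι] {p : ι → A} (hp : ∀ i, Pj (p i)) :
    cl (Matrix.diagonal p) (IsP_diag hp) = ∑ i, c1 (p i) := by
  have h1 : (fun i => if i ∈ (Finset.univ : Finset ι) then p i else 0) = p := by
    funext i
    simp
  have h2 : IsP (Matrix.diagonal (fun i => if i ∈ (Finset.univ : Finset ι) then p i else 0)) := by
    rw [h1]
    exact IsP_diag hp
  rw [← VB_fin hp Finset.univ h2, cl_eq, h1]
  exact MEq.refl (IsP_diag hp)

/-- orthogonal sums in `A` -/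
theorem c1_add {p q : A} (hp : Pj p) (hq : Pj q) (h : p * q = 0) : c1 (p + q) = c1 p + c1 q := by
  have h' : q * p = 0 := by
    have h1 := congrArg star h
    rwa [star_mul, hp.2, hq.2, star_zero] at h1
  have hpq : Pj (p + q) := by
    refine ⟨?_, by rw [star_add, hp.2, hq.2]⟩
    rw [add_mul, mul_add, mul_add, hp.1, hq.1, h, h', add_zero, zero_add]
  have hsum : (Matrix.of fun _ _ : Unit => p + q) =
      (Matrix.of fun _ _ : Unit => p) + (Matrix.of fun _ _ : Unit => q) := by
    ext i j
    rfl
  have horth : (Matrix.of fun _ _ : Unit => p) * (Matrix.of fun _ _ : Unit => q) = 0 := by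
    ext i j
    simp [Matrix.mul_apply, h]
  have h3 : IsP ((Matrix.of fun _ _ : Unit => p) + (Matrix.of fun _ _ : Unit => q)) := by
    rw [← hsum]
    exact IsP_one hpq
  rw [c1_eq hp, c1_eq hq, c1_eq hpq, ← cl_orth (IsP_one hp) (IsP_one hq) horth h3, cl_eq, hsum]
  exact MEq.refl h3

end Pool.Agent.H.MP_8be301_an.DP
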